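import Pool.Agent.Run7.h32.Dy.A
import Pool.Agent.Run7.h32.Dy.B
import Pool.Agent.Run7.h969.Dz.En

/-!
The forced dyadic model: the truncated systems, existence and energy.
-/

set_option autoImplicit false

open Set Filter Topology MeasureTheory Metric
open scoped InnerProductSpace NNReal

namespace Pool.Agent.Run7.h32.Fo

open Run7.h969.Dy Pool.Agent.Run7.h32.Dy

/-- `X` solves the forced equations of the shells `n ≤ N` on `[0, T]`, and `X_n = 0` for `n > N`. -/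
structure GalF (β ν T : ℝ) (N : ℕ) (x : ℕ → ℝ) (f X : ℕ → ℝ → ℝ) : Prop where
  init : ∀ n ≤ N, X n 0 = x n
  zero : ∀ n, N < n → ∀ t, X n t = 0
  ode : ∀ n ≤ N, ∀ t ∈ Icc 0 T,
    HasDerivWithinAt (X n) (rhs β ν (fun k => X k t) n + f n t) (Icc 0 T) t

variable {β ν T : ℝ} {N : ℕ} {x : ℕ → ℝ} {f X : ℕ → ℝ → ℝ}

lemma GalF.cont (h : GalF β ν T N x f X) (n : ℕ) : ContinuousOn (X n) (Icc 0 T) := by
  rcases le_or_gt n N with hn | hn
  · exact fun t ht => (h.ode n hn t ht).continuousWithinAt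
  · have : X n = fun _ => 0 := by
      funext t
      exact h.zero n hn t
    rw [this]
    exact continuousOn_const

lemma GalF.mono {T' : ℝ} (h : GalF β ν T N x f X) (hT : T' ≤ T) : GalF β ν T' N x f X :=
  ⟨h.init, h.zero, fun n hn t ht => (h.ode n hn t ⟨ht.1, ht.2.trans hT⟩).mono
    (Icc_subset_Icc_right hT)⟩

lemma fld_inner' (β ν : ℝ) {N : ℕ} (hν : 0 < ν) (v : EuclideanSpace ℝ (Fin (N + 1))) :
    ⟪fld β ν v, v⟫_ℝ ≤ -ν * ‖v‖ ^ 2 := by
  have h1 : ⟪fld β ν v, v⟫_ℝ = ∑ n ∈ Finset.range (N + 1), ext v n * rhs β ν (ext v) n := by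
    rw [PiLp.inner_apply, Finset.sum_range]
    refine Finset.sum_congr rfl fun i _ => ?_
    rw [ext_in v i.2]
    simp only [fld, Fin.eta]
    rfl
  have h2 : ‖v‖ ^ 2 = ∑ n ∈ Finset.range (N + 1), ext v n ^ 2 := by
    rw [EuclideanSpace.norm_sq_eq, Finset.sum_range]
    refine Finset.sum_congr rfl fun i _ => ?_
    rw [ext_in v i.2, Real.norm_eq_abs, sq_abs]
  rw [h1, energy_sum, ext_out v (lt_irrefl (N + 1)), h2]
  have h3 : ∑ n ∈ Finset.range (N + 1), ext v n ^ 2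
      ≤ ∑ n ∈ Finset.range (N + 1), (4 : ℝ) ^ n * ext v n ^ 2 := by
    refine Finset.sum_le_sum fun n _ => ?_
    have : (1 : ℝ) ≤ 4 ^ n := one_le_pow₀ (by norm_num)
    nlinarith [sq_nonneg (ext v n)]
  have h4 := mul_le_mul_of_nonneg_left h3 hν.le
  linarith

/-- **Existence for the truncated systems.** -/
theorem exist_galF (β : ℝ) {ν T : ℝ} (N : ℕ) (x : ℕ → ℝ) {f : ℕ → ℝ → ℝ} (hν : 0 < ν) (hT : 0 < T)
    (hf : ∀ n, ContinuousOn (f n) (Icc 0 T)) : ∃ X : ℕ → ℝ → ℝ, GalF β ν T N x f X := by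
  obtain ⟨F, hF⟩ : ∃ F : ℝ → EuclideanSpace ℝ (Fin (N + 1)),
      F = fun t => WithLp.toLp 2 fun i : Fin (N + 1) => f i t := ⟨_, rfl⟩
  have hFc : ContinuousOn F (Icc 0 T) := by
    rw [hF]
    exact (PiLp.continuous_toLp 2 _).comp_continuousOn (continuousOn_pi.2 fun i => hf i)
  obtain ⟨M, hM⟩ := isCompact_Icc.exists_bound_of_continuousOn hFc
  have hM0 : 0 ≤ M := (norm_nonneg _).trans (hM 0 ⟨le_rfl, hT.le⟩)
  have hlip : ∀ R : ℝ, ∃ C : ℝ≥0, ∀ t ∈ Icc 0 T, LipschitzOnWith C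
      (fun v => (fld β ν v + F t : EuclideanSpace ℝ (Fin (N + 1))))
      (closedBall 0 R) := by
    intro R
    obtain ⟨C, hC⟩ := ((fld_c β ν N).locallyLipschitz.locallyLipschitzOn
      (s := closedBall (0 : EuclideanSpace ℝ (Fin (N + 1))) R)).exists_lipschitzOnWith_of_compact
      (isCompact_closedBall _ _)
    refine ⟨C, fun t _ => ?_⟩
    intro v hv w hw
    simp only [edist_add_right]
    exact hC hv hw
  obtain ⟨v, hv0, hv, -⟩ := H772R2.NSR.exists_global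
    (fun (t : ℝ) (v : EuclideanSpace ℝ (Fin (N + 1))) => fld β ν v + F t)
    hT.le hlip (fun _ => continuousOn_const.add hFc)
    (WithLp.toLp 2 fun i : Fin (N + 1) => x i) (c := M ^ 2 / (4 * ν)) (by positivity)
    (fun t ht w => by
      rw [inner_add_left]
      have h1 := fld_inner' β ν hν w
      have h2 : ⟪F t, w⟫_ℝ ≤ M * ‖w‖ := (real_inner_le_norm _ _).trans
        (mul_le_mul_of_nonneg_right (hM t ht) (norm_nonneg _))
      have h3 : M * ‖w‖ ≤ M ^ 2 / (4 * ν) + ν * ‖w‖ ^ 2 := by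
        have h4 : M ^ 2 / (4 * ν) + ν * ‖w‖ ^ 2 - M * ‖w‖ = (M - 2 * ν * ‖w‖) ^ 2 / (4 * ν) := by
          field_simp
          ring
        have h5 : 0 ≤ (M - 2 * ν * ‖w‖) ^ 2 / (4 * ν) := by positivity
        linarith
      linarith)
  refine ⟨fun n t => ext (v t) n, ?_, ?_, ?_⟩
  · intro n hn
    change ext (v 0) n = x n
    rw [hv0, ext_in _ (Nat.lt_succ_of_le hn)]
  · intro n hn t
    exact ext_out _ (by omega)
  · intro n hn t ht
    have hn' : n < N + 1 := Nat.lt_succ_of_le hn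
    have h1 : HasDerivWithinAt (fun t => v t ⟨n, hn'⟩) ((fld β ν (v t) + F t) ⟨n, hn'⟩)
        (Icc 0 T) t :=
      ((EuclideanSpace.proj (𝕜 := ℝ) (⟨n, hn'⟩ : Fin (N + 1))).hasFDerivAt).comp_hasDerivWithinAt t
        (hv t ht)
    have h2 : (fun t => ext (v t) n) = fun t => v t ⟨n, hn'⟩ := by
      funext t
      exact ext_in _ hn'
    rw [h2]
    refine h1.congr_deriv ?_
    rw [hF]
    rfl

/-- the derivative of the truncated energy -/
lemma energy_hdF {S : Set ℝ} {t : ℝ} (M : ℕ)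
    (hd : ∀ n ≤ M, HasDerivWithinAt (X n) (rhs β ν (fun k => X k t) n + f n t) S t) :
    HasDerivWithinAt (fun s => ∑ n ∈ Finset.range (M + 1), X n s ^ 2)
      (-2 * ((2 : ℝ) ^ (β * M) * (X M t ^ 2 * X (M + 1) t))
        - 2 * ν * ∑ n ∈ Finset.range (M + 1), 4 ^ n * X n t ^ 2
        + 2 * ∑ n ∈ Finset.range (M + 1), f n t * X n t) S t := by
  have h1 : HasDerivWithinAt (fun s => ∑ n ∈ Finset.range (M + 1), X n s ^ 2)
      (∑ n ∈ Finset.range (M + 1), (2 * (X n t * rhs β ν (fun k => X k t) n)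
        + 2 * (f n t * X n t))) S t := by
    refine HasDerivWithinAt.fun_sum fun n hn => ?_
    have := (hd n (Nat.lt_succ_iff.1 (Finset.mem_range.1 hn))).fun_pow 2
    refine this.congr_deriv ?_
    norm_num
    ring
  refine h1.congr_deriv ?_
  rw [Finset.sum_add_distrib, ← Finset.mul_sum, ← Finset.mul_sum,
    energy_sum β ν (fun k => X k t) M]
  ring

lemma sumf_cont (hf : ∀ n, ContinuousOn (f n) (Icc 0 T)) (hX : ∀ n, ContinuousOn (X n) (Icc 0 T))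
    (M : ℕ) : ContinuousOn (fun s => ∑ n ∈ Finset.range M, f n s * X n s) (Icc 0 T) :=
  continuousOn_finsetSum _ fun n _ => (hf n).mul (hX n)

lemma sum4_cont (hX : ∀ n, ContinuousOn (X n) (Icc 0 T)) (M : ℕ) :
    ContinuousOn (fun s => ∑ n ∈ Finset.range M, (4 : ℝ) ^ n * X n s ^ 2) (Icc 0 T) :=
  continuousOn_finsetSum _ fun n _ => continuousOn_const.mul ((hX n).pow 2)

lemma sum14_cont (hX : ∀ n, ContinuousOn (X n) (Icc 0 T)) (M : ℕ) :
    ContinuousOn (fun s => ∑ n ∈ Finset.range M, X n s ^ 2 / 4 ^ n) (Icc 0 T) :=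
  continuousOn_finsetSum _ fun n _ => ((hX n).pow 2).div_const _

lemma ii_of {g : ℝ → ℝ} (hg : ContinuousOn g (Icc 0 T)) {s t : ℝ} (hs : s ∈ Icc 0 T)
    (ht : t ∈ Icc 0 T) : IntervalIntegrable g volume s t := by
  refine ContinuousOn.intervalIntegrable (hg.mono ?_)
  exact uIcc_subset_Icc hs ht

/-- Young's inequality for the work of the force -/
lemma young (hν : 0 < ν) {a b : ℝ} (n : ℕ) :
    2 * (a * b) ≤ ν * (4 ^ n * b ^ 2) + 1 / ν * (a ^ 2 / 4 ^ n) := by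
  have h4 : (0 : ℝ) < 4 ^ n := by positivity
  have h1 : ν * (4 ^ n * b ^ 2) + 1 / ν * (a ^ 2 / 4 ^ n) - 2 * (a * b)
      = (ν * 4 ^ n * b - a) ^ 2 / (ν * 4 ^ n) := by
    field_simp
    ring
  have h2 : 0 ≤ (ν * 4 ^ n * b - a) ^ 2 / (ν * 4 ^ n) := by positivity
  linarith

/-- the energy identity of the truncated system -/
theorem galF_id (h : GalF β ν T N x f X) (hf : ∀ n, ContinuousOn (f n) (Icc 0 T)) {t : ℝ}
    (ht : t ∈ Icc 0 T) :
    ∑ n ∈ Finset.range (N + 1), X n t ^ 2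
      + 2 * ν * ∫ s in (0 : ℝ)..t, ∑ n ∈ Finset.range (N + 1), 4 ^ n * X n s ^ 2
      = ∑ n ∈ Finset.range (N + 1), x n ^ 2
        + 2 * ∫ s in (0 : ℝ)..t, ∑ n ∈ Finset.range (N + 1), f n s * X n s := by
  have h0T : (0 : ℝ) ∈ Icc 0 T := ⟨le_rfl, ht.1.trans ht.2⟩
  have hsub : Icc 0 t ⊆ Icc 0 T := Icc_subset_Icc_right ht.2
  have hc := h.cont
  have hE : ∀ s ∈ Icc 0 T, HasDerivWithinAt (fun s => ∑ n ∈ Finset.range (N + 1), X n s ^ 2)
      (2 * ∑ n ∈ Finset.range (N + 1), f n s * X n s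
        - 2 * ν * ∑ n ∈ Finset.range (N + 1), 4 ^ n * X n s ^ 2) (Icc 0 T) s := by
    intro s hs
    refine (energy_hdF N fun n hn => h.ode n hn s hs).congr_deriv ?_
    rw [h.zero (N + 1) (Nat.lt_succ_self N) s]
    ring
  have hi1 := ii_of (sum4_cont hc (N + 1)) h0T ht
  have hi2 := ii_of (sumf_cont hf hc (N + 1)) h0T ht
  have h1 : ∫ s in (0 : ℝ)..t, (2 * ∑ n ∈ Finset.range (N + 1), f n s * X n s
        - 2 * ν * ∑ n ∈ Finset.range (N + 1), 4 ^ n * X n s ^ 2)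
      = ∑ n ∈ Finset.range (N + 1), X n t ^ 2 - ∑ n ∈ Finset.range (N + 1), X n 0 ^ 2 := by
    refine intervalIntegral.integral_eq_sub_of_hasDerivAt_of_le ht.1
      (f := fun s => ∑ n ∈ Finset.range (N + 1), X n s ^ 2) ?_ ?_ ?_
    · exact fun s hs => ((hE s (hsub hs)).mono hsub).continuousWithinAt
    · intro s hs
      exact (hE s ⟨hs.1.le, hs.2.le.trans ht.2⟩).hasDerivAt
        (Icc_mem_nhds hs.1 (hs.2.trans_le ht.2))
    · exact (hi2.const_mul 2).sub (hi1.const_mul (2 * ν))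
  have h2 : ∑ n ∈ Finset.range (N + 1), X n 0 ^ 2 = ∑ n ∈ Finset.range (N + 1), x n ^ 2 :=
    Finset.sum_congr rfl fun n hn => by rw [h.init n (Nat.lt_succ_iff.1 (Finset.mem_range.1 hn))]
  rw [intervalIntegral.integral_sub (hi2.const_mul 2) (hi1.const_mul (2 * ν)),
    intervalIntegral.integral_const_mul 2, intervalIntegral.integral_const_mul (2 * ν), h2] at h1
  linarith

/-- **The energy estimate of the truncated system.** -/
theorem galF_energy (hν : 0 < ν) (h : GalF β ν T N x f X)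
    (hf : ∀ n, ContinuousOn (f n) (Icc 0 T)) {t : ℝ} (ht : t ∈ Icc 0 T) :
    ∑ n ∈ Finset.range (N + 1), X n t ^ 2
      + ν * ∫ s in (0 : ℝ)..t, ∑ n ∈ Finset.range (N + 1), 4 ^ n * X n s ^ 2
      ≤ ∑ n ∈ Finset.range (N + 1), x n ^ 2
        + 1 / ν * ∫ s in (0 : ℝ)..t, ∑ n ∈ Finset.range (N + 1), f n s ^ 2 / 4 ^ n := by
  have h0T : (0 : ℝ) ∈ Icc 0 T := ⟨le_rfl, ht.1.trans ht.2⟩
  have hc := h.cont
  have hid := galF_id h hf ht
  have hi1 := ii_of (sum4_cont hc (N + 1)) h0T ht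
  have hi2 := ii_of (sumf_cont hf hc (N + 1)) h0T ht
  have hi3 := ii_of (sum14_cont hf (N + 1)) h0T ht
  have h1 : ∫ s in (0 : ℝ)..t, 2 * ∑ n ∈ Finset.range (N + 1), f n s * X n s
      ≤ ∫ s in (0 : ℝ)..t, (ν * (∑ n ∈ Finset.range (N + 1), 4 ^ n * X n s ^ 2)
        + 1 / ν * (∑ n ∈ Finset.range (N + 1), f n s ^ 2 / 4 ^ n)) := by
    refine intervalIntegral.integral_mono_on ht.1 (hi2.const_mul 2)
      ((hi1.const_mul ν).add (hi3.const_mul (1 / ν))) fun s _ => ?_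
    rw [Finset.mul_sum, Finset.mul_sum, Finset.mul_sum, ← Finset.sum_add_distrib]
    exact Finset.sum_le_sum fun n _ => young hν n
  rw [intervalIntegral.integral_const_mul, intervalIntegral.integral_add (hi1.const_mul ν)
    (hi3.const_mul (1 / ν)), intervalIntegral.integral_const_mul ν,
    intervalIntegral.integral_const_mul (1 / ν)] at h1
  linarith

/-- Bounds from the energy. -/
lemma le_energyF {E Φ : ℝ} (hν : 0 < ν) (h : GalF β ν T N x f X)
    (hf : ∀ n, ContinuousOn (f n) (Icc 0 T))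
    (hE : ∀ M : ℕ, ∑ n ∈ Finset.range M, x n ^ 2 ≤ E)
    (hΦ : ∀ M : ℕ, ∫ s in (0 : ℝ)..T, ∑ n ∈ Finset.range M, f n s ^ 2 / 4 ^ n ≤ Φ) {t : ℝ}
    (ht : t ∈ Icc 0 T) :
    ∑ n ∈ Finset.range (N + 1), X n t ^ 2
      + ν * ∫ s in (0 : ℝ)..t, ∑ n ∈ Finset.range (N + 1), 4 ^ n * X n s ^ 2 ≤ E + Φ / ν := by
  have h0T : (0 : ℝ) ∈ Icc 0 T := ⟨le_rfl, ht.1.trans ht.2⟩
  have hTT : T ∈ Icc 0 T := ⟨ht.1.trans ht.2, le_rfl⟩
  have h1 := galF_energy hν h hf ht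
  have h2 := hE (N + 1)
  have h3 : ∫ s in (0 : ℝ)..t, ∑ n ∈ Finset.range (N + 1), f n s ^ 2 / 4 ^ n ≤ Φ := by
    refine le_trans ?_ (hΦ (N + 1))
    have h4 := intervalIntegral.integral_add_adjacent_intervals
      (ii_of (sum14_cont hf (N + 1)) h0T ht) (ii_of (sum14_cont hf (N + 1)) ht hTT)
    have h5 : 0 ≤ ∫ s in t..T, ∑ n ∈ Finset.range (N + 1), f n s ^ 2 / 4 ^ n :=
      intervalIntegral.integral_nonneg ht.2 fun s _ => Finset.sum_nonneg fun n _ => by positivity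
    linarith
  have h4 : 1 / ν * (∫ s in (0 : ℝ)..t, ∑ n ∈ Finset.range (N + 1), f n s ^ 2 / 4 ^ n)
      ≤ 1 / ν * Φ := mul_le_mul_of_nonneg_left h3 (by positivity)
  have h5 : 1 / ν * Φ = Φ / ν := by ring
  linarith

lemma abs_le_energyF {E Φ : ℝ} (hν : 0 < ν) (h : GalF β ν T N x f X)
    (hf : ∀ n, ContinuousOn (f n) (Icc 0 T))
    (hE : ∀ M : ℕ, ∑ n ∈ Finset.range M, x n ^ 2 ≤ E)
    (hΦ : ∀ M : ℕ, ∫ s in (0 : ℝ)..T, ∑ n ∈ Finset.range M, f n s ^ 2 / 4 ^ n ≤ Φ) {t : ℝ}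
    (ht : t ∈ Icc 0 T) (n : ℕ) : |X n t| ≤ √(E + Φ / ν) := by
  by_cases hn : n ≤ N
  · apply Real.abs_le_sqrt
    have h1 : X n t ^ 2 ≤ ∑ n ∈ Finset.range (N + 1), X n t ^ 2 :=
      Finset.single_le_sum (f := fun n => X n t ^ 2) (fun n _ => sq_nonneg _)
        (Finset.mem_range.2 (by omega))
    have h3 : 0 ≤ ν * ∫ s in (0 : ℝ)..t, ∑ n ∈ Finset.range (N + 1), 4 ^ n * X n s ^ 2 := by
      apply mul_nonneg (by positivity)
      exact intervalIntegral.integral_nonneg ht.1 fun s _ =>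
        Finset.sum_nonneg fun n _ => by positivity
    have h4 := le_energyF hν h hf hE hΦ ht
    linarith
  · rw [h.zero n (by omega) t, abs_zero]
    exact Real.sqrt_nonneg _

end Pool.Agent.Run7.h32.Fo
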