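import Pool.Agent.Run7.h32.Fo.Base
import Pool.Agent.Run7.h969.Dz.WS

/-!
The forced dyadic model: the truncated solutions form a Cauchy sequence.
-/

set_option autoImplicit false

open Set Filter Topology MeasureTheory

namespace Pool.Agent.Run7.h32.Fo

open Run7.h969.Dy Pool.Agent.Run7.h32.Dy

lemma cross_le {a b c d p : ℝ} (h : |c| ≤ p) : c * (a * b) * d ≤ p * (|a| * |b|) * |d| := by
  calc c * (a * b) * d ≤ |c * (a * b) * d| := le_abs_self _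
    _ = |c| * (|a| * |b|) * |d| := by rw [abs_mul, abs_mul, abs_mul]
    _ ≤ p * (|a| * |b|) * |d| := by gcongr

/-- the pointwise estimate of the weighted difference -/
lemma wdiff_le {β ν : ℝ} {x z b : ℕ → ℝ} (hx : ∀ n : ℕ, (2 : ℝ) ^ (β * n) * |x n| ≤ b n)
    (hz : ∀ n : ℕ, (2 : ℝ) ^ (β * n) * |z n| ≤ b n)
    (hx' : ∀ n : ℕ, (2 : ℝ) ^ (β * n) * |x (n + 1)| ≤ b n) (hb : ∀ n, b n ≤ b (n + 1)) (N : ℕ) :
    ∑ n ∈ Finset.range (N + 1), (1 / 4 : ℝ) ^ n * ((x n - z n) * (rhs β ν x n - rhs β ν z n))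
      ≤ 11 / 2 * ∑ n ∈ Finset.range (N + 1), (1 / 4 : ℝ) ^ n * (b n * (x n - z n) ^ 2)
        - ν * ∑ n ∈ Finset.range (N + 1), (1 / 4 : ℝ) ^ n * (4 ^ n * (x n - z n) ^ 2)
        - 3 / 2 * ((1 / 4 : ℝ) ^ N * (b N * (x N - z N) ^ 2))
        + (1 / 4 : ℝ) ^ N * (b N * (|x N - z N| * |x (N + 1) - z (N + 1)|)) := by
  have hb0 : ∀ n, 0 ≤ b n := fun n =>
    (mul_nonneg (Real.rpow_nonneg two_pos.le _) (abs_nonneg _)).trans (hx n)
  induction N with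
  | zero =>
    have h1 := hx' 0
    have h2 := hz 0
    have h0 := hb0 0
    simp only [Nat.cast_zero, mul_zero, Real.rpow_zero, one_mul, zero_add] at h1 h2
    simp only [zero_add, Finset.sum_range_one, pow_zero, one_mul, rhs]
    obtain ⟨d0, hd0⟩ : ∃ d0, d0 = x 0 - z 0 := ⟨_, rfl⟩
    obtain ⟨d1, hd1⟩ : ∃ d1, d1 = x 1 - z 1 := ⟨_, rfl⟩
    have e1 : (x 0 - z 0) * (-(x 0 * x 1) - ν * x 0 - (-(z 0 * z 1) - ν * z 0))
        = -(x 1) * d0 ^ 2 - z 0 * (d0 * d1) - ν * d0 ^ 2 := by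
      rw [hd0, hd1]
      ring
    rw [e1, ← hd0, ← hd1]
    have i1 : -(x 1) * d0 ^ 2 ≤ b 0 * d0 ^ 2 :=
      mul_le_mul_of_nonneg_right ((neg_le_abs _).trans h1) (sq_nonneg _)
    have i2 : -(z 0 * (d0 * d1)) ≤ b 0 * (|d0| * |d1|) := by
      calc -(z 0 * (d0 * d1)) ≤ |z 0 * (d0 * d1)| := neg_le_abs _
        _ = |z 0| * (|d0| * |d1|) := by rw [abs_mul, abs_mul]
        _ ≤ _ := mul_le_mul_of_nonneg_right h2 (by positivity)
    have i3 : 0 ≤ b 0 * d0 ^ 2 := mul_nonneg h0 (sq_nonneg _)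
    linarith
  | succ N ih =>
    rw [Finset.sum_range_succ, Finset.sum_range_succ (fun n => (1 / 4 : ℝ) ^ n
      * (b n * (x n - z n) ^ 2)) (N + 1), Finset.sum_range_succ (fun n => (1 / 4 : ℝ) ^ n
      * (4 ^ n * (x n - z n) ^ 2)) (N + 1)]
    obtain ⟨d0, hd0⟩ : ∃ d0, d0 = x N - z N := ⟨_, rfl⟩
    obtain ⟨d1, hd1⟩ : ∃ d1, d1 = x (N + 1) - z (N + 1) := ⟨_, rfl⟩
    obtain ⟨d2, hd2⟩ : ∃ d2, d2 = x (N + 2) - z (N + 2) := ⟨_, rfl⟩
    obtain ⟨w, hw⟩ : ∃ w : ℝ, w = (1 / 4) ^ N := ⟨_, rfl⟩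
    have hw0 : 0 < w := by rw [hw]; positivity
    have hw1 : (1 / 4 : ℝ) ^ (N + 1) = w / 4 := by rw [hw, pow_succ]; ring
    have hcast : (2 : ℝ) ^ (β * ((N + 1 : ℕ) : ℝ)) = (2 : ℝ) ^ (β * ((N : ℝ) + 1)) := by
      push_cast
      rfl
    have e1 : (x (N + 1) - z (N + 1)) * (rhs β ν x (N + 1) - rhs β ν z (N + 1))
        = (2 : ℝ) ^ (β * N) * (x N + z N) * (d0 * d1)
          - (2 : ℝ) ^ (β * ((N : ℝ) + 1)) * x (N + 2) * d1 ^ 2
          - (2 : ℝ) ^ (β * ((N : ℝ) + 1)) * z (N + 1) * (d1 * d2) - ν * (4 ^ (N + 1) * d1 ^ 2) := by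
      simp only [rhs]
      rw [hd0, hd1, hd2]
      ring
    have p0 : (0 : ℝ) ≤ (2 : ℝ) ^ (β * N) := Real.rpow_nonneg two_pos.le _
    have p1 : (0 : ℝ) ≤ (2 : ℝ) ^ (β * ((N : ℝ) + 1)) := Real.rpow_nonneg two_pos.le _
    have i1 : (2 : ℝ) ^ (β * N) * (x N + z N) * (d0 * d1) ≤ b N * (d0 ^ 2 + d1 ^ 2) := by
      have j1 : |(2 : ℝ) ^ (β * N) * (x N + z N)| ≤ 2 * b N := by
        rw [abs_mul, abs_of_nonneg p0]
        have := mul_le_mul_of_nonneg_left (abs_add_le (x N) (z N)) p0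
        have := hx N
        have := hz N
        linarith
      have j2 : |d0| * |d1| ≤ (d0 ^ 2 + d1 ^ 2) / 2 := by
        rw [← sq_abs d0, ← sq_abs d1]
        nlinarith [sq_nonneg (|d0| - |d1|)]
      calc (2 : ℝ) ^ (β * N) * (x N + z N) * (d0 * d1)
          ≤ |(2 : ℝ) ^ (β * N) * (x N + z N) * (d0 * d1)| := le_abs_self _
        _ = |(2 : ℝ) ^ (β * N) * (x N + z N)| * (|d0| * |d1|) := by rw [abs_mul, abs_mul d0]
        _ ≤ 2 * b N * ((d0 ^ 2 + d1 ^ 2) / 2) :=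
            mul_le_mul j1 j2 (by positivity) (by linarith [hb0 N])
        _ = _ := by ring
    have i2 : -((2 : ℝ) ^ (β * ((N : ℝ) + 1)) * x (N + 2) * d1 ^ 2) ≤ b (N + 1) * d1 ^ 2 := by
      have j1 := hx' (N + 1)
      rw [hcast] at j1
      have j2 : (2 : ℝ) ^ (β * ((N : ℝ) + 1)) * -x (N + 2) ≤ b (N + 1) :=
        (mul_le_mul_of_nonneg_left (neg_le_abs _) p1).trans j1
      have j3 := mul_le_mul_of_nonneg_right j2 (sq_nonneg d1)
      linarith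
    have i3 : -((2 : ℝ) ^ (β * ((N : ℝ) + 1)) * z (N + 1) * (d1 * d2))
        ≤ b (N + 1) * (|d1| * |d2|) := by
      have j1 := hz (N + 1)
      rw [hcast] at j1
      calc -((2 : ℝ) ^ (β * ((N : ℝ) + 1)) * z (N + 1) * (d1 * d2))
          ≤ |(2 : ℝ) ^ (β * ((N : ℝ) + 1)) * z (N + 1) * (d1 * d2)| := neg_le_abs _
        _ = (2 : ℝ) ^ (β * ((N : ℝ) + 1)) * |z (N + 1)| * (|d1| * |d2|) := by
            rw [abs_mul, abs_mul, abs_mul d1, abs_of_nonneg p1]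
        _ ≤ _ := mul_le_mul_of_nonneg_right j1 (by positivity)
    have i4 : b N * (|d0| * |d1|) ≤ b N * d0 ^ 2 / 2 + b (N + 1) * d1 ^ 2 / 2 := by
      have j2 : |d0| * |d1| ≤ (d0 ^ 2 + d1 ^ 2) / 2 := by
        rw [← sq_abs d0, ← sq_abs d1]
        nlinarith [sq_nonneg (|d0| - |d1|)]
      have j3 := mul_le_mul_of_nonneg_left j2 (hb0 N)
      have j4 := mul_le_mul_of_nonneg_right (hb N) (sq_nonneg d1)
      linarith
    have i5 := mul_le_mul_of_nonneg_right (hb N) (sq_nonneg d1)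
    have i6 : 0 ≤ b N * d0 ^ 2 := mul_nonneg (hb0 N) (sq_nonneg _)
    rw [← hd0, ← hd1, ← hw] at ih
    rw [e1, ← hd1, ← hd2, hw1]
    have k1 := mul_le_mul_of_nonneg_left i1 hw0.le
    have k2 := mul_le_mul_of_nonneg_left i2 hw0.le
    have k3 := mul_le_mul_of_nonneg_left i3 hw0.le
    have k4 := mul_le_mul_of_nonneg_left i4 hw0.le
    have k5 := mul_le_mul_of_nonneg_left i5 hw0.le
    have k6 := mul_nonneg hw0.le i6
    linarith

/-- **The Cauchy estimate.** -/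
theorem cauchy_gal {β ν T q A K : ℝ} {N M : ℕ} {x : ℕ → ℝ} {f X Z : ℕ → ℝ → ℝ} (hν : 0 < ν)
    (hT : 0 ≤ T) (hq : 1 ≤ q) (hA : 0 ≤ A) (hK0 : 0 ≤ K)
    (hK : ∀ n : ℕ, (2 : ℝ) ^ (β * n) * (A / q ^ n) ≤ 2 / 11 * ν * 4 ^ n + K)
    (hNM : N ≤ M) (hX : GalF β ν T N x f X) (hZ : GalF β ν T M x f Z)
    (hXA : ∀ t ∈ Icc 0 T, ∀ n : ℕ, |X n t| ≤ A / q ^ n)
    (hZA : ∀ t ∈ Icc 0 T, ∀ n : ℕ, |Z n t| ≤ A / q ^ n) {t : ℝ} (ht : t ∈ Icc 0 T) :
    ∑ n ∈ Finset.range (N + 1), (1 / 4 : ℝ) ^ n * (X n t - Z n t) ^ 2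
      ≤ 4 * A ^ 2 * (ν + K) * T / (q ^ N) ^ 2 * Real.exp (11 * K * t) := by
  have hq0 : 0 < q := by linarith
  have h0T : (0 : ℝ) ∈ Icc 0 T := ⟨le_rfl, hT⟩
  have hcX := hX.cont
  have hcZ := hZ.cont
  have hyc : ContinuousOn (fun t => ∑ n ∈ Finset.range (N + 1),
      (1 / 4 : ℝ) ^ n * (X n t - Z n t) ^ 2) (Icc 0 T) :=
    continuousOn_finsetSum _ fun n _ => continuousOn_const.mul (((hcX n).sub (hcZ n)).pow 2)
  refine Run7.h969.Dz.gron hyc (by positivity) (fun t ht => ?_) t ht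
  have hsub : Icc 0 t ⊆ Icc 0 T := Icc_subset_Icc_right ht.2
  have hcr : ContinuousOn (fun r => 2 * ∑ k ∈ Finset.range (N + 1), (1 / 4 : ℝ) ^ k *
      ((X k r - Z k r) * (rhs β ν (fun k => X k r) k - rhs β ν (fun k => Z k r) k))) (Icc 0 T) :=
    continuousOn_const.mul (continuousOn_finsetSum _ fun k _ => continuousOn_const.mul
      (((hcX k).sub (hcZ k)).mul ((rhs_cont hcX k).sub (rhs_cont hcZ k))))
  have hint : ∫ r in (0 : ℝ)..t, 2 * ∑ k ∈ Finset.range (N + 1), (1 / 4 : ℝ) ^ k *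
      ((X k r - Z k r) * (rhs β ν (fun k => X k r) k - rhs β ν (fun k => Z k r) k))
      = ∑ k ∈ Finset.range (N + 1), (1 / 4 : ℝ) ^ k * (X k t - Z k t) ^ 2
        - ∑ k ∈ Finset.range (N + 1), (1 / 4 : ℝ) ^ k * (X k 0 - Z k 0) ^ 2 := by
    refine intervalIntegral.integral_eq_sub_of_hasDerivAt_of_le ht.1
      (f := fun r => ∑ k ∈ Finset.range (N + 1), (1 / 4 : ℝ) ^ k * (X k r - Z k r) ^ 2) ?_ ?_
      (ii_of hcr h0T ht)
    · exact hyc.mono hsub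
    · intro r hr
      have hrI : r ∈ Icc 0 T := ⟨hr.1.le, hr.2.le.trans ht.2⟩
      have hnh : Icc 0 T ∈ 𝓝 r := Icc_mem_nhds hr.1 (hr.2.trans_le ht.2)
      have h1 : HasDerivAt (fun r => ∑ k ∈ Finset.range (N + 1), (1 / 4 : ℝ) ^ k
          * (X k r - Z k r) ^ 2)
          (∑ k ∈ Finset.range (N + 1), 2 * ((1 / 4 : ℝ) ^ k * ((X k r - Z k r) *
          (rhs β ν (fun k => X k r) k - rhs β ν (fun k => Z k r) k)))) r := by
        refine HasDerivAt.fun_sum fun k hk => ?_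
        have hkN : k ≤ N := Nat.lt_succ_iff.1 (Finset.mem_range.1 hk)
        have e1 := (hX.ode k hkN r hrI).hasDerivAt hnh
        have e2 := (hZ.ode k (hkN.trans hNM) r hrI).hasDerivAt hnh
        refine (((e1.fun_sub e2).fun_pow 2).const_mul _).congr_deriv ?_
        norm_num
        ring
      rw [Finset.mul_sum]
      exact h1
  have h0 : ∑ k ∈ Finset.range (N + 1), (1 / 4 : ℝ) ^ k * (X k 0 - Z k 0) ^ 2 = 0 := by
    refine Finset.sum_eq_zero fun k hk => ?_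
    have hkN : k ≤ N := Nat.lt_succ_iff.1 (Finset.mem_range.1 hk)
    rw [hX.init k hkN, hZ.init k (hkN.trans hNM)]
    ring
  have hpt : ∀ r ∈ Icc 0 t, 2 * ∑ k ∈ Finset.range (N + 1), (1 / 4 : ℝ) ^ k *
      ((X k r - Z k r) * (rhs β ν (fun k => X k r) k - rhs β ν (fun k => Z k r) k))
      ≤ 4 * A ^ 2 * (ν + K) / (q ^ N) ^ 2
        + 11 * K * ∑ k ∈ Finset.range (N + 1), (1 / 4 : ℝ) ^ k * (X k r - Z k r) ^ 2 := by
    intro r hr
    have hrI := hsub hr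
    have hXr := hXA r hrI
    have hZr := hZA r hrI
    have hstep : ∀ n : ℕ, A / q ^ (n + 1) ≤ A / q ^ n := fun n => by
      apply div_le_div_of_nonneg_left hA (by positivity)
      exact pow_le_pow_right₀ hq (Nat.le_succ n)
    have hp : ∀ n : ℕ, (0 : ℝ) ≤ (2 : ℝ) ^ (β * n) := fun n => Real.rpow_nonneg two_pos.le _
    have h1 := wdiff_le (β := β) (ν := ν) (x := fun k => X k r) (z := fun k => Z k r)
      (b := fun n => 2 / 11 * ν * 4 ^ n + K)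
      (fun n => (mul_le_mul_of_nonneg_left (hXr n) (hp n)).trans (hK n))
      (fun n => (mul_le_mul_of_nonneg_left (hZr n) (hp n)).trans (hK n))
      (fun n => (mul_le_mul_of_nonneg_left ((hXr (n + 1)).trans (hstep n)) (hp n)).trans (hK n))
      (fun n => by
        have : (4 : ℝ) ^ n ≤ 4 ^ (n + 1) := pow_le_pow_right₀ (by norm_num) (Nat.le_succ n)
        have := mul_le_mul_of_nonneg_left this (by positivity : 0 ≤ 2 / 11 * ν)
        linarith) N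
    have h2 : 11 / 2 * ∑ n ∈ Finset.range (N + 1), (1 / 4 : ℝ) ^ n * ((2 / 11 * ν * 4 ^ n + K)
        * (X n r - Z n r) ^ 2)
        = ν * ∑ n ∈ Finset.range (N + 1), (1 / 4 : ℝ) ^ n * (4 ^ n * (X n r - Z n r) ^ 2)
          + 11 / 2 * K * ∑ n ∈ Finset.range (N + 1), (1 / 4 : ℝ) ^ n * (X n r - Z n r) ^ 2 := by
      rw [Finset.mul_sum, Finset.mul_sum, Finset.mul_sum, ← Finset.sum_add_distrib]
      refine Finset.sum_congr rfl fun n _ => ?_
      ring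
    rw [h2] at h1
    have h3 : 0 ≤ 3 / 2 * ((1 / 4 : ℝ) ^ N * ((2 / 11 * ν * 4 ^ N + K) * (X N r - Z N r) ^ 2)) := by
      positivity
    -- the boundary term
    have h4 : |X N r - Z N r| ≤ 2 * (A / q ^ N) := by
      have := abs_sub (X N r) (Z N r)
      have := hXr N
      have := hZr N
      linarith
    have h5 : |X (N + 1) r - Z (N + 1) r| ≤ A / q ^ N := by
      rw [hX.zero (N + 1) (Nat.lt_succ_self N) r, zero_sub, abs_neg]
      exact (hZr (N + 1)).trans (hstep N)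
    have h6 : (1 / 4 : ℝ) ^ N * ((2 / 11 * ν * 4 ^ N + K) * (|X N r - Z N r|
        * |X (N + 1) r - Z (N + 1) r|)) ≤ 2 * A ^ 2 * (ν + K) / (q ^ N) ^ 2 := by
      have k1 : |X N r - Z N r| * |X (N + 1) r - Z (N + 1) r| ≤ 2 * (A / q ^ N) * (A / q ^ N) :=
        mul_le_mul h4 h5 (abs_nonneg _) (by positivity)
      have k2 : (1 / 4 : ℝ) ^ N * (2 / 11 * ν * 4 ^ N + K) ≤ ν + K := by
        have e1 : (1 / 4 : ℝ) ^ N * 4 ^ N = 1 := by
          rw [← mul_pow]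
          norm_num
        have e2 : (1 / 4 : ℝ) ^ N ≤ 1 := pow_le_one₀ (by norm_num) (by norm_num)
        have e3 : (1 / 4 : ℝ) ^ N * K ≤ 1 * K := mul_le_mul_of_nonneg_right e2 hK0
        calc (1 / 4 : ℝ) ^ N * (2 / 11 * ν * 4 ^ N + K)
            = 2 / 11 * ν * ((1 / 4 : ℝ) ^ N * 4 ^ N) + (1 / 4 : ℝ) ^ N * K := by ring
          _ ≤ 2 / 11 * ν * 1 + 1 * K := by rw [e1]; linarith
          _ ≤ ν + K := by linarith
      calc (1 / 4 : ℝ) ^ N * ((2 / 11 * ν * 4 ^ N + K) * (|X N r - Z N r|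
          * |X (N + 1) r - Z (N + 1) r|))
          = (1 / 4 : ℝ) ^ N * (2 / 11 * ν * 4 ^ N + K) * (|X N r - Z N r|
          * |X (N + 1) r - Z (N + 1) r|) := by ring
        _ ≤ (ν + K) * (2 * (A / q ^ N) * (A / q ^ N)) :=
            mul_le_mul k2 k1 (by positivity) (by positivity)
        _ = _ := by
            field_simp
    have h7 : 4 * A ^ 2 * (ν + K) / (q ^ N) ^ 2 = 2 * (2 * A ^ 2 * (ν + K) / (q ^ N) ^ 2) := by
      ring
    rw [h7]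
    linarith
  have h2 := intervalIntegral.integral_mono_on ht.1 (ii_of hcr h0T ht)
    (intervalIntegrable_const.add ((ii_of hyc h0T ht).const_mul (11 * K))) hpt
  rw [hint, h0, sub_zero, intervalIntegral.integral_add intervalIntegrable_const
    ((ii_of hyc h0T ht).const_mul (11 * K)), intervalIntegral.integral_const,
    intervalIntegral.integral_const_mul, smul_eq_mul, sub_zero] at h2
  have h3 : t * (4 * A ^ 2 * (ν + K) / (q ^ N) ^ 2) ≤ 4 * A ^ 2 * (ν + K) * T / (q ^ N) ^ 2 := by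
    have h4 : 0 ≤ 4 * A ^ 2 * (ν + K) / (q ^ N) ^ 2 := by positivity
    have h5 := mul_le_mul_of_nonneg_right ht.2 h4
    calc _ ≤ _ := h5
      _ = _ := by ring
  linarith

end Pool.Agent.Run7.h32.Fo
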