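import Pool.Agent.Run7.h32.Fo.Base
import Pool.Agent.Run7.h969.Dz.Uniq
import Pool.Agent.Run7.h969.Dz.WS

/-!
The forced dyadic model: the time derivative of the truncated solutions.
-/

set_option autoImplicit false

open Set Filter Topology MeasureTheory

namespace Pool.Agent.Run7.h32.Fo

open Run7.h969.Dy Pool.Agent.Run7.h32.Dy

lemma ii_sum {ι : Type*} (S : Finset ι) {F : ι → ℝ → ℝ} {a b : ℝ}
    (h : ∀ i ∈ S, IntervalIntegrable (F i) volume a b) :
    IntervalIntegrable (fun s => ∑ i ∈ S, F i s) volume a b := by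
  have := IntervalIntegrable.sum S h
  have e : (∑ i ∈ S, F i) = fun s => ∑ i ∈ S, F i s := by
    funext s
    exact Finset.sum_apply s S F
  rwa [e] at this

/-- the derivative of the right hand side -/
noncomputable def drhs (β ν : ℝ) (x v : ℕ → ℝ) : ℕ → ℝ
  | 0 => -(v 0 * x 1 + x 0 * v 1) - ν * v 0
  | n + 1 => (2 : ℝ) ^ (β * n) * (2 * (x n * v n))
      - (2 : ℝ) ^ (β * (n + 1)) * (v (n + 1) * x (n + 2) + x (n + 1) * v (n + 2))
      - ν * 4 ^ (n + 1) * v (n + 1)

lemma hasDeriv_rhs {β ν : ℝ} {X : ℕ → ℝ → ℝ} {V : ℕ → ℝ} {S : Set ℝ} {t : ℝ}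
    (h : ∀ k, HasDerivWithinAt (X k) (V k) S t) (n : ℕ) :
    HasDerivWithinAt (fun s => rhs β ν (fun k => X k s) n)
      (drhs β ν (fun k => X k t) V n) S t := by
  cases n with
  | zero =>
    simp only [rhs, drhs]
    exact (((h 0).mul (h 1)).neg).sub ((h 0).const_mul ν)
  | succ n =>
    simp only [rhs, drhs]
    refine ((((h n).fun_pow 2).const_mul _).sub (((h (n + 1)).mul (h (n + 2))).const_mul _)).sub
      ((h (n + 1)).const_mul _) |>.congr_deriv ?_
    rw [show 2 - 1 = 1 from rfl, pow_one]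
    push_cast
    ring

lemma drhs_sum (β ν : ℝ) (x v : ℕ → ℝ) (N : ℕ) :
    ∑ n ∈ Finset.range (N + 1), v n * drhs β ν x v n
      = ∑ n ∈ Finset.range N, (2 : ℝ) ^ (β * n) * x n * (v n * v (n + 1))
        - ∑ n ∈ Finset.range (N + 1), (2 : ℝ) ^ (β * n) * x (n + 1) * v n ^ 2
        - (2 : ℝ) ^ (β * N) * x N * (v N * v (N + 1))
        - ν * ∑ n ∈ Finset.range (N + 1), 4 ^ n * v n ^ 2 := by
  induction N with
  | zero =>
    simp only [zero_add, Finset.sum_range_one, Finset.range_zero, Finset.sum_empty, drhs,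
      Nat.cast_zero, mul_zero, Real.rpow_zero, pow_zero]
    ring
  | succ N ih =>
    rw [Finset.sum_range_succ, ih, Finset.sum_range_succ (fun n => (2 : ℝ) ^ (β * n) * x n
      * (v n * v (n + 1))) N, Finset.sum_range_succ (fun n => (2 : ℝ) ^ (β * n) * x (n + 1)
      * v n ^ 2) (N + 1), Finset.sum_range_succ (fun n => (4 : ℝ) ^ n * v n ^ 2) (N + 1)]
    simp only [drhs]
    push_cast
    ring

/-- the pointwise estimate -/
lemma drhs_le {β ν K : ℝ} (hν : 0 < ν) {x v g : ℕ → ℝ} (hK0 : 0 ≤ K)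
    (hK : ∀ n : ℕ, (2 : ℝ) ^ (β * n) * |x n| ≤ ν / 8 * 4 ^ n + K)
    (hK' : ∀ n : ℕ, (2 : ℝ) ^ (β * n) * |x (n + 1)| ≤ ν / 8 * 4 ^ n + K) (N : ℕ)
    (hv : v (N + 1) = 0) :
    ∑ n ∈ Finset.range (N + 1), 2 * (v n * (drhs β ν x v n + g n))
      ≤ 4 * K * ∑ n ∈ Finset.range (N + 1), v n ^ 2
        - ν / 2 * ∑ n ∈ Finset.range (N + 1), 4 ^ n * v n ^ 2
        + 2 / ν * ∑ n ∈ Finset.range (N + 1), g n ^ 2 / 4 ^ n := by
  have h1 := Run7.h969.Dz.bulk_le (β := β) (ν := ν / 2) (K := K) (x := x) (d := v) (by positivity)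
    hK0 (fun n => by have := hK n; linarith) (fun n => by have := hK' n; linarith) N
  have h2 := drhs_sum β ν x v N
  rw [hv, mul_zero, mul_zero, sub_zero] at h2
  have h3 : ∑ n ∈ Finset.range (N + 1), 2 * (v n * (drhs β ν x v n + g n))
      = 2 * ∑ n ∈ Finset.range (N + 1), v n * drhs β ν x v n
        + ∑ n ∈ Finset.range (N + 1), 2 * (g n * v n) := by
    rw [Finset.mul_sum, ← Finset.sum_add_distrib]
    exact Finset.sum_congr rfl fun n _ => by ring
  have h4 : ∑ n ∈ Finset.range (N + 1), 2 * (g n * v n)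
      ≤ ν / 2 * ∑ n ∈ Finset.range (N + 1), 4 ^ n * v n ^ 2
        + 2 / ν * ∑ n ∈ Finset.range (N + 1), g n ^ 2 / 4 ^ n := by
    rw [Finset.mul_sum, Finset.mul_sum, ← Finset.sum_add_distrib]
    refine Finset.sum_le_sum fun n _ => ?_
    have := young (ν := ν / 2) (by positivity) (a := g n) (b := v n) n
    have e : 1 / (ν / 2) = 2 / ν := by field_simp
    rwa [e] at this
  rw [h3, h2]
  linarith

section

variable {β ν T : ℝ} {N : ℕ} {x : ℕ → ℝ} {f X : ℕ → ℝ → ℝ}

/-- the time derivative of the truncated solution -/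
noncomputable def VV (β ν : ℝ) (N : ℕ) (f X : ℕ → ℝ → ℝ) (n : ℕ) (t : ℝ) : ℝ :=
  if n ≤ N then rhs β ν (fun k => X k t) n + f n t else 0

lemma VV_der (h : GalF β ν T N x f X) (n : ℕ) {t : ℝ} (ht : t ∈ Icc 0 T) :
    HasDerivWithinAt (X n) (VV β ν N f X n t) (Icc 0 T) t := by
  by_cases hn : n ≤ N
  · simp only [VV, hn, ite_true]
    exact h.ode n hn t ht
  · simp only [VV, hn, ite_false]
    have : X n = fun _ => 0 := by
      funext t
      exact h.zero n (by omega) t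
    rw [this]
    exact hasDerivWithinAt_const _ _ _

lemma VV_cont (h : GalF β ν T N x f X) (hf : ∀ n, ContinuousOn (f n) (Icc 0 T)) (n : ℕ) :
    ContinuousOn (VV β ν N f X n) (Icc 0 T) := by
  by_cases hn : n ≤ N
  · have : VV β ν N f X n = fun t => rhs β ν (fun k => X k t) n + f n t := by
      funext t
      simp only [VV, hn, ite_true]
    rw [this]
    exact (rhs_cont h.cont n).add (hf n)
  · have : VV β ν N f X n = fun _ => 0 := by
      funext t
      simp only [VV, hn, ite_false]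
    rw [this]
    exact continuousOn_const

lemma VV_zero {n : ℕ} (hn : N < n) (t : ℝ) : VV β ν N f X n t = 0 := by
  simp only [VV]
  rw [if_neg (by omega)]

/-- the square of a primitive -/
lemma sq_of_int {V G : ℝ → ℝ} {t : ℝ} (ht : 0 ≤ t) (hG : IntervalIntegrable G volume 0 t)
    (hV : ∀ s ∈ Icc 0 t, V s = V 0 + ∫ r in (0 : ℝ)..s, G r) :
    IntervalIntegrable (fun r => 2 * (V r * G r)) volume 0 t ∧
      ∫ r in (0 : ℝ)..t, 2 * (V r * G r) = V t ^ 2 - V 0 ^ 2 := by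
  obtain ⟨W, hW⟩ : ∃ W : ℝ → ℝ, W = fun s => ∫ r in (0 : ℝ)..s, G r := ⟨_, rfl⟩
  have hac : AbsolutelyContinuousOnInterval W 0 t := by
    rw [hW]
    exact hG.absolutelyContinuousOnInterval_intervalIntegral left_mem_uIcc
  have hWc : ContinuousOn W (uIcc 0 t) := hac.continuousOn
  have hae : ∀ᵐ r, r ∈ uIoc 0 t → deriv W r = G r := by
    filter_upwards [hG.ae_hasDerivAt_integral] with r hr hr2
    rw [hW]
    exact (hr (uIoc_subset_uIcc hr2) 0 left_mem_uIcc).deriv
  have h1 := hac.integral_deriv_mul_eq_sub hac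
  have h2 : ∫ r in (0 : ℝ)..t, (deriv W r * W r + W r * deriv W r)
      = ∫ r in (0 : ℝ)..t, 2 * (W r * G r) := by
    apply intervalIntegral.integral_congr_ae
    filter_upwards [hae] with r hr hr2
    rw [hr hr2]
    ring
  have hW0 : W 0 = 0 := by rw [hW]; exact intervalIntegral.integral_same
  have hWG : IntervalIntegrable (fun r => 2 * (W r * G r)) volume 0 t :=
    (hG.continuousOn_mul hWc).const_mul 2
  have hcG : IntervalIntegrable (fun r => 2 * V 0 * G r) volume 0 t := hG.const_mul _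
  have heq : ∀ r ∈ uIcc 0 t, 2 * (V r * G r) = 2 * V 0 * G r + 2 * (W r * G r) := by
    intro r hr
    rw [uIcc_of_le ht] at hr
    rw [hV r hr, hW]
    ring
  have hWt : V t = V 0 + W t := by rw [hW]; exact hV t ⟨ht, le_rfl⟩
  constructor
  · refine (hcG.add hWG).congr ?_
    intro r hr
    exact (heq r (uIoc_subset_uIcc hr)).symm
  · rw [intervalIntegral.integral_congr heq, intervalIntegral.integral_add hcG hWG, ← h2, h1,
      intervalIntegral.integral_const_mul, hW0, hWt]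
    have : ∫ r in (0 : ℝ)..t, G r = W t := by rw [hW]
    rw [this]
    ring

/-- the derivative as a primitive -/
lemma VV_int (h : GalF β ν T N x f X) (hf : ∀ n, ContinuousOn (f n) (Icc 0 T)) {g : ℕ → ℝ → ℝ}
    (hg : ∀ n, IntervalIntegrable (g n) volume 0 T)
    (hfg : ∀ n, ∀ t ∈ Icc 0 T, f n t = f n 0 + ∫ s in (0 : ℝ)..t, g n s) {n : ℕ} (hn : n ≤ N)
    {t : ℝ} (ht : t ∈ Icc 0 T) :
    IntervalIntegrable (fun s => drhs β ν (fun k => X k s) (fun k => VV β ν N f X k s) n + g n s)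
      volume 0 t ∧
    VV β ν N f X n t = VV β ν N f X n 0 + ∫ s in (0 : ℝ)..t,
      (drhs β ν (fun k => X k s) (fun k => VV β ν N f X k s) n + g n s) := by
  have h0T : (0 : ℝ) ∈ Icc 0 T := ⟨le_rfl, ht.1.trans ht.2⟩
  have hc := h.cont
  have hV := VV_cont h hf
  have hdc : ContinuousOn (fun s => drhs β ν (fun k => X k s) (fun k => VV β ν N f X k s) n)
      (Icc 0 T) := by
    cases n with
    | zero =>
      simp only [drhs]
      exact ((((hV 0).mul (hc 1)).add ((hc 0).mul (hV 1))).neg).sub (continuousOn_const.mul (hV 0))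
    | succ n =>
      simp only [drhs]
      exact ((continuousOn_const.mul (continuousOn_const.mul ((hc n).mul (hV n)))).sub
        (continuousOn_const.mul (((hV (n + 1)).mul (hc (n + 2))).add
          ((hc (n + 1)).mul (hV (n + 2)))))).sub (continuousOn_const.mul (hV (n + 1)))
  have hgt : IntervalIntegrable (g n) volume 0 t := (hg n).mono_set (by
    rw [uIcc_of_le ht.1, uIcc_of_le (ht.1.trans ht.2)]
    exact Icc_subset_Icc_right ht.2)
  have hd : ∫ s in (0 : ℝ)..t, drhs β ν (fun k => X k s) (fun k => VV β ν N f X k s) n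
      = rhs β ν (fun k => X k t) n - rhs β ν (fun k => X k 0) n := by
    refine intervalIntegral.integral_eq_sub_of_hasDerivAt_of_le ht.1
      (f := fun s => rhs β ν (fun k => X k s) n) ?_ ?_ (ii_of hdc h0T ht)
    · exact (rhs_cont hc n).mono (Icc_subset_Icc_right ht.2)
    · intro s hs
      have hsI : s ∈ Icc 0 T := ⟨hs.1.le, hs.2.le.trans ht.2⟩
      exact (hasDeriv_rhs (fun k => VV_der h k hsI) n).hasDerivAt
        (Icc_mem_nhds hs.1 (hs.2.trans_le ht.2))
  refine ⟨(ii_of hdc h0T ht).add hgt, ?_⟩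
  rw [intervalIntegral.integral_add (ii_of hdc h0T ht) hgt, hd]
  simp only [VV, hn, ite_true]
  rw [hfg n t ht]
  ring

/-- **The estimate of the time derivative.** -/
theorem galF_time {K Γ E : ℝ} (hν : 0 < ν) (h : GalF β ν T N x f X)
    (hf : ∀ n, ContinuousOn (f n) (Icc 0 T)) {g : ℕ → ℝ → ℝ}
    (hg : ∀ n, IntervalIntegrable (g n) volume 0 T)
    (hg2 : ∀ n, IntervalIntegrable (fun s => g n s ^ 2) volume 0 T)
    (hfg : ∀ n, ∀ t ∈ Icc 0 T, f n t = f n 0 + ∫ s in (0 : ℝ)..t, g n s) (hK0 : 0 ≤ K)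
    (hK : ∀ t ∈ Icc 0 T, ∀ n : ℕ, (2 : ℝ) ^ (β * n) * |X n t| ≤ ν / 8 * 4 ^ n + K)
    (hK' : ∀ t ∈ Icc 0 T, ∀ n : ℕ, (2 : ℝ) ^ (β * n) * |X (n + 1) t| ≤ ν / 8 * 4 ^ n + K)
    (hΓ : ∀ M : ℕ, ∫ s in (0 : ℝ)..T, ∑ n ∈ Finset.range M, g n s ^ 2 / 4 ^ n ≤ Γ)
    (hE : ∑ n ∈ Finset.range (N + 1), VV β ν N f X n 0 ^ 2 ≤ E) {t : ℝ} (ht : t ∈ Icc 0 T) :
    ∑ n ∈ Finset.range (N + 1), VV β ν N f X n t ^ 2 ≤ (E + 2 / ν * Γ) * Real.exp (4 * K * t) ∧
    ν / 2 * (∫ s in (0 : ℝ)..t, ∑ n ∈ Finset.range (N + 1), 4 ^ n * VV β ν N f X n s ^ 2)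
      ≤ (E + 2 / ν * Γ) * (1 + 4 * K * (T * Real.exp (4 * K * T))) := by
  have hT : 0 ≤ T := ht.1.trans ht.2
  have h0T : (0 : ℝ) ∈ Icc 0 T := ⟨le_rfl, hT⟩
  have hTT : T ∈ Icc 0 T := ⟨hT, le_rfl⟩
  have hV := VV_cont h hf
  have hyc : ContinuousOn (fun t => ∑ n ∈ Finset.range (N + 1), VV β ν N f X n t ^ 2) (Icc 0 T) :=
    continuousOn_finsetSum _ fun n _ => (hV n).pow 2
  have hgi : ∀ M : ℕ, IntervalIntegrable (fun s => ∑ n ∈ Finset.range M, g n s ^ 2 / 4 ^ n)
      volume 0 T := fun M => by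
    refine ii_sum (F := fun n s => g n s ^ 2 / 4 ^ n) _ fun n _ => ?_
    exact (hg2 n).div_const _
  -- the integrated inequality
  have key : ∀ t ∈ Icc 0 T, ∑ n ∈ Finset.range (N + 1), VV β ν N f X n t ^ 2
      + ν / 2 * (∫ s in (0 : ℝ)..t, ∑ n ∈ Finset.range (N + 1), 4 ^ n * VV β ν N f X n s ^ 2)
      ≤ (E + 2 / ν * Γ)
        + 4 * K * ∫ s in (0 : ℝ)..t, ∑ n ∈ Finset.range (N + 1), VV β ν N f X n s ^ 2 := by
    intro t ht
    have hsub : uIcc 0 t ⊆ uIcc 0 T := by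
      rw [uIcc_of_le ht.1, uIcc_of_le hT]
      exact Icc_subset_Icc_right ht.2
    have hs : ∀ n ∈ Finset.range (N + 1), IntervalIntegrable (fun s => 2 * (VV β ν N f X n s
        * (drhs β ν (fun k => X k s) (fun k => VV β ν N f X k s) n + g n s))) volume 0 t ∧
        ∫ s in (0 : ℝ)..t, 2 * (VV β ν N f X n s
        * (drhs β ν (fun k => X k s) (fun k => VV β ν N f X k s) n + g n s))
        = VV β ν N f X n t ^ 2 - VV β ν N f X n 0 ^ 2 := by
      intro n hn
      have hnN : n ≤ N := Nat.lt_succ_iff.1 (Finset.mem_range.1 hn)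
      exact sq_of_int ht.1 (VV_int h hf hg hfg hnN ht).1 fun s hs =>
        (VV_int h hf hg hfg hnN ⟨hs.1, hs.2.trans ht.2⟩).2
    have h1 : ∫ s in (0 : ℝ)..t, ∑ n ∈ Finset.range (N + 1), 2 * (VV β ν N f X n s
        * (drhs β ν (fun k => X k s) (fun k => VV β ν N f X k s) n + g n s))
        = ∑ n ∈ Finset.range (N + 1), VV β ν N f X n t ^ 2
          - ∑ n ∈ Finset.range (N + 1), VV β ν N f X n 0 ^ 2 := by
      rw [intervalIntegral.integral_finsetSum fun n hn => (hs n hn).1, ← Finset.sum_sub_distrib]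
      exact Finset.sum_congr rfl fun n hn => (hs n hn).2
    have hi1 : IntervalIntegrable (fun s => ∑ n ∈ Finset.range (N + 1), 2 * (VV β ν N f X n s
        * (drhs β ν (fun k => X k s) (fun k => VV β ν N f X k s) n + g n s))) volume 0 t :=
      ii_sum _ fun n hn => (hs n hn).1
    have hi2 := ii_of hyc h0T ht
    have hi3 := ii_of (sum4_cont hV (N + 1)) h0T ht
    have hi4 := (hgi (N + 1)).mono_set hsub
    have h2 : ∫ s in (0 : ℝ)..t, ∑ n ∈ Finset.range (N + 1), 2 * (VV β ν N f X n s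
        * (drhs β ν (fun k => X k s) (fun k => VV β ν N f X k s) n + g n s))
        ≤ ∫ s in (0 : ℝ)..t, (4 * K * (∑ n ∈ Finset.range (N + 1), VV β ν N f X n s ^ 2)
          - ν / 2 * (∑ n ∈ Finset.range (N + 1), 4 ^ n * VV β ν N f X n s ^ 2)
          + 2 / ν * (∑ n ∈ Finset.range (N + 1), g n s ^ 2 / 4 ^ n)) := by
      refine intervalIntegral.integral_mono_on ht.1 hi1
        (((hi2.const_mul _).sub (hi3.const_mul _)).add (hi4.const_mul _)) fun s hs => ?_
      have hsI : s ∈ Icc 0 T := ⟨hs.1, hs.2.trans ht.2⟩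
      exact drhs_le hν hK0 (hK s hsI) (hK' s hsI) N (VV_zero (Nat.lt_succ_self N) s)
    rw [h1, intervalIntegral.integral_add ((hi2.const_mul _).sub (hi3.const_mul _))
      (hi4.const_mul _), intervalIntegral.integral_sub (hi2.const_mul _) (hi3.const_mul _),
      intervalIntegral.integral_const_mul (4 * K), intervalIntegral.integral_const_mul (ν / 2),
      intervalIntegral.integral_const_mul (2 / ν)] at h2
    have h3 : ∫ s in (0 : ℝ)..t, ∑ n ∈ Finset.range (N + 1), g n s ^ 2 / 4 ^ n ≤ Γ := by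
      refine le_trans ?_ (hΓ (N + 1))
      have h5 : 0 ≤ ∫ s in t..T, ∑ n ∈ Finset.range (N + 1), g n s ^ 2 / 4 ^ n :=
        intervalIntegral.integral_nonneg ht.2 fun s _ => Finset.sum_nonneg fun n _ => by positivity
      have h4 := intervalIntegral.integral_add_adjacent_intervals hi4
        ((hgi (N + 1)).mono_set (by
          rw [uIcc_of_le ht.2, uIcc_of_le hT]
          exact Icc_subset_Icc_left ht.1 : uIcc t T ⊆ uIcc 0 T))
      linarith
    have h4 := mul_le_mul_of_nonneg_left h3 (by positivity : 0 ≤ 2 / ν)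
    linarith
  have hdn : ∀ t ∈ Icc 0 T, 0 ≤ ν / 2 * (∫ s in (0 : ℝ)..t,
      ∑ n ∈ Finset.range (N + 1), 4 ^ n * VV β ν N f X n s ^ 2) := fun t ht =>
    mul_nonneg (by positivity) (intervalIntegral.integral_nonneg ht.1 fun s _ =>
      Finset.sum_nonneg fun n _ => by positivity)
  have hgr := Run7.h969.Dz.gron (K := 4 * K) (ε := E + 2 / ν * Γ) hyc (by positivity)
    (fun t ht => by
      have := key t ht
      have := hdn t ht
      linarith)
  refine ⟨hgr t ht, ?_⟩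
  have h0 : 0 ≤ E + 2 / ν * Γ := by
    have := hgr 0 h0T
    simp only [mul_zero, Real.exp_zero, mul_one] at this
    exact le_trans (Finset.sum_nonneg fun n _ => sq_nonneg _) this
  have h1 := key t ht
  have h2 : ∫ s in (0 : ℝ)..t, ∑ n ∈ Finset.range (N + 1), VV β ν N f X n s ^ 2
      ≤ ∫ s in (0 : ℝ)..t, (E + 2 / ν * Γ) * Real.exp (4 * K * T) := by
    refine intervalIntegral.integral_mono_on ht.1 (ii_of hyc h0T ht) intervalIntegrable_const
      fun s hs => ?_
    have hsI : s ∈ Icc 0 T := ⟨hs.1, hs.2.trans ht.2⟩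
    refine (hgr s hsI).trans ?_
    apply mul_le_mul_of_nonneg_left _ h0
    apply Real.exp_le_exp.2
    exact mul_le_mul_of_nonneg_left hsI.2 (by positivity)
  rw [intervalIntegral.integral_const, smul_eq_mul, sub_zero] at h2
  have h3 : t * ((E + 2 / ν * Γ) * Real.exp (4 * K * T))
      ≤ T * ((E + 2 / ν * Γ) * Real.exp (4 * K * T)) :=
    mul_le_mul_of_nonneg_right ht.2 (by positivity)
  have h4 := mul_le_mul_of_nonneg_left (h2.trans h3) (by positivity : 0 ≤ 4 * K)
  have h5 : 0 ≤ ∑ n ∈ Finset.range (N + 1), VV β ν N f X n t ^ 2 :=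
    Finset.sum_nonneg fun n _ => sq_nonneg _
  calc _ ≤ (E + 2 / ν * Γ) + 4 * K * (T * ((E + 2 / ν * Γ) * Real.exp (4 * K * T))) := by linarith
    _ = _ := by ring

end

end Pool.Agent.Run7.h32.Fo
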