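import Pool.Agent.Run7.h32.Fo.Crit
import Pool.Agent.Run7.h32.Fo.Cauchy
import Pool.Agent.Run7.h32.Fo.Time

/-!
The forced dyadic model: bounds which are uniform in the truncation, from the admissible data.
-/

set_option autoImplicit false

open Set Filter Topology MeasureTheory

namespace Pool.Agent.Run7.h32.Fo

open Run7.h969.Dy Pool.Agent.Run7.h32.Dy

/-- The admissible data: `x ∈ V ∩ H²`, `f(0) ∈ H`, and `∂ₜ f = g` in `L²(0, T; V')` for every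
`T`. -/
structure Adm (x : ℕ → ℝ) (f g : ℕ → ℝ → ℝ) : Prop where
  init : Summable fun n => (16 : ℝ) ^ n * x n ^ 2
  f0 : Summable fun n => f n 0 ^ 2
  gi : ∀ T n, 0 ≤ T → IntervalIntegrable (g n) volume 0 T
  gi2 : ∀ T n, 0 ≤ T → IntervalIntegrable (fun t => g n t ^ 2) volume 0 T
  fg : ∀ n t, 0 ≤ t → f n t = f n 0 + ∫ s in (0 : ℝ)..t, g n s
  gs : ∀ T, 0 ≤ T → Summable fun n => (∫ t in (0 : ℝ)..T, g n t ^ 2) / 4 ^ n

variable {x : ℕ → ℝ} {f g : ℕ → ℝ → ℝ} {β ν T : ℝ}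

lemma cs_int {G : ℝ → ℝ} {t : ℝ} (ht : 0 ≤ t) (h1 : IntervalIntegrable G volume 0 t)
    (h2 : IntervalIntegrable (fun s => G s ^ 2) volume 0 t) :
    (∫ s in (0 : ℝ)..t, G s) ^ 2 ≤ t * ∫ s in (0 : ℝ)..t, G s ^ 2 := by
  obtain ⟨I, hI⟩ : ∃ I, I = ∫ s in (0 : ℝ)..t, G s := ⟨_, rfl⟩
  obtain ⟨J, hJ⟩ : ∃ J, J = ∫ s in (0 : ℝ)..t, G s ^ 2 := ⟨_, rfl⟩
  rcases ht.eq_or_lt with h0 | h0
  · rw [← h0]
    simp
  have h3 : 0 ≤ ∫ s in (0 : ℝ)..t, (t ^ 2 * G s ^ 2 - 2 * t * I * G s + I ^ 2) := by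
    refine intervalIntegral.integral_nonneg ht fun s _ => ?_
    have : t ^ 2 * G s ^ 2 - 2 * t * I * G s + I ^ 2 = (t * G s - I) ^ 2 := by ring
    rw [this]
    exact sq_nonneg _
  rw [intervalIntegral.integral_add ((h2.const_mul _).sub (h1.const_mul _))
    intervalIntegrable_const, intervalIntegral.integral_sub (h2.const_mul _) (h1.const_mul _),
    intervalIntegral.integral_const_mul, intervalIntegral.integral_const_mul,
    intervalIntegral.integral_const, ← hI, ← hJ, smul_eq_mul, sub_zero] at h3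
  rw [← hI, ← hJ]
  have h4 : 0 ≤ t * (t * J - I ^ 2) := by linarith
  have h5 := nonneg_of_mul_nonneg_right h4 h0
  linarith

lemma Adm.fcont (h : Adm x f g) (hT : 0 ≤ T) (n : ℕ) : ContinuousOn (f n) (Icc 0 T) := by
  have h1 : IntegrableOn (g n) (uIcc 0 T) := by
    rw [← intervalIntegrable_iff']
    exact h.gi T n hT
  have h2 := intervalIntegral.continuousOn_primitive_interval h1
  rw [uIcc_of_le hT] at h2
  refine (continuousOn_const.add h2 : ContinuousOn (fun t => f n 0 + ∫ s in (0 : ℝ)..t, g n s)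
    (Icc 0 T)).congr fun t ht => h.fg n t ht.1

lemma sub_ii {G : ℝ → ℝ} (h : IntervalIntegrable G volume 0 T) {t : ℝ} (ht : t ∈ Icc 0 T) :
    IntervalIntegrable G volume 0 t := h.mono_set (by
  rw [uIcc_of_le ht.1, uIcc_of_le (ht.1.trans ht.2)]
  exact Icc_subset_Icc_right ht.2)

lemma Adm.fsq (h : Adm x f g) {t : ℝ} (ht : t ∈ Icc 0 T) (n : ℕ) :
    f n t ^ 2 ≤ 2 * f n 0 ^ 2 + 2 * T * ∫ s in (0 : ℝ)..T, g n s ^ 2 := by
  have hT : 0 ≤ T := ht.1.trans ht.2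
  have h1 := cs_int ht.1 (h.gi t n ht.1) (h.gi2 t n ht.1)
  have h2 : ∫ s in (0 : ℝ)..t, g n s ^ 2 ≤ ∫ s in (0 : ℝ)..T, g n s ^ 2 := by
    refine intervalIntegral.integral_mono_interval le_rfl ht.1 ht.2
      (Eventually.of_forall fun s => sq_nonneg _) (h.gi2 T n hT)
  have h3 : 0 ≤ ∫ s in (0 : ℝ)..t, g n s ^ 2 :=
    intervalIntegral.integral_nonneg ht.1 fun s _ => sq_nonneg _
  have h4 : t * ∫ s in (0 : ℝ)..t, g n s ^ 2 ≤ T * ∫ s in (0 : ℝ)..T, g n s ^ 2 :=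
    mul_le_mul ht.2 h2 h3 hT
  rw [h.fg n t ht.1]
  have h5 := two_mul_le_add_sq (f n 0) (∫ s in (0 : ℝ)..t, g n s)
  nlinarith

/-- The bounds of the data. -/
lemma Adm.bounds (h : Adm x f g) (hT : 0 ≤ T) : ∃ R : ℝ, 0 ≤ R ∧ (∀ n, |x n| ≤ R / 4 ^ n) ∧
    (∀ M : ℕ, ∑ n ∈ Finset.range M, (16 : ℝ) ^ n * x n ^ 2 ≤ R) ∧
    (∀ M : ℕ, ∑ n ∈ Finset.range M, x n ^ 2 ≤ R) ∧
    (∀ M : ℕ, ∑ n ∈ Finset.range M, f n 0 ^ 2 ≤ R) ∧
    (∀ t ∈ Icc 0 T, ∀ n, |f n t| ≤ R * 2 ^ n) ∧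
    (∀ M : ℕ, ∫ s in (0 : ℝ)..T, ∑ n ∈ Finset.range M, f n s ^ 2 / 4 ^ n ≤ R) ∧
    (∀ M : ℕ, ∫ s in (0 : ℝ)..T, ∑ n ∈ Finset.range M, g n s ^ 2 / 4 ^ n ≤ R) := by
  obtain ⟨a, ha⟩ : ∃ a, a = ∑' n, (16 : ℝ) ^ n * x n ^ 2 := ⟨_, rfl⟩
  obtain ⟨b, hb⟩ : ∃ b, b = ∑' n, f n 0 ^ 2 := ⟨_, rfl⟩
  obtain ⟨c, hc⟩ : ∃ c, c = ∑' n, (∫ t in (0 : ℝ)..T, g n t ^ 2) / 4 ^ n := ⟨_, rfl⟩
  have ha0 : 0 ≤ a := by rw [ha]; exact tsum_nonneg fun n => by positivity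
  have hb0 : 0 ≤ b := by rw [hb]; exact tsum_nonneg fun n => by positivity
  have hgn : ∀ n, 0 ≤ ∫ t in (0 : ℝ)..T, g n t ^ 2 := fun n =>
    intervalIntegral.integral_nonneg hT fun s _ => sq_nonneg _
  have hc0 : 0 ≤ c := by
    rw [hc]
    exact tsum_nonneg fun n => div_nonneg (hgn n) (by positivity)
  have haM : ∀ M : ℕ, ∑ n ∈ Finset.range M, (16 : ℝ) ^ n * x n ^ 2 ≤ a := fun M => by
    rw [ha]
    exact h.init.sum_le_tsum _ fun n _ => by positivity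
  have hbM : ∀ M : ℕ, ∑ n ∈ Finset.range M, f n 0 ^ 2 ≤ b := fun M => by
    rw [hb]
    exact h.f0.sum_le_tsum _ fun n _ => by positivity
  have hcM : ∀ M : ℕ, ∑ n ∈ Finset.range M, (∫ t in (0 : ℝ)..T, g n t ^ 2) / 4 ^ n ≤ c :=
    fun M => by
      rw [hc]
      exact (h.gs T hT).sum_le_tsum _ fun n _ => div_nonneg (hgn n) (by positivity)
  have han : ∀ n, (16 : ℝ) ^ n * x n ^ 2 ≤ a := fun n =>
    (Finset.single_le_sum (f := fun n => (16 : ℝ) ^ n * x n ^ 2) (fun n _ => by positivity)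
      (Finset.self_mem_range_succ n)).trans (haM (n + 1))
  have hbn : ∀ n, f n 0 ^ 2 ≤ b := fun n =>
    (Finset.single_le_sum (f := fun n => f n 0 ^ 2) (fun n _ => by positivity)
      (Finset.self_mem_range_succ n)).trans (hbM (n + 1))
  have hcn : ∀ n, (∫ t in (0 : ℝ)..T, g n t ^ 2) / 4 ^ n ≤ c := fun n =>
    (Finset.single_le_sum (f := fun n => (∫ t in (0 : ℝ)..T, g n t ^ 2) / 4 ^ n)
      (fun n _ => div_nonneg (hgn n) (by positivity))
      (Finset.self_mem_range_succ n)).trans (hcM (n + 1))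
  have hp1 : ∀ n : ℕ, (1 : ℝ) ≤ 4 ^ n := fun n => one_le_pow₀ (by norm_num)
  obtain ⟨R, hR⟩ : ∃ R, R = (1 + a) + b + (1 + (2 * b + 2 * T * c)) + T * (2 * b + 2 * T * c) + c :=
    ⟨_, rfl⟩
  have hTc : 0 ≤ 2 * b + 2 * T * c := by positivity
  have hTc2 : 0 ≤ T * (2 * b + 2 * T * c) := by positivity
  have hR0 : 0 ≤ R := by rw [hR]; positivity
  have hfsq : ∀ t ∈ Icc 0 T, ∀ n, f n t ^ 2 / 4 ^ n ≤ 2 * (f n 0 ^ 2)
      + 2 * T * ((∫ s in (0 : ℝ)..T, g n s ^ 2) / 4 ^ n) := by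
    intro t ht n
    rw [div_le_iff₀ (by positivity)]
    have h1 := h.fsq ht n
    have h2 : (2 * (f n 0 ^ 2) + 2 * T * ((∫ s in (0 : ℝ)..T, g n s ^ 2) / 4 ^ n)) * 4 ^ n
        = 2 * f n 0 ^ 2 * 4 ^ n + 2 * T * ∫ s in (0 : ℝ)..T, g n s ^ 2 := by
      field_simp
    rw [h2]
    have h3 : 2 * f n 0 ^ 2 * 1 ≤ 2 * f n 0 ^ 2 * 4 ^ n :=
      mul_le_mul_of_nonneg_left (hp1 n) (by positivity)
    linarith
  have hfin : ∀ M : ℕ, IntervalIntegrable (fun s => ∑ n ∈ Finset.range M, f n s ^ 2 / 4 ^ n)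
      volume 0 T := fun M => by
    refine ii_sum (F := fun n s => f n s ^ 2 / 4 ^ n) _ fun n _ => ?_
    refine ContinuousOn.intervalIntegrable ?_
    rw [uIcc_of_le hT]
    exact ((h.fcont hT n).pow 2).div_const _
  refine ⟨R, hR0, fun n => ?_, fun M => (haM M).trans (by rw [hR]; linarith), fun M => ?_,
    fun M => (hbM M).trans (by rw [hR]; linarith), fun t ht n => ?_, fun M => ?_, fun M => ?_⟩
  · -- `|x n| ≤ R / 4 ^ n`
    rw [le_div_iff₀ (by positivity)]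
    have h1 : (|x n| * 4 ^ n) ^ 2 ≤ (1 + a) ^ 2 := by
      rw [mul_pow, sq_abs, ← pow_mul, mul_comm n 2, pow_mul]
      norm_num
      have := han n
      nlinarith
    have h2 := abs_le_of_sq_le_sq h1 (by linarith)
    rw [abs_of_nonneg (by positivity)] at h2
    rw [hR]
    linarith
  · refine le_trans ?_ ((haM M).trans (by rw [hR]; linarith))
    refine Finset.sum_le_sum fun n _ => ?_
    have h1 : (1 : ℝ) ≤ 16 ^ n := one_le_pow₀ (by norm_num)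
    nlinarith [sq_nonneg (x n)]
  · have h1 : |f n t| ^ 2 ≤ ((1 + (2 * b + 2 * T * c)) * 2 ^ n) ^ 2 := by
      rw [sq_abs, mul_pow, ← pow_mul, mul_comm n 2, pow_mul]
      norm_num
      have h2 := hfsq t ht n
      rw [div_le_iff₀ (by positivity)] at h2
      refine h2.trans (mul_le_mul_of_nonneg_right ?_ (by positivity))
      have h3 := hbn n
      have h4 := mul_le_mul_of_nonneg_left (hcn n) (by positivity : 0 ≤ 2 * T)
      nlinarith
    have h2 := abs_le_of_sq_le_sq h1 (by positivity)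
    rw [abs_abs] at h2
    refine h2.trans (mul_le_mul_of_nonneg_right ?_ (by positivity))
    rw [hR]
    linarith
  · have h1 : ∫ s in (0 : ℝ)..T, ∑ n ∈ Finset.range M, f n s ^ 2 / 4 ^ n
        ≤ ∫ _s in (0 : ℝ)..T, (2 * b + 2 * T * c) := by
      refine intervalIntegral.integral_mono_on hT (hfin M) intervalIntegrable_const fun s hs => ?_
      refine (Finset.sum_le_sum fun n _ => hfsq s hs n).trans ?_
      rw [Finset.sum_add_distrib, ← Finset.mul_sum, ← Finset.mul_sum]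
      exact add_le_add (mul_le_mul_of_nonneg_left (hbM M) (by norm_num))
        (mul_le_mul_of_nonneg_left (hcM M) (by positivity))
    rw [intervalIntegral.integral_const, smul_eq_mul, sub_zero] at h1
    refine h1.trans ?_
    rw [hR]
    linarith
  · rw [intervalIntegral.integral_finsetSum fun n _ => (h.gi2 T n hT).div_const _]
    refine le_trans (le_of_eq ?_) ((hcM M).trans (by rw [hR]; linarith))
    exact Finset.sum_congr rfl fun n _ => intervalIntegral.integral_div _ _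

/-- The size of the derivative at the time `0`. -/
lemma rhs0_le {R : ℝ} (hR : 0 ≤ R) (hβ : β < 3) {y : ℕ → ℝ}
    (hy : ∀ n, |y n| ≤ R / 4 ^ n) (n : ℕ) :
    |rhs β ν y n + ν * 4 ^ n * y n| ≤ 3 * R ^ 2 * (1 / 2) ^ n := by
  obtain ⟨B, hB⟩ : ∃ B : ℝ, B = 2 ^ β := ⟨_, rfl⟩
  have hB0 : 0 < B := by rw [hB]; exact Real.rpow_pos_of_pos two_pos _
  have hB8 : B ≤ 8 := by
    rw [hB]
    calc (2 : ℝ) ^ β ≤ 2 ^ (3 : ℝ) := Real.rpow_le_rpow_of_exponent_le (by norm_num) hβ.le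
      _ = 8 := by norm_num
  have hprod : ∀ a b : ℕ, |y a * y b| ≤ R ^ 2 / (4 ^ a * 4 ^ b) := by
    intro a b
    rw [abs_mul]
    calc |y a| * |y b| ≤ R / 4 ^ a * (R / 4 ^ b) := by
          apply mul_le_mul (hy a) (hy b) (abs_nonneg _) (by positivity)
      _ = _ := by field_simp
  have hBn : ∀ m : ℕ, B ^ m ≤ 8 ^ m := fun m => pow_le_pow_left₀ hB0.le hB8 m
  have hR2 : 0 ≤ R ^ 2 := sq_nonneg R
  have hcc : ∀ m : ℕ, B ^ m * (R ^ 2 / (4 ^ m * 4 ^ m)) ≤ R ^ 2 * (1 / 2) ^ m := by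
    intro m
    have e : (8 : ℝ) ^ m * (R ^ 2 / (4 ^ m * 4 ^ m)) = R ^ 2 * (1 / 2) ^ m := by
      rw [show (8 : ℝ) = 2 * (2 * 2) by norm_num, show (4 : ℝ) = 2 * 2 by norm_num, mul_pow,
        mul_pow, div_pow, one_pow]
      field_simp
    rw [← e]
    exact mul_le_mul_of_nonneg_right (hBn m) (by positivity)
  have hcc1 : ∀ m : ℕ, B ^ m * (R ^ 2 / (4 ^ m * 4 ^ (m + 1))) ≤ R ^ 2 * (1 / 2) ^ m := by
    intro m
    refine le_trans (mul_le_mul_of_nonneg_left ?_ (by positivity)) (hcc m)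
    apply div_le_div_of_nonneg_left hR2 (by positivity)
    apply mul_le_mul_of_nonneg_left _ (by positivity)
    exact pow_le_pow_right₀ (by norm_num) (Nat.le_succ m)
  cases n with
  | zero =>
    simp only [rhs, pow_zero, mul_one]
    have e : -(y 0 * y 1) - ν * y 0 + ν * y 0 = -(y 0 * y 1) := by ring
    rw [e, abs_neg]
    refine (hprod 0 1).trans ?_
    norm_num
    linarith
  | succ n =>
    simp only [rhs]
    have h1 : |(2 : ℝ) ^ (β * n) * y n ^ 2| ≤ R ^ 2 * (1 / 2) ^ n := by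
      rw [pow_mul_nat, ← hB, abs_mul, abs_of_pos (by positivity : 0 < B ^ n), pow_two]
      exact (mul_le_mul_of_nonneg_left (hprod n n) (by positivity)).trans (hcc n)
    have h2 : |(2 : ℝ) ^ (β * (n + 1)) * (y (n + 1) * y (n + 2))| ≤ R ^ 2 * (1 / 2) ^ (n + 1) := by
      have e : ((n : ℝ) + 1) = ((n + 1 : ℕ) : ℝ) := by push_cast; ring
      rw [e, pow_mul_nat, ← hB, abs_mul, abs_of_pos (by positivity : 0 < B ^ (n + 1))]
      exact (mul_le_mul_of_nonneg_left (hprod (n + 1) (n + 2)) (by positivity)).trans (hcc1 (n + 1))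
    have e : (2 : ℝ) ^ (β * n) * y n ^ 2 - (2 : ℝ) ^ (β * (n + 1)) * (y (n + 1) * y (n + 2))
        - ν * 4 ^ (n + 1) * y (n + 1) + ν * 4 ^ (n + 1) * y (n + 1)
        = (2 : ℝ) ^ (β * n) * y n ^ 2 - (2 : ℝ) ^ (β * (n + 1)) * (y (n + 1) * y (n + 2)) := by ring
    rw [e]
    refine (abs_sub _ _).trans ?_
    refine (add_le_add h1 h2).trans (le_of_eq ?_)
    rw [pow_succ]
    ring

end Pool.Agent.Run7.h32.Fo
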