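import Pool.Agent.Run7.h32.Fo.Lim

/-!
The forced dyadic model: the strong solution.
-/

set_option autoImplicit false

open Set Filter Topology MeasureTheory

namespace Pool.Agent.Run7.h32.Fo

open Run7.h969.Dy Pool.Agent.Run7.h32.Dy

variable {x : ℕ → ℝ} {f g : ℕ → ℝ → ℝ} {β ν T : ℝ}

/-- A solution of the forced dyadic model on `[0, ∞)`. -/
structure SolF (β ν : ℝ) (x : ℕ → ℝ) (f X : ℕ → ℝ → ℝ) : Prop where
  init : ∀ n, X n 0 = x n
  ode : ∀ n t, 0 ≤ t →
    HasDerivWithinAt (X n) (rhs β ν (fun k => X k t) n + f n t) (Ici 0) t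

lemma cauchy_of_bound {u b : ℕ → ℝ} {N₀ : ℕ} (h : ∀ N M, N₀ ≤ N → N ≤ M → |u N - u M| ≤ b N)
    (hb : Tendsto b atTop (𝓝 0)) : CauchySeq u := by
  rw [Metric.cauchySeq_iff']
  intro ε hε
  obtain ⟨N, hN⟩ := ((hb.eventually (gt_mem_nhds hε)).and (eventually_ge_atTop N₀)).exists
  refine ⟨N, fun n hn => ?_⟩
  rw [Real.dist_eq, abs_sub_comm]
  exact (h N n hN.2 hn).trans_lt hN.1

lemma int_tendsto {C : ℝ} (hT : 0 ≤ T) {F : ℕ → ℝ → ℝ} {G : ℝ → ℝ}
    (hc : ∀ᶠ N in atTop, ContinuousOn (F N) (Icc 0 T))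
    (hb : ∀ᶠ N in atTop, ∀ t ∈ Icc 0 T, |F N t| ≤ C)
    (hl : ∀ t ∈ Icc 0 T, Tendsto (fun N => F N t) atTop (𝓝 (G t))) :
    Tendsto (fun N => ∫ t in (0 : ℝ)..T, F N t) atTop (𝓝 (∫ t in (0 : ℝ)..T, G t)) := by
  refine intervalIntegral.tendsto_integral_filter_of_dominated_convergence (fun _ => C) ?_ ?_ ?_ ?_
  · filter_upwards [hc] with N hN
    rw [uIoc_of_le hT]
    exact (hN.mono Ioc_subset_Icc_self).aestronglyMeasurable measurableSet_Ioc
  · filter_upwards [hb] with N hN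
    refine Eventually.of_forall fun t ht => ?_
    rw [uIoc_of_le hT] at ht
    rw [Real.norm_eq_abs]
    exact hN t (Ioc_subset_Icc_self ht)
  · exact intervalIntegrable_const
  · refine Eventually.of_forall fun t ht => ?_
    rw [uIoc_of_le hT] at ht
    exact hl t (Ioc_subset_Icc_self ht)

lemma rhs_tendsto {Y : ℕ → ℕ → ℝ → ℝ} {X : ℕ → ℝ → ℝ} {t : ℝ}
    (h : ∀ k, Tendsto (fun N => Y N k t) atTop (𝓝 (X k t))) (n : ℕ) :
    Tendsto (fun N => rhs β ν (fun k => Y N k t) n) atTop (𝓝 (rhs β ν (fun k => X k t) n)) := by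
  cases n with
  | zero =>
    simp only [rhs]
    exact (((h 0).mul (h 1)).neg).sub ((h 0).const_mul ν)
  | succ n =>
    simp only [rhs]
    exact ((((h n).pow 2).const_mul _).sub (((h (n + 1)).mul (h (n + 2))).const_mul _)).sub
      ((h (n + 1)).const_mul _)

/-- **The strong solution.** -/
theorem exists_strong (hβ : β < 3) (hν : 0 < ν) (had : Adm x f g) :
    ∃ s : ℝ, 0 < s ∧ β - 2 < s ∧ ∃ X : ℕ → ℝ → ℝ, SolF β ν x f X ∧ ∀ T : ℝ, 0 < T → ∃ D : ℝ,
      0 ≤ D ∧
      (∀ t ∈ Icc 0 T, ∀ n : ℕ, |X n t| ≤ D / (2 ^ s) ^ n) ∧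
      (∀ t ∈ Icc 0 T, ∀ M : ℕ, ∑ n ∈ Finset.range M, X n t ^ 2 ≤ D) ∧
      (∀ M : ℕ, ∫ s in (0 : ℝ)..T, ∑ n ∈ Finset.range M, 4 ^ n * X n s ^ 2 ≤ D) ∧
      (∀ t ∈ Icc 0 T, ∀ M : ℕ,
        ∑ n ∈ Finset.range M, (rhs β ν (fun k => X k t) n + f n t) ^ 2 ≤ D) ∧
      (∀ M : ℕ, ∫ s in (0 : ℝ)..T, ∑ n ∈ Finset.range M,
        4 ^ n * (rhs β ν (fun k => X k s) n + f n s) ^ 2 ≤ D) := by
  obtain ⟨s, hs0, hs, hun⟩ := unif hβ hν had
  refine ⟨s, hs0, hs, ?_⟩
  obtain ⟨q, hq⟩ : ∃ q : ℝ, q = 2 ^ s := ⟨_, rfl⟩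
  have hq0 : 0 < q := by rw [hq]; exact Real.rpow_pos_of_pos two_pos _
  have hq1 : 1 < q := by rw [hq]; exact Real.one_lt_rpow (by norm_num) hs0
  rw [← hq] at hun ⊢
  -- the truncated solutions
  have hex : ∀ N : ℕ, ∃ Y : ℕ → ℝ → ℝ, GalF β ν ((N : ℝ) + 1) N x f Y := fun N =>
    exist_galF β N x hν (by positivity) fun n => had.fcont (by positivity) n
  choose Y hY using hex
  have hYT : ∀ {T : ℝ} {N : ℕ}, T ≤ (N : ℝ) + 1 → GalF β ν T N x f (Y N) := fun h => (hY _).mono h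
  -- the differences
  have hdiff : ∀ T : ℝ, 0 < T → ∀ n : ℕ, ∃ b : ℕ → ℝ, ∃ N₀ : ℕ, Tendsto b atTop (𝓝 0) ∧
      ∀ N M, N₀ ≤ N → N ≤ M → ∀ t ∈ Icc 0 T, |Y N n t - Y M n t| ≤ b N := by
    intro T hT n
    obtain ⟨A, K, D, hA0, hK0, hD0, hK, hB⟩ := hun T hT
    obtain ⟨k₀, hk₀⟩ := exists_nat_ge T
    obtain ⟨W, hW⟩ : ∃ W : ℝ, W = 4 ^ n * (4 * A ^ 2 * (ν + K) * T * Real.exp (11 * K * T)) :=
      ⟨_, rfl⟩
    have hW0 : 0 ≤ W := by rw [hW]; positivity
    refine ⟨fun N => √W * (1 / q) ^ N, max n k₀, ?_, fun N M hN hNM t ht => ?_⟩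
    · have h1 : Tendsto (fun N : ℕ => (1 / q) ^ N) atTop (𝓝 0) :=
        tendsto_pow_atTop_nhds_zero_of_lt_one (by positivity) (by rw [div_lt_one hq0]; exact hq1)
      simpa using h1.const_mul (√W)
    · have hnN : n ≤ N := (le_max_left _ _).trans hN
      have hkN : k₀ ≤ N := (le_max_right _ _).trans hN
      have hTN : T ≤ (N : ℝ) + 1 := by
        have : (k₀ : ℝ) ≤ N := by exact_mod_cast hkN
        linarith
      have hTM : T ≤ (M : ℝ) + 1 := by
        have : (N : ℝ) ≤ M := by exact_mod_cast hNM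
        linarith
      have h1 := cauchy_gal (β := β) hν hT.le hq1.le hA0 hK0 (fun m => by
          have h2 := hK m
          have h3 : (0 : ℝ) < ν * 4 ^ m := by positivity
          linarith) hNM (hYT hTN) (hYT hTM) (hB N _ (hYT hTN)).1 (hB M _ (hYT hTM)).1 ht
      have h2 : (1 / 4 : ℝ) ^ n * (Y N n t - Y M n t) ^ 2
          ≤ ∑ n ∈ Finset.range (N + 1), (1 / 4 : ℝ) ^ n * (Y N n t - Y M n t) ^ 2 :=
        Finset.single_le_sum (f := fun n => (1 / 4 : ℝ) ^ n * (Y N n t - Y M n t) ^ 2)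
          (fun n _ => by positivity) (Finset.mem_range.2 (by omega))
      have h3 : 4 * A ^ 2 * (ν + K) * T / (q ^ N) ^ 2 * Real.exp (11 * K * t)
          ≤ 4 * A ^ 2 * (ν + K) * T / (q ^ N) ^ 2 * Real.exp (11 * K * T) :=
        mul_le_mul_of_nonneg_left (Real.exp_le_exp.2 (mul_le_mul_of_nonneg_left ht.2
          (by positivity))) (by positivity)
      have h4 := mul_le_mul_of_nonneg_left (h2.trans (h1.trans h3)) (by positivity : (0 : ℝ) ≤ 4 ^ n)
      have h5 : (4 : ℝ) ^ n * ((1 / 4) ^ n * (Y N n t - Y M n t) ^ 2) = (Y N n t - Y M n t) ^ 2 := by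
        rw [← mul_assoc, ← mul_pow]
        norm_num
      have h6 : (4 : ℝ) ^ n * (4 * A ^ 2 * (ν + K) * T / (q ^ N) ^ 2 * Real.exp (11 * K * T))
          = (√W * (1 / q) ^ N) ^ 2 := by
        rw [mul_pow, Real.sq_sqrt hW0, hW, div_pow, one_pow, div_pow, one_pow]
        field_simp
      rw [h5, h6] at h4
      have h7 := abs_le_of_sq_le_sq h4 (by positivity)
      exact h7
  have hlim : ∀ (n : ℕ) (t : ℝ), 0 ≤ t → ∃ L, Tendsto (fun N => Y N n t) atTop (𝓝 L) := by
    intro n t ht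
    obtain ⟨b, N₀, hb, hbd⟩ := hdiff (t + 1) (by linarith) n
    exact cauchySeq_tendsto_of_complete (cauchy_of_bound (N₀ := N₀)
      (fun N M hN hNM => hbd N M hN hNM t ⟨ht, by linarith⟩) hb)
  choose! X hX using hlim
  have hunif : ∀ T : ℝ, 0 < T → ∀ n, TendstoUniformlyOn (fun N t => Y N n t) (X n) atTop
      (Icc 0 T) := by
    intro T hT n
    obtain ⟨b, N₀, hb, hbd⟩ := hdiff T hT n
    rw [Metric.tendstoUniformlyOn_iff]
    intro ε hε
    filter_upwards [hb.eventually (gt_mem_nhds hε), eventually_ge_atTop N₀] with N hN hN0 t ht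
    rw [Real.dist_eq, abs_sub_comm]
    refine lt_of_le_of_lt ?_ hN
    have h1 : Tendsto (fun M => |Y N n t - Y M n t|) atTop (𝓝 |Y N n t - X n t|) :=
      (tendsto_const_nhds.sub (hX n t ht.1)).abs
    refine le_of_tendsto h1 ?_
    filter_upwards [eventually_ge_atTop N] with M hM
    exact hbd N M hN0 hM t ht
  have hev : ∀ T : ℝ, ∀ᶠ N : ℕ in atTop, T ≤ (N : ℝ) + 1 := by
    intro T
    obtain ⟨k₀, hk₀⟩ := exists_nat_ge T
    filter_upwards [eventually_ge_atTop k₀] with N hN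
    have : (k₀ : ℝ) ≤ N := by exact_mod_cast hN
    linarith
  have hcT : ∀ T : ℝ, 0 < T → ∀ n, ContinuousOn (X n) (Icc 0 T) := by
    intro T hT n
    refine (hunif T hT n).continuousOn (Eventually.frequently ?_)
    filter_upwards [hev T] with N hN
    exact (hYT hN).cont n
  have hxn : ∀ n, X n 0 = x n := by
    intro n
    refine tendsto_nhds_unique (hX n 0 le_rfl) ?_
    refine tendsto_const_nhds.congr' ?_
    filter_upwards [eventually_ge_atTop n] with N hN
    exact ((hY N).init n hN).symm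
  -- the derivative
  have hVV : ∀ n t, 0 ≤ t → Tendsto (fun N => VV β ν N f (Y N) n t) atTop
      (𝓝 (rhs β ν (fun k => X k t) n + f n t)) := by
    intro n t ht
    have h1 : Tendsto (fun N => rhs β ν (fun k => Y N k t) n + f n t) atTop
        (𝓝 (rhs β ν (fun k => X k t) n + f n t)) :=
      (rhs_tendsto (fun k => hX k t ht) n).add tendsto_const_nhds
    refine h1.congr' ?_
    filter_upwards [eventually_ge_atTop n] with N hN
    simp only [VV, hN, ite_true]
  have hVc : ∀ T, 0 < T → ∀ n, ContinuousOn (fun t => rhs β ν (fun k => X k t) n + f n t)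
      (Icc 0 T) := fun T hT n => (rhs_cont (hcT T hT) n).add (had.fcont hT.le n)
  have hVb : ∀ T : ℝ, 0 < T → ∃ D : ℝ, 0 ≤ D ∧ ∀ᶠ N in atTop, ∀ t ∈ Icc 0 T, ∀ n,
      |VV β ν N f (Y N) n t| ≤ D := by
    intro T hT
    obtain ⟨A, K, D, hA0, hK0, hD0, hK, hB⟩ := hun T hT
    refine ⟨√D, Real.sqrt_nonneg _, ?_⟩
    filter_upwards [hev T] with N hN t ht n
    apply Real.abs_le_sqrt
    by_cases hn : n ≤ N
    · exact (Finset.single_le_sum (f := fun n => VV β ν N f (Y N) n t ^ 2) (fun n _ => sq_nonneg _)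
        (Finset.mem_range.2 (by omega))).trans ((hB N _ (hYT hN)).2.2.2.1 t ht)
    · rw [VV_zero (by omega)]
      norm_num
      exact hD0
  have hinteq : ∀ n t, 0 ≤ t → X n t = x n + ∫ r in (0 : ℝ)..t,
      (rhs β ν (fun k => X k r) n + f n r) := by
    intro n t ht
    obtain ⟨T, hT⟩ : ∃ T, T = t + 1 := ⟨_, rfl⟩
    have hT0 : 0 < T := by linarith
    have htT : t ∈ Icc 0 T := ⟨ht, by linarith⟩
    obtain ⟨D, hD0, hD⟩ := hVb T hT0
    have h1 : Tendsto (fun N => x n + ∫ r in (0 : ℝ)..t, VV β ν N f (Y N) n r) atTop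
        (𝓝 (x n + ∫ r in (0 : ℝ)..t, (rhs β ν (fun k => X k r) n + f n r))) := by
      refine tendsto_const_nhds.add (int_tendsto (C := D) ht ?_ ?_ ?_)
      · filter_upwards [hev T] with N hN
        exact (VV_cont (hYT hN) (fun n => had.fcont hT0.le n) n).mono (Icc_subset_Icc_right htT.2)
      · filter_upwards [hD] with N hN r hr
        exact hN r ⟨hr.1, hr.2.trans htT.2⟩ n
      · exact fun r hr => hVV n r hr.1
    refine tendsto_nhds_unique (hX n t ht) (h1.congr' ?_)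
    filter_upwards [hev T, eventually_ge_atTop n] with N hN hnN
    have h2 : ∫ r in (0 : ℝ)..t, VV β ν N f (Y N) n r = Y N n t - Y N n 0 := by
      refine intervalIntegral.integral_eq_sub_of_hasDerivAt_of_le ht
        (((hYT hN).cont n).mono (Icc_subset_Icc_right htT.2)) ?_
        (ii_of (VV_cont (hYT hN) (fun n => had.fcont hT0.le n) n) ⟨le_rfl, hT0.le⟩ htT)
      intro r hr
      exact (VV_der (hYT hN) n ⟨hr.1.le, hr.2.le.trans htT.2⟩).hasDerivAt
        (Icc_mem_nhds hr.1 (hr.2.trans_le htT.2))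
    rw [h2, (hY N).init n hnN]
    ring
  refine ⟨X, ⟨hxn, fun n t ht => ?_⟩, fun T hT => ?_⟩
  · -- the equation
    obtain ⟨G, hG⟩ : ∃ G : ℝ → ℝ, G = fun r => rhs β ν (fun k => X k (max r 0)) n + f n (max r 0) :=
      ⟨_, rfl⟩
    have hci : ContinuousOn (fun t => rhs β ν (fun k => X k t) n + f n t) (Ici 0) := by
      intro r hr
      have h1 := hVc (r + 1) (by linarith [mem_Ici.1 hr]) n r ⟨hr, by linarith⟩
      refine h1.mono_of_mem_nhdsWithin ?_
      rw [mem_nhdsWithin]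
      exact ⟨Iio (r + 1), isOpen_Iio, by simp, fun y hy => ⟨hy.2, (mem_Iio.1 hy.1).le⟩⟩
    have hGc : Continuous G := by
      rw [hG]
      exact hci.comp_continuous (continuous_id.max continuous_const) fun r => mem_Ici.2 (le_max_right _ _)
    have h1 : HasDerivAt (fun t => x n + ∫ r in (0 : ℝ)..t, G r) (G t) t :=
      (hGc.integral_hasStrictDerivAt 0 t).hasDerivAt.const_add _
    have h2 : G t = rhs β ν (fun k => X k t) n + f n t := by
      rw [hG]
      simp only [max_eq_left ht]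
    rw [← h2]
    refine h1.hasDerivWithinAt.congr_of_mem (fun r hr => ?_) ht
    rw [hinteq n r hr]
    congr 1
    refine intervalIntegral.integral_congr fun y hy => ?_
    rw [uIcc_of_le (mem_Ici.1 hr)] at hy
    rw [hG]
    simp only [max_eq_left hy.1]
  · -- the bounds
    obtain ⟨A, K, D, hA0, hK0, hD0, hK, hB⟩ := hun T hT
    obtain ⟨D', hD'0, hD'⟩ := hVb T hT
    refine ⟨A + D, by positivity, fun t ht n => ?_, fun t ht M => ?_, fun M => ?_,
      fun t ht M => ?_, fun M => ?_⟩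
    · have h1 : |X n t| ≤ A / q ^ n := by
        refine le_of_tendsto (hX n t ht.1).abs ?_
        filter_upwards [hev T] with N hN
        exact (hB N _ (hYT hN)).1 t ht n
      exact h1.trans (div_le_div_of_nonneg_right (by linarith) (by positivity))
    · have h1 : Tendsto (fun N => ∑ n ∈ Finset.range M, Y N n t ^ 2) atTop
          (𝓝 (∑ n ∈ Finset.range M, X n t ^ 2)) :=
        tendsto_finsetSum _ fun n _ => (hX n t ht.1).pow 2
      refine (le_of_tendsto h1 ?_).trans (by linarith : D ≤ A + D)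
      filter_upwards [hev T, eventually_ge_atTop M] with N hN hM
      refine le_trans ?_ ((hB N _ (hYT hN)).2.1 t ht)
      exact Finset.sum_le_sum_of_subset_of_nonneg (Finset.range_subset_range.2 (by omega))
        fun n _ _ => sq_nonneg _
    · have h1 : Tendsto (fun N => ∫ r in (0 : ℝ)..T, ∑ n ∈ Finset.range M, (4 : ℝ) ^ n * Y N n r ^ 2)
          atTop (𝓝 (∫ r in (0 : ℝ)..T, ∑ n ∈ Finset.range M, (4 : ℝ) ^ n * X n r ^ 2)) := by
        refine int_tendsto (C := ∑ n ∈ Finset.range M, (4 : ℝ) ^ n * A ^ 2) hT.le ?_ ?_ ?_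
        · filter_upwards [hev T] with N hN
          exact sum4_cont (hYT hN).cont M
        · filter_upwards [hev T] with N hN t ht
          rw [abs_of_nonneg (Finset.sum_nonneg fun n _ => by positivity)]
          refine Finset.sum_le_sum fun n _ => mul_le_mul_of_nonneg_left ?_ (by positivity)
          rw [← sq_abs]
          refine pow_le_pow_left₀ (abs_nonneg _) (((hB N _ (hYT hN)).1 t ht n).trans ?_) 2
          exact div_le_self hA0 (one_le_pow₀ hq1.le)
        · exact fun t ht => tendsto_finsetSum _ fun n _ => ((hX n t ht.1).pow 2).const_mul _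
      refine (le_of_tendsto h1 ?_).trans (by linarith : D ≤ A + D)
      filter_upwards [hev T, eventually_ge_atTop M] with N hN hM
      refine le_trans ?_ (hB N _ (hYT hN)).2.2.1
      refine intervalIntegral.integral_mono_on hT.le
        (ii_of (sum4_cont (hYT hN).cont M) ⟨le_rfl, hT.le⟩ ⟨hT.le, le_rfl⟩)
        (ii_of (sum4_cont (hYT hN).cont (N + 1)) ⟨le_rfl, hT.le⟩ ⟨hT.le, le_rfl⟩) fun r hr => ?_
      exact Finset.sum_le_sum_of_subset_of_nonneg (Finset.range_subset_range.2 (by omega))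
        fun n _ _ => by positivity
    · have h1 : Tendsto (fun N => ∑ n ∈ Finset.range M, VV β ν N f (Y N) n t ^ 2) atTop
          (𝓝 (∑ n ∈ Finset.range M, (rhs β ν (fun k => X k t) n + f n t) ^ 2)) :=
        tendsto_finsetSum _ fun n _ => (hVV n t ht.1).pow 2
      refine (le_of_tendsto h1 ?_).trans (by linarith : D ≤ A + D)
      filter_upwards [hev T, eventually_ge_atTop M] with N hN hM
      refine le_trans ?_ ((hB N _ (hYT hN)).2.2.2.1 t ht)
      exact Finset.sum_le_sum_of_subset_of_nonneg (Finset.range_subset_range.2 (by omega))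
        fun n _ _ => sq_nonneg _
    · have h1 : Tendsto (fun N => ∫ r in (0 : ℝ)..T, ∑ n ∈ Finset.range M,
          (4 : ℝ) ^ n * VV β ν N f (Y N) n r ^ 2)
          atTop (𝓝 (∫ r in (0 : ℝ)..T, ∑ n ∈ Finset.range M,
            (4 : ℝ) ^ n * (rhs β ν (fun k => X k r) n + f n r) ^ 2)) := by
        refine int_tendsto (C := ∑ n ∈ Finset.range M, (4 : ℝ) ^ n * D' ^ 2) hT.le ?_ ?_ ?_
        · filter_upwards [hev T] with N hN
          exact sum4_cont (VV_cont (hYT hN) (fun n => had.fcont hT.le n)) M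
        · filter_upwards [hD'] with N hN t ht
          rw [abs_of_nonneg (Finset.sum_nonneg fun n _ => by positivity)]
          refine Finset.sum_le_sum fun n _ => mul_le_mul_of_nonneg_left ?_ (by positivity)
          rw [← sq_abs]
          exact pow_le_pow_left₀ (abs_nonneg _) (hN t ht n) 2
        · exact fun t ht => tendsto_finsetSum _ fun n _ => ((hVV n t ht.1).pow 2).const_mul _
      refine (le_of_tendsto h1 ?_).trans (by linarith : D ≤ A + D)
      filter_upwards [hev T, eventually_ge_atTop M] with N hN hM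
      refine le_trans ?_ (hB N _ (hYT hN)).2.2.2.2
      refine intervalIntegral.integral_mono_on hT.le
        (ii_of (sum4_cont (VV_cont (hYT hN) (fun n => had.fcont hT.le n)) M) ⟨le_rfl, hT.le⟩
          ⟨hT.le, le_rfl⟩)
        (ii_of (sum4_cont (VV_cont (hYT hN) (fun n => had.fcont hT.le n)) (N + 1)) ⟨le_rfl, hT.le⟩
          ⟨hT.le, le_rfl⟩) fun r hr => ?_
      exact Finset.sum_le_sum_of_subset_of_nonneg (Finset.range_subset_range.2 (by omega))
        fun n _ _ => by positivity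

end Pool.Agent.Run7.h32.Fo
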