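import Pool.Agent.Run7.h32.Fo.WSF

/-!
The forced dyadic model: the theorem.
-/

set_option autoImplicit false

open Set Filter Topology MeasureTheory

namespace Pool.Agent.Run7.h32.Fo

open Run7.h969.Dy Pool.Agent.Run7.h32.Dy

variable {x : ℕ → ℝ} {f g X Z : ℕ → ℝ → ℝ} {β ν T : ℝ}

lemma tsum_bd {a : ℕ → ℝ} {D : ℝ} (ha : ∀ n, 0 ≤ a n)
    (h : ∀ M : ℕ, ∑ n ∈ Finset.range M, a n ≤ D) : Summable a ∧ ∑' n, a n ≤ D :=
  ⟨summable_of_sum_range_le ha h, Real.tsum_le_of_sum_range_le ha h⟩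

lemma int_sum4 (hc : ∀ n, ContinuousOn (Z n) (Icc 0 T)) {t : ℝ} (ht : t ∈ Icc 0 T) (M : ℕ) :
    ∫ s in (0 : ℝ)..t, ∑ n ∈ Finset.range M, 4 ^ n * Z n s ^ 2
      = ∑ n ∈ Finset.range M, 4 ^ n * ∫ s in (0 : ℝ)..t, Z n s ^ 2 := by
  have h0T : (0 : ℝ) ∈ Icc 0 T := ⟨le_rfl, ht.1.trans ht.2⟩
  have h1 : ∫ s in (0 : ℝ)..t, ∑ n ∈ Finset.range M, 4 ^ n * Z n s ^ 2
      = ∑ n ∈ Finset.range M, ∫ s in (0 : ℝ)..t, 4 ^ n * Z n s ^ 2 :=
    intervalIntegral.integral_finsetSum fun n _ =>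
      ii_of (continuousOn_const.mul ((hc n).pow 2)) h0T ht
  rw [h1]
  exact Finset.sum_congr rfl fun n _ => intervalIntegral.integral_const_mul _ _

lemma int_sumf (hf : ∀ n, ContinuousOn (f n) (Icc 0 T)) (hc : ∀ n, ContinuousOn (Z n) (Icc 0 T))
    {t : ℝ} (ht : t ∈ Icc 0 T) (M : ℕ) :
    ∫ s in (0 : ℝ)..t, ∑ n ∈ Finset.range M, f n s * Z n s
      = ∑ n ∈ Finset.range M, ∫ s in (0 : ℝ)..t, f n s * Z n s := by
  have h0T : (0 : ℝ) ∈ Icc 0 T := ⟨le_rfl, ht.1.trans ht.2⟩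
  exact intervalIntegral.integral_finsetSum fun n _ => ii_of ((hf n).mul (hc n)) h0T ht

lemma work_le (hf : ∀ n, ContinuousOn (f n) (Icc 0 T)) (hc : ∀ n, ContinuousOn (Z n) (Icc 0 T))
    {t : ℝ} (ht : t ∈ Icc 0 T) (n : ℕ) :
    |∫ s in (0 : ℝ)..t, f n s * Z n s| ≤ ∫ s in (0 : ℝ)..T, |f n s * Z n s| := by
  have h0T : (0 : ℝ) ∈ Icc 0 T := ⟨le_rfl, ht.1.trans ht.2⟩
  have hTT : T ∈ Icc 0 T := ⟨ht.1.trans ht.2, le_rfl⟩
  have hca : ContinuousOn (fun s => |f n s * Z n s|) (Icc 0 T) := ((hf n).mul (hc n)).abs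
  refine (intervalIntegral.abs_integral_le_integral_abs ht.1).trans ?_
  exact intervalIntegral.integral_mono_interval le_rfl ht.1 ht.2
    (Eventually.of_forall fun s => abs_nonneg _) (ii_of hca h0T hTT)

/-- **The energy equality of the strong solution.** -/
theorem energy_eq {s C D Φ : ℝ} (hs0 : 0 < s) (hs : β - 2 < s)
    (hC : 0 ≤ C) (hX : SolF β ν x f X) (hf : ∀ n, ContinuousOn (f n) (Icc 0 T))
    (hXs : ∀ t ∈ Icc 0 T, ∀ n : ℕ, |X n t| ≤ C / (2 ^ s) ^ n)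
    (hXH : ∀ t ∈ Icc 0 T, ∀ M : ℕ, ∑ n ∈ Finset.range M, X n t ^ 2 ≤ D)
    (hXD : ∀ M : ℕ, ∫ s in (0 : ℝ)..T, ∑ n ∈ Finset.range M, 4 ^ n * X n s ^ 2 ≤ D)
    (hΦ : ∀ M : ℕ, ∫ s in (0 : ℝ)..T, ∑ n ∈ Finset.range M, f n s ^ 2 / 4 ^ n ≤ Φ) {t : ℝ}
    (ht : t ∈ Icc 0 T) :
    ∑' n, X n t ^ 2 + 2 * ν * ∑' n, 4 ^ n * ∫ s in (0 : ℝ)..t, X n s ^ 2
      = ∑' n, x n ^ 2 + 2 * ∑' n, ∫ s in (0 : ℝ)..t, f n s * X n s := by
  obtain ⟨q, hq⟩ : ∃ q : ℝ, q = 2 ^ s := ⟨_, rfl⟩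
  have hq0 : 0 < q := by rw [hq]; exact Real.rpow_pos_of_pos two_pos _
  have hq1 : 1 < q := by rw [hq]; exact Real.one_lt_rpow (by norm_num) hs0
  have hB0 : (0 : ℝ) < 2 ^ β := Real.rpow_pos_of_pos two_pos _
  have hσ : 2 ^ β / (4 * q) < 1 := by rw [hq]; exact rate_lt_one hs
  have hσ0 : 0 < 2 ^ β / (4 * q) := by positivity
  rw [← hq] at hXs
  have hT : 0 ≤ T := ht.1.trans ht.2
  have h0T : (0 : ℝ) ∈ Icc 0 T := ⟨le_rfl, hT⟩
  have hTT : T ∈ Icc 0 T := ⟨hT, le_rfl⟩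
  have hc : ∀ n, ContinuousOn (X n) (Icc 0 T) := fun n => hX.cont n
  have h1 : Tendsto (fun N => ∑ n ∈ Finset.range (N + 1), X n t ^ 2) atTop
      (𝓝 (∑' n, X n t ^ 2)) :=
    ((tsum_bd (fun n => sq_nonneg _) (hXH t ht)).1.hasSum.tendsto_sum_nat).comp
      (tendsto_add_atTop_nat 1)
  have h2s : Summable fun n => (4 : ℝ) ^ n * ∫ s in (0 : ℝ)..t, X n s ^ 2 := by
    refine (tsum_bd (D := D) (fun n => mul_nonneg (by positivity)
      (intervalIntegral.integral_nonneg ht.1 fun s _ => sq_nonneg _)) fun M => ?_).1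
    rw [← int_sum4 hc ht M]
    refine le_trans ?_ (hXD M)
    have h5 : 0 ≤ ∫ s in t..T, ∑ n ∈ Finset.range M, (4 : ℝ) ^ n * X n s ^ 2 :=
      intervalIntegral.integral_nonneg ht.2 fun s _ => Finset.sum_nonneg fun n _ => by positivity
    have h4 := intervalIntegral.integral_add_adjacent_intervals
      (ii_of (sum4_cont hc M) h0T ht) (ii_of (sum4_cont hc M) ht hTT)
    linarith
  have h2 : Tendsto (fun N => ∑ n ∈ Finset.range (N + 1), 4 ^ n * ∫ s in (0 : ℝ)..t, X n s ^ 2)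
      atTop (𝓝 (∑' n, 4 ^ n * ∫ s in (0 : ℝ)..t, X n s ^ 2)) :=
    (h2s.hasSum.tendsto_sum_nat).comp (tendsto_add_atTop_nat 1)
  have h3s : Summable fun n => x n ^ 2 := by
    have := (tsum_bd (fun n => sq_nonneg _) (hXH 0 h0T)).1
    simpa only [hX.init] using this
  have h3 : Tendsto (fun N => ∑ n ∈ Finset.range (N + 1), x n ^ 2) atTop (𝓝 (∑' n, x n ^ 2)) :=
    (h3s.hasSum.tendsto_sum_nat).comp (tendsto_add_atTop_nat 1)
  have h4s : Summable fun n => ∫ s in (0 : ℝ)..t, f n s * X n s :=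
    Summable.of_norm_bounded (work_summable hT hf hc hΦ hXD) fun n => by
      rw [Real.norm_eq_abs]
      exact work_le hf hc ht n
  have h4 : Tendsto (fun N => ∑ n ∈ Finset.range (N + 1), ∫ s in (0 : ℝ)..t, f n s * X n s)
      atTop (𝓝 (∑' n, ∫ s in (0 : ℝ)..t, f n s * X n s)) :=
    (h4s.hasSum.tendsto_sum_nat).comp (tendsto_add_atTop_nat 1)
  have h5 : Tendsto (fun N : ℕ => ∫ s in (0 : ℝ)..t, (2 : ℝ) ^ (β * N)
      * (X N s ^ 2 * X (N + 1) s)) atTop (𝓝 0) := by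
    have h6 : Tendsto (fun N : ℕ => C * (2 ^ β / (4 * q)) ^ N * D) atTop (𝓝 0) := by
      have := ((tendsto_pow_atTop_nhds_zero_of_lt_one hσ0.le hσ).const_mul C).mul_const D
      simpa using this
    refine squeeze_zero_norm (fun N => ?_) h6
    rw [Real.norm_eq_abs]
    exact flux_le hq1.le rfl hC hc hXs hXD N ht
  have h6 := (h1.add (h2.const_mul (2 * ν)))
  have h7 := ((h3.add (h4.const_mul 2)).sub (h5.const_mul 2))
  rw [mul_zero, sub_zero] at h7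
  refine tendsto_nhds_unique h6 (h7.congr fun N => ?_)
  have h8 := solF_id hX hf N ht
  rw [int_sum4 hc ht, int_sumf hf hc ht] at h8
  exact h8.symm

/-- **Uniqueness among the Leray-Hopf solutions.** -/
theorem unique_lh {s C D Φ : ℝ} (hν : 0 < ν) (hs0 : 0 < s) (hs : β - 2 < s) (hT : 0 < T)
    (hC : 0 ≤ C) (hX : SolF β ν x f X) (hZ : SolF β ν x f Z)
    (hf : ∀ n, ContinuousOn (f n) (Icc 0 T)) (hx : Summable fun n => x n ^ 2)
    (hXs : ∀ t ∈ Icc 0 T, ∀ n : ℕ, |X n t| ≤ C / (2 ^ s) ^ n)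
    (hXD : ∀ M : ℕ, ∫ s in (0 : ℝ)..T, ∑ n ∈ Finset.range M, 4 ^ n * X n s ^ 2 ≤ D)
    (hΦ : ∀ M : ℕ, ∫ s in (0 : ℝ)..T, ∑ n ∈ Finset.range M, f n s ^ 2 / 4 ^ n ≤ Φ)
    (hZH : ∀ t ∈ Icc 0 T, Summable fun n => Z n t ^ 2)
    (hZV : Summable fun n => (4 : ℝ) ^ n * ∫ s in (0 : ℝ)..T, Z n s ^ 2)
    (hZe : ∀ t ∈ Icc 0 T, ∑' n, Z n t ^ 2 + 2 * ν * ∑' n, 4 ^ n * ∫ s in (0 : ℝ)..t, Z n s ^ 2
      ≤ ∑' n, x n ^ 2 + 2 * ∑' n, ∫ s in (0 : ℝ)..t, f n s * Z n s) (n : ℕ) :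
    Z n T = X n T := by
  have h0T : (0 : ℝ) ∈ Icc 0 T := ⟨le_rfl, hT.le⟩
  have hTT : T ∈ Icc 0 T := ⟨hT.le, le_rfl⟩
  have hc : ∀ n, ContinuousOn (Z n) (Icc 0 T) := fun n => hZ.cont n
  have hnn : ∀ t ∈ Icc 0 T, ∀ n, 0 ≤ (4 : ℝ) ^ n * ∫ s in (0 : ℝ)..t, Z n s ^ 2 := fun t ht n =>
    mul_nonneg (by positivity) (intervalIntegral.integral_nonneg ht.1 fun s _ => sq_nonneg _)
  obtain ⟨D', hD'⟩ : ∃ D', D' = ∑' n, (4 : ℝ) ^ n * ∫ s in (0 : ℝ)..T, Z n s ^ 2 := ⟨_, rfl⟩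
  have hZD : ∀ M : ℕ, ∫ s in (0 : ℝ)..T, ∑ n ∈ Finset.range M, 4 ^ n * Z n s ^ 2 ≤ D' := by
    intro M
    rw [int_sum4 hc hTT, hD']
    exact hZV.sum_le_tsum _ fun n _ => hnn T hTT n
  have hws := work_summable hT.le hf hc hΦ hZD
  obtain ⟨a, ha⟩ : ∃ a : ℕ → ℝ, a = fun n => ∫ s in (0 : ℝ)..T, |f n s * Z n s| := ⟨_, rfl⟩
  have hws' : Summable a := by rw [ha]; exact hws
  have hδ : Tendsto (fun N => ∑' n, a (n + (N + 1))) atTop (𝓝 0) :=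
    (tendsto_sum_nat_add a).comp (tendsto_add_atTop_nat 1)
  refine ws_forced (C := C) (D := max D D') hν hs0 hs hT.le hC hX hZ hf hXs
    (fun M => (hXD M).trans (le_max_left _ _)) (fun M => (hZD M).trans (le_max_right _ _))
    (E := ∑' n, x n ^ 2) (fun N t ht => ?_)
    ((hx.hasSum.tendsto_sum_nat).comp (tendsto_add_atTop_nat 1)) hδ n
  rw [int_sum4 hc ht, int_sumf hf hc ht]
  have h2s : Summable fun n => (4 : ℝ) ^ n * ∫ s in (0 : ℝ)..t, Z n s ^ 2 := by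
    refine hZV.of_nonneg_of_le (hnn t ht) fun n => ?_
    refine mul_le_mul_of_nonneg_left ?_ (by positivity)
    exact intervalIntegral.integral_mono_interval le_rfl ht.1 ht.2
      (Eventually.of_forall fun s => sq_nonneg _) (ii_of ((hc n).pow 2) h0T hTT)
  have h4s : Summable fun n => ∫ s in (0 : ℝ)..t, f n s * Z n s :=
    Summable.of_norm_bounded hws fun n => by
      rw [Real.norm_eq_abs]
      exact work_le hf hc ht n
  have h1 := (hZH t ht).sum_le_tsum (Finset.range (N + 1)) fun n _ => sq_nonneg _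
  have h2 := mul_le_mul_of_nonneg_left (h2s.sum_le_tsum (Finset.range (N + 1))
    fun n _ => hnn t ht n) (by positivity : 0 ≤ 2 * ν)
  have h3 : ∑' n, ∫ s in (0 : ℝ)..t, f n s * Z n s
      ≤ ∑ n ∈ Finset.range (N + 1), (∫ s in (0 : ℝ)..t, f n s * Z n s)
        + ∑' n, a (n + (N + 1)) := by
    rw [← h4s.sum_add_tsum_nat_add (N + 1)]
    refine add_le_add le_rfl ?_
    refine Summable.tsum_le_tsum (fun n => ?_) ((summable_nat_add_iff (N + 1)).2 h4s)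
      ((summable_nat_add_iff (N + 1)).2 hws')
    rw [ha]
    exact (le_abs_self _).trans (work_le hf hc ht _)
  have h5 := hZe t ht
  linarith

end Pool.Agent.Run7.h32.Fo
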