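import Pool.Agent.Run7.h32.Fo.Data

/-!
The forced dyadic model: the limit of the truncated systems.
-/

set_option autoImplicit false

open Set Filter Topology MeasureTheory

namespace Pool.Agent.Run7.h32.Fo

open Run7.h969.Dy Pool.Agent.Run7.h32.Dy

variable {x : ℕ → ℝ} {f g : ℕ → ℝ → ℝ} {β ν T : ℝ}

lemma VV_zero_time {N : ℕ} {X : ℕ → ℝ → ℝ} {R : ℝ} (hβ : β < 3) (hν : 0 < ν)
    (h : GalF β ν T N x f X) (hx : ∀ n, |x n| ≤ R / 4 ^ n) (hR : 0 ≤ R)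
    (h16 : ∀ M : ℕ, ∑ n ∈ Finset.range M, (16 : ℝ) ^ n * x n ^ 2 ≤ R)
    (hf0 : ∀ M : ℕ, ∑ n ∈ Finset.range M, f n 0 ^ 2 ≤ R) :
    ∑ n ∈ Finset.range (N + 1), VV β ν N f X n 0 ^ 2 ≤ 36 * R ^ 4 + 3 * ν ^ 2 * R + 3 * R := by
  have hy : ∀ n, |X n 0| ≤ R / 4 ^ n := by
    intro n
    by_cases hn : n ≤ N
    · rw [h.init n hn]
      exact hx n
    · rw [h.zero n (by omega), abs_zero]
      positivity
  have h1 : ∀ n ∈ Finset.range (N + 1), VV β ν N f X n 0 ^ 2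
      ≤ 27 * R ^ 4 * (1 / 4) ^ n + 3 * ν ^ 2 * (16 ^ n * x n ^ 2) + 3 * f n 0 ^ 2 := by
    intro n hn
    have hnN : n ≤ N := Nat.lt_succ_iff.1 (Finset.mem_range.1 hn)
    simp only [VV, hnN, ite_true]
    have h2 := rhs0_le (ν := ν) hR hβ hy n
    rw [h.init n hnN] at h2
    obtain ⟨a, ha⟩ : ∃ a, a = rhs β ν (fun k => X k 0) n + ν * 4 ^ n * x n := ⟨_, rfl⟩
    have h3 : a ^ 2 ≤ 9 * R ^ 4 * (1 / 4) ^ n := by
      have e : 9 * R ^ 4 * (1 / 4 : ℝ) ^ n = (3 * R ^ 2 * (1 / 2) ^ n) ^ 2 := by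
        rw [mul_pow, ← pow_mul, mul_comm n 2, pow_mul]
        norm_num
        ring
      rw [e, ha, ← sq_abs]
      exact pow_le_pow_left₀ (abs_nonneg _) h2 2
    have h4 : rhs β ν (fun k => X k 0) n + f n 0 = a + -(ν * 4 ^ n * x n) + f n 0 := by
      rw [ha]
      ring
    have h5 : (a + -(ν * 4 ^ n * x n) + f n 0) ^ 2
        ≤ 3 * a ^ 2 + 3 * (ν * 4 ^ n * x n) ^ 2 + 3 * f n 0 ^ 2 := by
      nlinarith [sq_nonneg (a + ν * 4 ^ n * x n), sq_nonneg (a - f n 0),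
        sq_nonneg (ν * 4 ^ n * x n + f n 0)]
    have h6 : (ν * 4 ^ n * x n) ^ 2 = ν ^ 2 * (16 ^ n * x n ^ 2) := by
      rw [mul_pow, mul_pow, ← pow_mul, mul_comm n 2, pow_mul]
      norm_num
      ring
    rw [h4]
    rw [h6] at h5
    linarith
  refine (Finset.sum_le_sum h1).trans ?_
  rw [Finset.sum_add_distrib, Finset.sum_add_distrib, ← Finset.mul_sum, ← Finset.mul_sum,
    ← Finset.mul_sum]
  have h7 : ∑ n ∈ Finset.range (N + 1), (1 / 4 : ℝ) ^ n ≤ 4 / 3 := by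
    have hs : Summable fun n : ℕ => (1 / 4 : ℝ) ^ n :=
      summable_geometric_of_lt_one (by norm_num) (by norm_num)
    refine (hs.sum_le_tsum _ fun n _ => by positivity).trans (le_of_eq ?_)
    rw [tsum_geometric_of_lt_one (by norm_num) (by norm_num)]
    norm_num
  have h8 := mul_le_mul_of_nonneg_left h7 (by positivity : 0 ≤ 27 * R ^ 4)
  have h9 := mul_le_mul_of_nonneg_left (h16 (N + 1)) (by positivity : 0 ≤ 3 * ν ^ 2)
  have h10 := hf0 (N + 1)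
  linarith

/-- The constant of absorption. -/
lemma absorb {s A : ℝ} (hν : 0 < ν) (hs : β - 2 < s) (hA : 0 ≤ A) :
    ∃ K : ℝ, 0 ≤ K ∧ ∀ n : ℕ, (2 : ℝ) ^ (β * n) * (A / (2 ^ s) ^ n) ≤ ν / 8 * 4 ^ n + K := by
  obtain ⟨n₀, hn₀⟩ := Run7.h969.Dz.small_ev (β := β) hν hs hA 4
  obtain ⟨q, hq⟩ : ∃ q : ℝ, q = 2 ^ s := ⟨_, rfl⟩
  have hq0 : 0 < q := by rw [hq]; exact Real.rpow_pos_of_pos two_pos _
  have hB0 : (0 : ℝ) < 2 ^ β := Real.rpow_pos_of_pos two_pos _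
  rw [← hq] at hn₀ ⊢
  refine ⟨∑ n ∈ Finset.range n₀, (2 ^ β) ^ n * (A / q ^ n),
    Finset.sum_nonneg fun n _ => by positivity, fun n => ?_⟩
  rw [pow_mul_nat]
  by_cases hn : n₀ ≤ n
  · have h1 := hn₀ n hn
    have h2 : 0 ≤ ∑ n ∈ Finset.range n₀, ((2 : ℝ) ^ β) ^ n * (A / q ^ n) :=
      Finset.sum_nonneg fun n _ => by positivity
    linarith
  · have h1 : ((2 : ℝ) ^ β) ^ n * (A / q ^ n)
        ≤ ∑ n ∈ Finset.range n₀, ((2 : ℝ) ^ β) ^ n * (A / q ^ n) :=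
      Finset.single_le_sum (f := fun n => ((2 : ℝ) ^ β) ^ n * (A / q ^ n))
        (fun n _ => by positivity) (Finset.mem_range.2 (by omega))
    have h2 : 0 ≤ ν / 8 * 4 ^ n := by positivity
    linarith

/-- **The uniform bounds.** -/
theorem unif (hβ : β < 3) (hν : 0 < ν) (had : Adm x f g) :
    ∃ s : ℝ, 0 < s ∧ β - 2 < s ∧ ∀ T : ℝ, 0 < T → ∃ A K D : ℝ, 0 ≤ A ∧ 0 ≤ K ∧ 0 ≤ D ∧
      (∀ n : ℕ, (2 : ℝ) ^ (β * n) * (A / (2 ^ s) ^ n) ≤ ν / 8 * 4 ^ n + K) ∧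
      ∀ (N : ℕ) (X : ℕ → ℝ → ℝ), GalF β ν T N x f X →
        (∀ t ∈ Icc 0 T, ∀ n : ℕ, |X n t| ≤ A / (2 ^ s) ^ n) ∧
        (∀ t ∈ Icc 0 T, ∑ n ∈ Finset.range (N + 1), X n t ^ 2 ≤ D) ∧
        (∫ s in (0 : ℝ)..T, ∑ n ∈ Finset.range (N + 1), 4 ^ n * X n s ^ 2 ≤ D) ∧
        (∀ t ∈ Icc 0 T, ∑ n ∈ Finset.range (N + 1), VV β ν N f X n t ^ 2 ≤ D) ∧
        (∫ s in (0 : ℝ)..T, ∑ n ∈ Finset.range (N + 1), 4 ^ n * VV β ν N f X n s ^ 2 ≤ D) := by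
  obtain ⟨s, hs0, hs, hs1, hcrit⟩ := critF_all hβ hν one_pos (by linarith : β - 2 < 1) le_rfl
  refine ⟨s, hs0, hs, fun T hT => ?_⟩
  obtain ⟨R, hR0, hx, h16, hx2, hf0, hF, hΦ, hΓ⟩ := had.bounds hT.le
  have hfc : ∀ n, ContinuousOn (f n) (Icc 0 T) := fun n => had.fcont hT.le n
  obtain ⟨C, hC⟩ := hcrit R R (√(R + R / ν)) hR0 hR0 (Real.sqrt_nonneg _)
  have hx1 : ∀ n : ℕ, (2 : ℝ) ^ ((1 : ℝ) * n) * |x n| ≤ R := by
    intro n
    rw [one_mul, Real.rpow_natCast]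
    have h1 := mul_le_mul_of_nonneg_left (hx n) (by positivity : (0 : ℝ) ≤ 2 ^ n)
    refine h1.trans ?_
    rw [mul_div_assoc', div_le_iff₀ (by positivity), mul_comm]
    exact mul_le_mul_of_nonneg_left (pow_le_pow_left₀ (by norm_num) (by norm_num) n) hR0
  obtain ⟨A, hA⟩ : ∃ A, A = max C 0 := ⟨_, rfl⟩
  have hA0 : 0 ≤ A := by rw [hA]; exact le_max_right _ _
  obtain ⟨q, hq⟩ : ∃ q : ℝ, q = 2 ^ s := ⟨_, rfl⟩
  have hq0 : 0 < q := by rw [hq]; exact Real.rpow_pos_of_pos two_pos _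
  have hq1 : 1 < q := by rw [hq]; exact Real.one_lt_rpow (by norm_num) hs0
  obtain ⟨K, hK0, hK⟩ := absorb (β := β) hν hs hA0
  obtain ⟨D, hD⟩ : ∃ D, D = (R + R / ν) + (R + R / ν) / ν
      + ((36 * R ^ 4 + 3 * ν ^ 2 * R + 3 * R) + 2 / ν * R) * Real.exp (4 * K * T)
      + 2 / ν * (((36 * R ^ 4 + 3 * ν ^ 2 * R + 3 * R) + 2 / ν * R)
        * (1 + 4 * K * (T * Real.exp (4 * K * T)))) := ⟨_, rfl⟩
  have hD0 : 0 ≤ D := by rw [hD]; positivity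
  refine ⟨A, K, D, hA0, hK0, hD0, hK, fun N X hX => ?_⟩
  have hTT : T ∈ Icc 0 T := ⟨hT.le, le_rfl⟩
  have hXA : ∀ t ∈ Icc 0 T, ∀ n : ℕ, |X n t| ≤ A / (2 ^ s) ^ n := by
    intro t ht n
    have h1 := hC T N x f X hT hx1 hF (fun t ht n => abs_le_energyF hν hX hfc hx2 hΦ ht n) hX t ht n
    rw [le_div_iff₀ (by positivity), mul_comm, ← pow_mul_nat]
    exact h1.trans (by rw [hA]; exact le_max_left _ _)
  have hKX : ∀ t ∈ Icc 0 T, ∀ n : ℕ, (2 : ℝ) ^ (β * n) * |X n t| ≤ ν / 8 * 4 ^ n + K :=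
    fun t ht n => (mul_le_mul_of_nonneg_left (hXA t ht n)
      (Real.rpow_nonneg two_pos.le _)).trans (hK n)
  have hKX' : ∀ t ∈ Icc 0 T, ∀ n : ℕ, (2 : ℝ) ^ (β * n) * |X (n + 1) t| ≤ ν / 8 * 4 ^ n + K := by
    intro t ht n
    refine (mul_le_mul_of_nonneg_left ((hXA t ht (n + 1)).trans ?_)
      (Real.rpow_nonneg two_pos.le _)).trans (hK n)
    rw [← hq]
    apply div_le_div_of_nonneg_left hA0 (by positivity)
    exact pow_le_pow_right₀ hq1.le (Nat.le_succ n)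
  have hen : ∀ t ∈ Icc 0 T, ∑ n ∈ Finset.range (N + 1), X n t ^ 2
      + ν * ∫ s in (0 : ℝ)..t, ∑ n ∈ Finset.range (N + 1), 4 ^ n * X n s ^ 2 ≤ R + R / ν :=
    fun t ht => le_energyF hν hX hfc hx2 hΦ ht
  have htm : ∀ t ∈ Icc 0 T, _ := fun t ht => galF_time (K := K) (Γ := R) hν hX hfc
    (fun n => had.gi T n hT.le)
    (fun n => had.gi2 T n hT.le) (fun n t ht => had.fg n t ht.1) hK0 hKX hKX' hΓ
    (VV_zero_time hβ hν hX hx hR0 h16 hf0) ht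
  have hRν : 0 ≤ R / ν := by positivity
  have p1 : 0 ≤ (R + R / ν) / ν := by positivity
  have p2 : 0 ≤ ((36 * R ^ 4 + 3 * ν ^ 2 * R + 3 * R) + 2 / ν * R) * Real.exp (4 * K * T) := by
    positivity
  have p3 : 0 ≤ 2 / ν * (((36 * R ^ 4 + 3 * ν ^ 2 * R + 3 * R) + 2 / ν * R)
        * (1 + 4 * K * (T * Real.exp (4 * K * T)))) := by positivity
  refine ⟨hXA, fun t ht => ?_, ?_, fun t ht => ?_, ?_⟩
  · have h1 := hen t ht
    have h2 : 0 ≤ ν * ∫ s in (0 : ℝ)..t, ∑ n ∈ Finset.range (N + 1), 4 ^ n * X n s ^ 2 :=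
      mul_nonneg hν.le (intervalIntegral.integral_nonneg ht.1 fun s _ =>
        Finset.sum_nonneg fun n _ => by positivity)
    rw [hD]
    linarith
  · have h1 := hen T hTT
    have h2 : 0 ≤ ∑ n ∈ Finset.range (N + 1), X n T ^ 2 := Finset.sum_nonneg fun n _ => sq_nonneg _
    have h3 : ∫ s in (0 : ℝ)..T, ∑ n ∈ Finset.range (N + 1), 4 ^ n * X n s ^ 2
        ≤ (R + R / ν) / ν := by
      rw [le_div_iff₀ hν, mul_comm]
      linarith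
    rw [hD]
    linarith
  · refine (htm t ht).1.trans ?_
    have h1 : Real.exp (4 * K * t) ≤ Real.exp (4 * K * T) :=
      Real.exp_le_exp.2 (mul_le_mul_of_nonneg_left ht.2 (by positivity))
    have h2 := mul_le_mul_of_nonneg_left h1
      (by positivity : 0 ≤ (36 * R ^ 4 + 3 * ν ^ 2 * R + 3 * R) + 2 / ν * R)
    rw [hD]
    linarith
  · have h1 := (htm T hTT).2
    have h2 : ∫ s in (0 : ℝ)..T, ∑ n ∈ Finset.range (N + 1), 4 ^ n * VV β ν N f X n s ^ 2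
        ≤ 2 / ν * (((36 * R ^ 4 + 3 * ν ^ 2 * R + 3 * R) + 2 / ν * R)
        * (1 + 4 * K * (T * Real.exp (4 * K * T)))) := by
      have h3 := mul_le_mul_of_nonneg_left h1 (by positivity : 0 ≤ 2 / ν)
      rw [← mul_assoc, show 2 / ν * (ν / 2) = 1 by field_simp, one_mul] at h3
      exact h3
    rw [hD]
    linarith

end Pool.Agent.Run7.h32.Fo
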