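import Pool.Agent.Run7.h32.Fo.Base
import Pool.Agent.Run7.h969.Dz.Region

/-!
The forced dyadic model: the negative parts of the high shells, and the invariant region.
-/

set_option autoImplicit false

open Set Filter Topology MeasureTheory

namespace Pool.Agent.Run7.h32.Fo

open Run7.h969.Dy Pool.Agent.Run7.h32.Dy Run7.h969.Dz

/-- The negative parts of the high shells stay small. -/
theorem neg_partF {β ν s K P F T : ℝ} {N n₀ : ℕ} {x : ℕ → ℝ} {f X : ℕ → ℝ → ℝ} (hν : 0 < ν)
    (hP0 : 0 < P) (hKP : K < P) (hK : ∀ n : ℕ, (2 : ℝ) ^ (s * n) * |x n| ≤ K)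
    (hG : GalF β ν T N x f X) (hs1 : s ≤ 1)
    (hF : ∀ t ∈ Icc 0 T, ∀ n : ℕ, |f n t| ≤ F * 2 ^ n) (hFP : F < P * ν / 2)
    (h₀ : 1 ≤ n₀)
    (hn₀ : ∀ n ≥ n₀, ((2 : ℝ) ^ β) ^ n * (P / ((2 : ℝ) ^ s) ^ (n + 1)) ≤ ν / 2 * 4 ^ n) :
    ∀ n ≥ n₀, ∀ t ∈ Icc 0 T, -(P / ((2 : ℝ) ^ s) ^ n) < X n t := by
  obtain ⟨q, hq⟩ : ∃ q : ℝ, q = 2 ^ s := ⟨_, rfl⟩
  obtain ⟨B, hB⟩ : ∃ B : ℝ, B = 2 ^ β := ⟨_, rfl⟩
  have hq0 : 0 < q := by rw [hq]; exact Real.rpow_pos_of_pos two_pos _
  have hq2 : q ≤ 2 := by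
    rw [hq]
    calc (2 : ℝ) ^ s ≤ 2 ^ (1 : ℝ) := Real.rpow_le_rpow_of_exponent_le one_le_two hs1
      _ = 2 := Real.rpow_one 2
  have hB0 : 0 < B := by rw [hB]; exact Real.rpow_pos_of_pos two_pos _
  rw [← hq, ← hB] at hn₀
  rw [← hq]
  have hc := hG.cont
  have key := barrier (ι := Fin (N + 1)) (T := T)
    (fun i t => if n₀ ≤ (i : ℕ) then X i t + P / q ^ (i : ℕ) else 1) ?_ ?_ ?_
  · intro n hn t ht
    by_cases hN : n ≤ N
    · have h1 := key ⟨n, by omega⟩ t ht
      rw [if_pos (show n₀ ≤ n from hn)] at h1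
      linarith
    · rw [hG.zero n (by omega) t, neg_lt_zero]
      positivity
  · intro i
    by_cases hi : n₀ ≤ (i : ℕ)
    · simp only [hi, ite_true]
      exact (hc _).add continuousOn_const
    · simp only [hi, ite_false]
      exact continuousOn_const
  · intro i
    by_cases hi : n₀ ≤ (i : ℕ)
    · simp only [hi, ite_true]
      rw [hG.init i (by omega)]
      have h1 := hK i
      rw [pow_mul_nat, ← hq] at h1
      have h2 : |x i| < P / q ^ (i : ℕ) := by
        rw [lt_div_iff₀ (by positivity), mul_comm]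
        exact h1.trans_lt hKP
      linarith [neg_abs_le (x i)]
    · simp only [hi, ite_false]
      exact one_pos
  · intro i t ht hall hi0
    by_cases hi : n₀ ≤ (i : ℕ)
    · simp only [hi, ite_true] at hi0 ⊢
      obtain ⟨n, hn⟩ := i
      simp only at hi hi0 ⊢
      obtain ⟨m, rfl⟩ : ∃ m, n = m + 1 := ⟨n - 1, by omega⟩
      refine ⟨_, ?_, (hG.ode (m + 1) (by omega) t ⟨ht.1.le, ht.2⟩).add_const _⟩
      have h1 : X (m + 1) t = -(P / q ^ (m + 1)) := by linarith
      have h2 : -(P / q ^ (m + 2)) ≤ X (m + 2) t := by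
        by_cases hN : m + 2 ≤ N
        · have h3 := hall ⟨m + 2, by omega⟩
          rw [if_pos (show n₀ ≤ m + 2 by omega)] at h3
          have h3' : 0 ≤ X (m + 2) t + P / q ^ (m + 2) := h3
          linarith
        · rw [hG.zero (m + 2) (by omega) t, neg_nonpos]
          positivity
      have h3 := hn₀ (m + 1) hi
      have h4 : (2 : ℝ) ^ (β * ((m : ℝ) + 1)) = B ^ (m + 1) := by
        have := pow_mul_nat β (m + 1)
        rw [Nat.cast_add, Nat.cast_one] at this
        rw [this, hB]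
      show 0 < (2 : ℝ) ^ (β * m) * X m t ^ 2
        - (2 : ℝ) ^ (β * ((m : ℝ) + 1)) * (X (m + 1) t * X (m + 2) t)
        - ν * 4 ^ (m + 1) * X (m + 1) t + f (m + 1) t
      rw [h4, h1]
      have h5 : 0 ≤ (2 : ℝ) ^ (β * m) * X m t ^ 2 :=
        mul_nonneg (Real.rpow_nonneg two_pos.le _) (sq_nonneg _)
      have h6 : 0 < P / q ^ (m + 1) := by positivity
      have h7 : B ^ (m + 1) * -(P / q ^ (m + 2)) ≤ B ^ (m + 1) * X (m + 2) t :=
        mul_le_mul_of_nonneg_left h2 (by positivity)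
      have h8 : ν / 2 * 4 ^ (m + 1) ≤ B ^ (m + 1) * X (m + 2) t + ν * 4 ^ (m + 1) := by linarith
      have h9 := mul_le_mul_of_nonneg_left h8 h6.le
      -- the force
      have hf := hF t ⟨ht.1.le, ht.2⟩ (m + 1)
      have hf' := neg_abs_le (f (m + 1) t)
      have h10 : F * 2 ^ (m + 1) < P / q ^ (m + 1) * (ν / 2 * 4 ^ (m + 1)) := by
        have e1 : (2 : ℝ) ^ (m + 1) * 2 ^ (m + 1) = 4 ^ (m + 1) := by
          rw [← mul_pow]
          norm_num
        have e2 : q ^ (m + 1) ≤ 2 ^ (m + 1) := pow_le_pow_left₀ hq0.le hq2 _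
        have e3 : (2 : ℝ) ^ (m + 1) ≤ 4 ^ (m + 1) / q ^ (m + 1) := by
          rw [le_div_iff₀ (by positivity), ← e1]
          exact mul_le_mul_of_nonneg_left e2 (by positivity)
        calc F * 2 ^ (m + 1) < P * ν / 2 * 2 ^ (m + 1) :=
              mul_lt_mul_of_pos_right hFP (by positivity)
          _ ≤ P * ν / 2 * (4 ^ (m + 1) / q ^ (m + 1)) :=
              mul_le_mul_of_nonneg_left e3 (by positivity)
          _ = P / q ^ (m + 1) * (ν / 2 * 4 ^ (m + 1)) := by
              field_simp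
      linarith
    · simp only [hi, ite_false] at hi0
      exact absurd hi0 one_ne_zero

set_option maxHeartbeats 1000000 in
/-- The invariant region with a force. -/
theorem invariantF {κ ρ a₁ a₂ b₂ c d lam νm μ : ℝ} (hR : Reg κ ρ a₁ a₂ b₂ c d lam νm μ)
    {T C₀ ν₀ δ e γ : ℝ} {N : ℕ} (hC₀ : 0 < C₀) (hν₀ : 0 < ν₀) (hνm : νm ≤ ν₀) (he : 0 ≤ e)
    (he1 : e ≤ 1) (hγ : 0 ≤ γ) (heμ : 112 * e + 20 * γ < μ) (heν : κ * e + γ < (1 - lam) * ν₀)
    (W H : ℕ → ℝ → ℝ) (hH : ∀ n, n + 1 ≤ N → ∀ t ∈ Icc 0 T, |H (n + 1) t| ≤ γ)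
    (hneg : ∀ t ∈ Icc 0 T, ∀ n, -e ≤ W n t) (hz : ∀ n, N < n → ∀ t, W n t = 0)
    (hcont : ContinuousOn (W 0) (Icc 0 T))
    (hode : ∀ n, n + 1 ≤ N → ∀ t ∈ Icc 0 T, HasDerivWithinAt (W (n + 1))
      (C₀ * (4 / ρ) ^ (n + 1) * (W n t ^ 2 - κ * (W (n + 1) t * W (n + 2) t)
        - ρ ^ (n + 1) * ν₀ * W (n + 1) t + H (n + 1) t)) (Icc 0 T) t)
    (hδ1 : δ < 1) (hδa : a₁ * δ < a₁ - 1) (hδb : a₂ * δ < b₂) (hδd : δ < d)
    (hsmall : ∀ t ∈ Icc 0 T, W 0 t ≤ δ ∧ W 1 t ≤ δ) (hinit : ∀ n, W n 0 ≤ δ)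
    (hT : 0 ≤ T) (hN : 1 < lam * (ρ ^ N * ν₀)) :
    ∀ n, ∀ t ∈ Icc 0 T, W n t ≤ 1 := by
  have hρ : 0 < ρ := by linarith [hR.ρ1]
  have ha1 : 0 < a₁ := by linarith [hR.a1]
  have ha2 : 0 < a₂ := by linarith [hR.a2]
  have hc0 : 0 < c := by linarith [hR.c2]
  have hWc : ∀ n, ContinuousOn (W n) (Icc 0 T) := by
    intro n
    rcases Nat.eq_zero_or_pos n with h | h
    · rw [h]; exact hcont
    · obtain ⟨m, rfl⟩ : ∃ m, n = m + 1 := ⟨n - 1, by omega⟩
      by_cases hm : m + 1 ≤ N
      · exact fun t ht => (hode m hm t ht).continuousWithinAt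
      · have h1 : W (m + 1) = fun _ => 0 := funext fun t => hz _ (by omega) t
        rw [h1]
        exact continuousOn_const
  have hνn : ∀ n, 0 < lam * (ρ ^ n * ν₀) := fun n => mul_pos hR.l0 (by positivity)
  have key := barrier (ι := Fin 4 × Fin (N + 1)) (T := T)
    (fun i t => Run7.h969.Dz.GG κ ρ a₁ a₂ b₂ c d lam ν₀ e W i.1 i.2 t) ?_ ?_ ?_
  · intro n t ht
    by_cases hn : n ≤ N
    · have h1 := key (0, ⟨n, by omega⟩) t ht
      simp only [Run7.h969.Dz.GG, Matrix.cons_val_zero] at h1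
      linarith
    · rw [hz n (by omega) t]
      exact zero_le_one
  · -- continuity
    rintro ⟨j, n⟩
    have h1 := hWc n
    have h2 := hWc (n + 1)
    fin_cases j
    · exact continuousOn_const.sub h1
    · exact (((h2.add continuousOn_const).const_smul κ).add continuousOn_const).sub
        ((h1.const_smul a₁).sub continuousOn_const)
    · exact (((h2.add continuousOn_const).const_smul κ).add continuousOn_const).sub
        ((h1.const_smul a₂).sub continuousOn_const)
    · exact (((h1.add continuousOn_const).const_smul c).add continuousOn_const).sub h2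
  · -- the time zero
    rintro ⟨j, n⟩
    have h1 := hinit n
    have h2 := hinit (n + 1)
    have h3 := hneg 0 ⟨le_rfl, hT⟩ n
    have h4 := hneg 0 ⟨le_rfl, hT⟩ (n + 1)
    have h5 := hνn n
    have h6 : 0 ≤ κ * (W (n + 1) 0 + e) := mul_nonneg hR.κ0.le (by linarith)
    fin_cases j
    · show 0 < 1 - W n 0
      linarith
    · show 0 < κ * (W (n + 1) 0 + e) + lam * (ρ ^ (n : ℕ) * ν₀) - (a₁ * W n 0 - (a₁ - 1))
      have h7 : a₁ * W n 0 ≤ a₁ * δ := mul_le_mul_of_nonneg_left h1 ha1.le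
      linarith
    · show 0 < κ * (W (n + 1) 0 + e) + lam * (ρ ^ (n : ℕ) * ν₀) - (a₂ * W n 0 - b₂)
      have h7 : a₂ * W n 0 ≤ a₂ * δ := mul_le_mul_of_nonneg_left h1 ha2.le
      linarith
    · show 0 < c * (W n 0 + e) + d - W (n + 1) 0
      have h7 : 0 ≤ c * (W n 0 + e) := mul_nonneg hc0.le (by linarith)
      linarith
  · -- the contact
    rintro ⟨j, ⟨n, hn⟩⟩ t ht hall hcontact
    have htI : t ∈ Icc 0 T := ⟨ht.1.le, ht.2⟩
    have hW0 := hneg t htI
    have hW1 : ∀ m, W m t ≤ 1 := by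
      intro m
      by_cases hm : m ≤ N
      · have h1 := hall (0, ⟨m, by omega⟩)
        simp only [Run7.h969.Dz.GG, Matrix.cons_val_zero] at h1
        linarith
      · rw [hz m (by omega) t]
        exact zero_le_one
    have hPP : ∀ m, Run7.h969.Dz.PP κ a₁ a₂ b₂ c d lam e (W m t) (W (m + 1) t) (ρ ^ m * ν₀) := by
      intro m
      by_cases hm : m ≤ N
      · have h1 := hall (1, ⟨m, by omega⟩)
        have h2 := hall (2, ⟨m, by omega⟩)
        have h3 := hall (3, ⟨m, by omega⟩)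
        have h1' : 0 ≤ κ * (W (m + 1) t + e) + lam * (ρ ^ m * ν₀) - (a₁ * W m t - (a₁ - 1)) := h1
        have h2' : 0 ≤ κ * (W (m + 1) t + e) + lam * (ρ ^ m * ν₀) - (a₂ * W m t - b₂) := h2
        have h3' : 0 ≤ c * (W m t + e) + d - W (m + 1) t := h3
        exact ⟨by linarith, by linarith, by linarith⟩
      · have h1 := hνn m
        have h2 : 0 ≤ κ * (0 + e) := mul_nonneg hR.κ0.le (by linarith)
        have h3 : 0 ≤ c * (0 + e) := mul_nonneg hc0.le (by linarith)
        unfold Run7.h969.Dz.PP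
        rw [hz m (by omega) t, hz (m + 1) (by omega) t]
        exact ⟨by linarith [hR.a1], by linarith [hR.b2], by linarith [hR.d0]⟩
    obtain ⟨hsm0, hsm1⟩ := hsmall t htI
    rcases Nat.eq_zero_or_pos n with h0 | hpos'
    · -- the first shell
      exfalso
      subst h0
      have e0 := hW0 0
      have e1 := hW0 1
      have e2 := hνn 0
      have e3 : 0 ≤ κ * (W 1 t + e) := mul_nonneg hR.κ0.le (by linarith)
      fin_cases j
      · have h1 : 1 - W 0 t = 0 := hcontact
        linarith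
      · have h1 : κ * (W 1 t + e) + lam * (ρ ^ 0 * ν₀) - (a₁ * W 0 t - (a₁ - 1)) = 0 := hcontact
        have h7 : a₁ * W 0 t ≤ a₁ * δ := mul_le_mul_of_nonneg_left hsm0 ha1.le
        linarith
      · have h1 : κ * (W 1 t + e) + lam * (ρ ^ 0 * ν₀) - (a₂ * W 0 t - b₂) = 0 := hcontact
        have h7 : a₂ * W 0 t ≤ a₂ * δ := mul_le_mul_of_nonneg_left hsm0 ha2.le
        linarith
      · have h1 : c * (W 0 t + e) + d - W 1 t = 0 := hcontact
        have h7 : 0 ≤ c * (W 0 t + e) := mul_nonneg hc0.le (by linarith)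
        linarith
    · obtain ⟨m, rfl⟩ : ∃ m, n = m + 1 := ⟨n - 1, by omega⟩
      have hmN : m + 1 ≤ N := by omega
      have hd1 := hode m hmN t htI
      obtain ⟨C₁, hC₁⟩ : ∃ C₁, C₁ = C₀ * (4 / ρ) ^ (m + 1) := ⟨_, rfl⟩
      have hC₁0 : 0 < C₁ := by rw [hC₁]; positivity
      obtain ⟨ν, hν⟩ : ∃ ν, ν = ρ ^ (m + 1) * ν₀ := ⟨_, rfl⟩
      have hν0 : 0 < ν := by rw [hν]; positivity
      have hν₀ν : ν₀ ≤ ν := by
        have h1 : 1 * ν₀ ≤ ρ ^ (m + 1) * ν₀ :=
          mul_le_mul_of_nonneg_right (one_le_pow₀ hR.ρ1.le) hν₀.le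
        rw [hν]
        linarith
      have hνν : νm ≤ ν := hνm.trans hν₀ν
      have hP0 : Run7.h969.Dz.PP κ a₁ a₂ b₂ c d lam e (W m t) (W (m + 1) t) (ν / ρ) := by
        have h1 : ν / ρ = ρ ^ m * ν₀ := by
          rw [hν, pow_succ]
          field_simp
        rw [h1]
        exact hPP m
      have hP1 : Run7.h969.Dz.PP κ a₁ a₂ b₂ c d lam e (W (m + 1) t) (W (m + 2) t) ν := by
        rw [hν]
        exact hPP (m + 1)
      have hP2 : Run7.h969.Dz.PP κ a₁ a₂ b₂ c d lam e (W (m + 2) t) (W (m + 3) t) (ρ * ν) := by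
        have h1 : ρ * ν = ρ ^ (m + 2) * ν₀ := by
          rw [hν]
          ring
        rw [h1]
        exact hPP (m + 2)
      rw [← hC₁, ← hν] at hd1
      by_cases hj : j = 0
      · -- the bound one
        subst hj
        have h1 : 1 - W (m + 1) t = 0 := hcontact
        have hx : W (m + 1) t = 1 := by linarith
        refine ⟨-(C₁ * (W m t ^ 2 - κ * (W (m + 1) t * W (m + 2) t) - ν * W (m + 1) t
          + H (m + 1) t)), ?_, ?_⟩
        · have h2 := hP1.1
          rw [hx] at h2 ⊢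
          have h3 : W m t ^ 2 ≤ 1 := by
            have h8 := hW0 m
            have h9 := hW1 m
            nlinarith
          have hHm := (le_abs_self _).trans (hH m hmN t htI)
          have h4 : W m t ^ 2 - κ * (1 * W (m + 2) t) - ν * 1 + H (m + 1) t < 0 := by
            have h5 : (1 - lam) * ν₀ ≤ (1 - lam) * ν :=
              mul_le_mul_of_nonneg_left hν₀ν (by linarith [hR.l1])
            linarith
          have h5 : C₁ * (W m t ^ 2 - κ * (1 * W (m + 2) t) - ν * 1 + H (m + 1) t) < 0 :=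
            mul_neg_of_pos_of_neg hC₁0 h4
          linarith
        · exact (hd1.const_sub 1)
      · -- the other contacts: `m + 2 ≤ N`
        have hm2 : m + 2 ≤ N := by
          by_contra hlt
          have hmN' : m + 1 = N := by omega
          have h0 : W (m + 2) t = 0 := hz _ (by omega) t
          have h1 := hW1 (m + 1)
          have h2 := hW0 (m + 1)
          have h3 : 1 < lam * (ρ ^ (m + 1) * ν₀) := by rw [hmN']; exact hN
          have h6 : 0 ≤ κ * (0 + e) := mul_nonneg hR.κ0.le (by linarith)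
          fin_cases j
          · exact hj rfl
          · have h4 : κ * (W (m + 2) t + e) + lam * (ρ ^ (m + 1) * ν₀)
              - (a₁ * W (m + 1) t - (a₁ - 1)) = 0 := hcontact
            rw [h0] at h4
            have h5 : a₁ * W (m + 1) t ≤ a₁ * 1 := mul_le_mul_of_nonneg_left h1 ha1.le
            linarith
          · have h4 : κ * (W (m + 2) t + e) + lam * (ρ ^ (m + 1) * ν₀)
              - (a₂ * W (m + 1) t - b₂) = 0 := hcontact
            rw [h0] at h4
            have h5 : a₂ * W (m + 1) t ≤ a₂ * 1 := mul_le_mul_of_nonneg_left h1 ha2.le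
            linarith [hR.ab2]
          · have h4 : c * (W (m + 1) t + e) + d - W (m + 2) t = 0 := hcontact
            rw [h0] at h4
            have h5 : 0 ≤ c * (W (m + 1) t + e) := mul_nonneg hc0.le (by linarith)
            linarith [hR.d0]
        have hd2 := hode (m + 1) hm2 t htI
        have e1 : C₀ * (4 / ρ) ^ (m + 1 + 1) = C₁ * (4 / ρ) := by
          rw [hC₁, pow_succ]
          ring
        have e2 : ρ ^ (m + 1 + 1) * ν₀ = ρ * ν := by
          rw [hν]
          ring
        rw [e1, e2] at hd2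
        obtain ⟨w, hw⟩ : ∃ w, w = W m t := ⟨_, rfl⟩
        obtain ⟨x, hx⟩ : ∃ x, x = W (m + 1) t := ⟨_, rfl⟩
        obtain ⟨y, hy⟩ : ∃ y, y = W (m + 2) t := ⟨_, rfl⟩
        obtain ⟨z, hz'⟩ : ∃ z, z = W (m + 3) t := ⟨_, rfl⟩
        have w0 := hW0 m
        have w1 := hW1 m
        have x0 := hW0 (m + 1)
        have x1 := hW1 (m + 1)
        have y0 := hW0 (m + 2)
        have y1 := hW1 (m + 2)
        have z0 := hW0 (m + 3)
        have z1 := hW1 (m + 3)
        have hd2' : HasDerivWithinAt (W (m + 2)) (C₁ * (4 / ρ) * (W (m + 1) t ^ 2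
            - κ * (W (m + 2) t * W (m + 3) t) - ρ * ν * W (m + 2) t + H (m + 2) t))
            (Icc 0 T) t := hd2
        obtain ⟨hHa1, hHa2⟩ := abs_le.1 (hH m hmN t htI)
        obtain ⟨hHb1, hHb2⟩ := abs_le.1 (hH (m + 1) hm2 t htI)
        obtain ⟨Ha, hHa⟩ : ∃ Ha, Ha = H (m + 1) t := ⟨_, rfl⟩
        obtain ⟨Hb, hHb⟩ : ∃ Hb, Hb = H (m + 2) t := ⟨_, rfl⟩
        rw [← hHa] at hd1 hHa1 hHa2
        rw [← hHb] at hd2'
        have hHb1' : -γ ≤ Hb := by rw [hHb]; exact hHb1
        have hHb2' : Hb ≤ γ := by rw [hHb]; exact hHb2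
        have h4ρ0 : 0 < 4 / ρ := by positivity
        have h4ρ : 4 / ρ ≤ 4 := by
          rw [div_le_iff₀ hρ]
          linarith [hR.ρ1]
        have hκ4ρ : κ * (4 / ρ) ≤ 16 := by
          calc κ * (4 / ρ) ≤ 4 * 4 := mul_le_mul hR.κ4 h4ρ h4ρ0.le (by norm_num)
            _ = 16 := by norm_num
        have hflow : ∀ a : ℝ, 0 ≤ a → a ≤ 4 → -(20 * γ) ≤ κ * (4 / ρ) * Hb - a * Ha := by
          intro a ha0 ha4
          have i1 : κ * (4 / ρ) * -γ ≤ κ * (4 / ρ) * Hb :=
            mul_le_mul_of_nonneg_left hHb1' (mul_nonneg hR.κ0.le h4ρ0.le)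
          have i2 : a * Ha ≤ a * γ := mul_le_mul_of_nonneg_left hHa2 ha0
          have i3 : κ * (4 / ρ) * γ ≤ 16 * γ := mul_le_mul_of_nonneg_right hκ4ρ hγ
          have i4 : a * γ ≤ 4 * γ := mul_le_mul_of_nonneg_right ha4 hγ
          linarith
        have hfupp : -(20 * γ) ≤ c * Ha - 4 / ρ * Hb := by
          have i1 : c * -γ ≤ c * Ha := mul_le_mul_of_nonneg_left hHa1 hc0.le
          have i2 : 4 / ρ * Hb ≤ 4 / ρ * γ := mul_le_mul_of_nonneg_left hHb2' h4ρ0.le
          have i3 : 4 / ρ * γ ≤ 4 * γ := mul_le_mul_of_nonneg_right h4ρ hγ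
          have i4 : c * γ ≤ 1 * γ := mul_le_mul_of_nonneg_right hR.c1 hγ
          linarith
        rw [← hw, ← hx, ← hy] at hd1
        rw [← hx, ← hy, ← hz'] at hd2'
        rw [← hw] at w0 w1
        rw [← hx] at x0 x1
        rw [← hy] at y0 y1
        rw [← hz'] at z0 z1
        rw [← hw, ← hx] at hP0
        rw [← hx, ← hy] at hP1
        rw [← hy, ← hz'] at hP2
        have hkl := hR.kl ν hν0 hνν
        have hlν : 0 < lam * ν := mul_pos hR.l0 hν0
        have hκye : 0 ≤ κ * (y + e) := mul_nonneg hR.κ0.le (by linarith)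
        have hlνρ : 0 ≤ lam * (ν / ρ) := mul_nonneg hR.l0.le (by positivity)
        have hκe0 : 0 ≤ κ * e := mul_nonneg hR.κ0.le he
        have hw'1 : max (w - κ * e) 0 ≤ 1 := max_le (by linarith) zero_le_one
        have hP0' : 0 ≤ x → a₁ * max (w - κ * e) 0 - (a₁ - 1) ≤ κ * x + lam * (ν / ρ) := by
          intro hx0
          have hκx : 0 ≤ κ * x := mul_nonneg hR.κ0.le hx0
          rcases le_total (w - κ * e) 0 with h | h
          · rw [max_eq_right h]
            linarith [hR.a1]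
          · rw [max_eq_left h]
            have h1 := hP0.1
            have h2 : 1 * (κ * e) ≤ a₁ * (κ * e) := mul_le_mul_of_nonneg_right hR.a1.le hκe0
            linarith
        have hz'' : max z 0 ≤ c * (y + e) + d := by
          have h1 : 0 ≤ c * (y + e) := mul_nonneg hc0.le (by linarith)
          exact max_le hP2.2.2 (by linarith [hR.d0])
        fin_cases j
        · exact absurd rfl hj
        · have hco : κ * (W (m + 2) t + e) + lam * (ρ ^ (m + 1) * ν₀)
            - (a₁ * W (m + 1) t - (a₁ - 1)) = 0 := hcontact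
          rw [← hx, ← hy, ← hν] at hco
          have hx0 : 0 ≤ x := by
            by_contra h
            have h1 : a₁ * x ≤ 0 := mul_nonpos_of_nonneg_of_nonpos ha1.le (not_le.1 h).le
            linarith [hR.a1]
          have hy' : y + e ≤ 1 := by
            by_contra h
            have h1 : κ * 1 < κ * (y + e) := mul_lt_mul_of_pos_left (not_le.1 h) hR.κ0
            have h2 : a₁ * x ≤ a₁ * 1 := mul_le_mul_of_nonneg_left x1 ha1.le
            linarith
          have h1 := hR.low1 (max (w - κ * e) 0) x (y + e) (max z 0) ν hν0 hνν (le_max_right _ _)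
            hw'1 hx0 x1 (by linarith) hy' (le_max_right _ _) (hP0' hx0) hP1.2.1 hz''
            (by linarith)
          have h2 := low_pert hR.κ0 hR.κ4 hR.ρ1 hR.a1.le hR.a14 hν0 he he1 w0 w1 hx0 x1 y0 z0
          refine ⟨_, ?_, (((hd2'.add_const e).const_mul κ).add_const _).sub
            ((hd1.const_mul a₁).sub_const _)⟩
          have hfl := hflow a₁ ha1.le hR.a14
          have h3 := mul_pos hC₁0 (by linarith : 0 < κ * (4 / ρ) * (x ^ 2 - κ * (y * z)
            - ρ * ν * y) - a₁ * (w ^ 2 - κ * (x * y) - ν * x)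
            + (κ * (4 / ρ) * Hb - a₁ * Ha))
          linarith
        · have hco : κ * (W (m + 2) t + e) + lam * (ρ ^ (m + 1) * ν₀)
            - (a₂ * W (m + 1) t - b₂) = 0 := hcontact
          rw [← hx, ← hy, ← hν] at hco
          have hx0 : 0 ≤ x := by
            by_contra h
            have h1 : a₂ * x ≤ 0 := mul_nonpos_of_nonneg_of_nonpos ha2.le (not_le.1 h).le
            linarith [hR.b2]
          have hy' : y + e ≤ 1 := by
            by_contra h
            have h1 : κ * 1 < κ * (y + e) := mul_lt_mul_of_pos_left (not_le.1 h) hR.κ0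
            have h2 : a₂ * x ≤ a₂ * 1 := mul_le_mul_of_nonneg_left x1 ha2.le
            linarith [hR.ab2]
          have h1 := hR.low2 (max (w - κ * e) 0) x (y + e) (max z 0) ν hν0 hνν (le_max_right _ _)
            hw'1 hx0 x1 (by linarith) hy' (le_max_right _ _) (hP0' hx0) hP1.1 hz''
            (by linarith)
          have h2 := low_pert hR.κ0 hR.κ4 hR.ρ1 hR.a2 hR.a24 hν0 he he1 w0 w1 hx0 x1 y0 z0
          refine ⟨_, ?_, (((hd2'.add_const e).const_mul κ).add_const _).sub
            ((hd1.const_mul a₂).sub_const _)⟩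
          have hfl := hflow a₂ ha2.le hR.a24
          have h3 := mul_pos hC₁0 (by linarith : 0 < κ * (4 / ρ) * (x ^ 2 - κ * (y * z)
            - ρ * ν * y) - a₂ * (w ^ 2 - κ * (x * y) - ν * x)
            + (κ * (4 / ρ) * Hb - a₂ * Ha))
          linarith
        · have hco : c * (W (m + 1) t + e) + d - W (m + 2) t = 0 := hcontact
          rw [← hx, ← hy] at hco
          have hxe : 0 ≤ c * (x + e) := mul_nonneg hc0.le (by linarith)
          have hy0 : 0 ≤ y := by linarith [hR.d0]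
          have hx' : x + e ≤ 1 := by
            by_contra h
            have h1 : c * 1 < c * (x + e) := mul_lt_mul_of_pos_left (not_le.1 h) hc0
            linarith [hR.cd]
          have hw3 : 0 ≤ min (w + 3 * e) 1 := le_min (by linarith) zero_le_one
          have hxw : x + e ≤ c * min (w + 3 * e) 1 + d := by
            rcases le_total (w + 3 * e) 1 with h | h
            · rw [min_eq_left h]
              have h1 := hP0.2.2
              have h2 : 1 / 2 * (2 * e) ≤ c * (2 * e) :=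
                mul_le_mul_of_nonneg_right hR.c2 (by linarith)
              linarith
            · rw [min_eq_right h]
              linarith [hR.cd]
          have h1 := hR.upp (min (w + 3 * e) 1) (x + e) y (z + e) ν hν0 hνν hw3
            (min_le_right _ _) (by linarith) hx' hy0 y1 (by linarith) hxw hP2.1 hP2.2.1
            (by linarith)
          have h2 := upp_pert (z := z) hR.κ0 hR.κ4 hR.ρ1 hc0.le hR.c1 hν0 he he1 w0 w1 x0 hy0 y1
          refine ⟨_, ?_, (((hd1.add_const e).const_mul c).add_const _).sub hd2'⟩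
          have h3 := mul_pos hC₁0 (by linarith : 0 < c * (w ^ 2 - κ * (x * y) - ν * x)
            - (4 / ρ) * (x ^ 2 - κ * (y * z) - ρ * ν * y) + (c * Ha - 4 / ρ * Hb))
          linarith

end Pool.Agent.Run7.h32.Fo
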