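import Pool.Agent.Run7.h32.Fo.Exist
import Pool.Agent.Run7.h969.Dz.Uniq

/-!
The forced dyadic model: the energy equality of the strong solution and the uniqueness among the
Leray-Hopf solutions.
-/

set_option autoImplicit false

open Set Filter Topology MeasureTheory

namespace Pool.Agent.Run7.h32.Fo

open Run7.h969.Dy Pool.Agent.Run7.h32.Dy

variable {x : ℕ → ℝ} {f g X Z : ℕ → ℝ → ℝ} {β ν T : ℝ}

lemma SolF.cont (h : SolF β ν x f X) (n : ℕ) : ContinuousOn (X n) (Icc 0 T) := fun t ht =>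
  ((h.ode n t ht.1).continuousWithinAt).mono fun _ hs => hs.1

lemma SolF.at (h : SolF β ν x f X) (n : ℕ) {t : ℝ} (ht : 0 < t) :
    HasDerivAt (X n) (rhs β ν (fun k => X k t) n + f n t) t :=
  (h.ode n t ht.le).hasDerivAt (Ici_mem_nhds ht)

/-- the energy identity of the first shells -/
lemma solF_id (h : SolF β ν x f X) (hf : ∀ n, ContinuousOn (f n) (Icc 0 T)) (N : ℕ) {t : ℝ}
    (ht : t ∈ Icc 0 T) :
    ∑ n ∈ Finset.range (N + 1), X n t ^ 2
      + 2 * ν * ∫ s in (0 : ℝ)..t, ∑ n ∈ Finset.range (N + 1), 4 ^ n * X n s ^ 2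
      = ∑ n ∈ Finset.range (N + 1), x n ^ 2
        + 2 * (∫ s in (0 : ℝ)..t, ∑ n ∈ Finset.range (N + 1), f n s * X n s)
        - 2 * ∫ s in (0 : ℝ)..t, (2 : ℝ) ^ (β * N) * (X N s ^ 2 * X (N + 1) s) := by
  have h0T : (0 : ℝ) ∈ Icc 0 T := ⟨le_rfl, ht.1.trans ht.2⟩
  have hsub : Icc 0 t ⊆ Icc 0 T := Icc_subset_Icc_right ht.2
  have hc : ∀ n, ContinuousOn (X n) (Icc 0 T) := fun n => h.cont n
  have hi1 := ii_of (sum4_cont hc (N + 1)) h0T ht
  have hi2 := ii_of (sumf_cont hf hc (N + 1)) h0T ht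
  have hc3 : ContinuousOn (fun s => (2 : ℝ) ^ (β * N) * (X N s ^ 2 * X (N + 1) s)) (Icc 0 T) :=
    continuousOn_const.mul (((hc N).pow 2).mul (hc (N + 1)))
  have hi3 := ii_of hc3 h0T ht
  have h1 : ∫ s in (0 : ℝ)..t, (-2 * ((2 : ℝ) ^ (β * N) * (X N s ^ 2 * X (N + 1) s))
        - 2 * ν * ∑ n ∈ Finset.range (N + 1), 4 ^ n * X n s ^ 2
        + 2 * ∑ n ∈ Finset.range (N + 1), f n s * X n s)
      = ∑ n ∈ Finset.range (N + 1), X n t ^ 2 - ∑ n ∈ Finset.range (N + 1), X n 0 ^ 2 := by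
    refine intervalIntegral.integral_eq_sub_of_hasDerivAt_of_le ht.1
      (f := fun s => ∑ n ∈ Finset.range (N + 1), X n s ^ 2) ?_ ?_ ?_
    · exact continuousOn_finsetSum _ fun n _ => ((hc n).mono hsub).pow 2
    · intro s hs
      have := energy_hdF (S := univ) (f := f) (X := X) (β := β) (ν := ν) (t := s) N
        (fun n _ => (h.at n hs.1).hasDerivWithinAt)
      exact this.hasDerivAt univ_mem
    · exact ((hi3.const_mul (-2)).sub (hi1.const_mul (2 * ν))).add (hi2.const_mul 2)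
  have h2 : ∑ n ∈ Finset.range (N + 1), X n 0 ^ 2 = ∑ n ∈ Finset.range (N + 1), x n ^ 2 :=
    Finset.sum_congr rfl fun n _ => by rw [h.init n]
  rw [intervalIntegral.integral_add ((hi3.const_mul (-2)).sub (hi1.const_mul (2 * ν)))
    (hi2.const_mul 2), intervalIntegral.integral_sub (hi3.const_mul (-2)) (hi1.const_mul (2 * ν)),
    intervalIntegral.integral_const_mul (-2), intervalIntegral.integral_const_mul (2 * ν),
    intervalIntegral.integral_const_mul 2, h2] at h1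
  linarith

/-- The work of the force is absolutely summable. -/
lemma work_summable {D Φ : ℝ} (hT : 0 ≤ T) (hf : ∀ n, ContinuousOn (f n) (Icc 0 T))
    (hc : ∀ n, ContinuousOn (Z n) (Icc 0 T))
    (hΦ : ∀ M : ℕ, ∫ s in (0 : ℝ)..T, ∑ n ∈ Finset.range M, f n s ^ 2 / 4 ^ n ≤ Φ)
    (hD : ∀ M : ℕ, ∫ s in (0 : ℝ)..T, ∑ n ∈ Finset.range M, 4 ^ n * Z n s ^ 2 ≤ D) :
    Summable fun n => ∫ s in (0 : ℝ)..T, |f n s * Z n s| := by
  have h0T : (0 : ℝ) ∈ Icc 0 T := ⟨le_rfl, hT⟩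
  have hTT : T ∈ Icc 0 T := ⟨hT, le_rfl⟩
  have hca : ∀ n, ContinuousOn (fun s => |f n s * Z n s|) (Icc 0 T) := fun n =>
    ((hf n).mul (hc n)).abs
  refine summable_of_sum_range_le (c := Φ + D) (fun n => intervalIntegral.integral_nonneg hT
    fun s _ => abs_nonneg _) fun M => ?_
  rw [← intervalIntegral.integral_finsetSum fun n _ => ii_of (hca n) h0T hTT]
  have h1 : ∫ s in (0 : ℝ)..T, ∑ n ∈ Finset.range M, |f n s * Z n s|
      ≤ ∫ s in (0 : ℝ)..T, (∑ n ∈ Finset.range M, f n s ^ 2 / 4 ^ n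
        + ∑ n ∈ Finset.range M, 4 ^ n * Z n s ^ 2) := by
    refine intervalIntegral.integral_mono_on hT
      (ii_of (continuousOn_finsetSum _ fun n _ => hca n) h0T hTT)
      ((ii_of (sum14_cont hf M) h0T hTT).add (ii_of (sum4_cont hc M) h0T hTT)) fun s _ => ?_
    rw [← Finset.sum_add_distrib]
    refine Finset.sum_le_sum fun n _ => ?_
    have h2 := young (ν := 1) one_pos (a := |f n s|) (b := |Z n s|) n
    rw [sq_abs, sq_abs] at h2
    rw [abs_mul]
    have h3 : 0 ≤ |f n s| * |Z n s| := by positivity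
    have h4 : 0 ≤ f n s ^ 2 / 4 ^ n := by positivity
    norm_num at h2
    linarith
  rw [intervalIntegral.integral_add (ii_of (sum14_cont hf M) h0T hTT)
    (ii_of (sum4_cont hc M) h0T hTT)] at h1
  linarith [hΦ M, hD M]

/-- the flux of a solution with a decay rate better than the critical one -/
lemma flux_le {C D q B : ℝ} (hq1 : 1 ≤ q) (hB : B = 2 ^ β) (hC : 0 ≤ C)
    (hc : ∀ n, ContinuousOn (X n) (Icc 0 T))
    (hXs : ∀ t ∈ Icc 0 T, ∀ n : ℕ, |X n t| ≤ C / q ^ n)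
    (hD : ∀ M : ℕ, ∫ s in (0 : ℝ)..T, ∑ n ∈ Finset.range M, 4 ^ n * X n s ^ 2 ≤ D) (N : ℕ) {t : ℝ}
    (ht : t ∈ Icc 0 T) :
    |∫ s in (0 : ℝ)..t, (2 : ℝ) ^ (β * N) * (X N s ^ 2 * X (N + 1) s)|
      ≤ C * (B / (4 * q)) ^ N * D := by
  have hB0 : 0 < B := by rw [hB]; exact Real.rpow_pos_of_pos two_pos _
  have hT : 0 ≤ T := ht.1.trans ht.2
  have h0T : (0 : ℝ) ∈ Icc 0 T := ⟨le_rfl, hT⟩
  have hTT : T ∈ Icc 0 T := ⟨hT, le_rfl⟩
  have hq0 : 0 < q := by linarith
  have hc3 : ContinuousOn (fun s => (2 : ℝ) ^ (β * N) * (X N s ^ 2 * X (N + 1) s)) (Icc 0 T) :=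
    continuousOn_const.mul (((hc N).pow 2).mul (hc (N + 1)))
  have hc4 : ContinuousOn (fun s => C * (B / (4 * q)) ^ N * ∑ n ∈ Finset.range (N + 1),
      4 ^ n * X n s ^ 2) (Icc 0 T) := continuousOn_const.mul (sum4_cont hc (N + 1))
  have hpt : ∀ s ∈ Icc 0 T, |(2 : ℝ) ^ (β * N) * (X N s ^ 2 * X (N + 1) s)|
      ≤ C * (B / (4 * q)) ^ N * ∑ n ∈ Finset.range (N + 1), 4 ^ n * X n s ^ 2 := by
    intro s hs
    have h1 : |X (N + 1) s| ≤ C / q ^ N := (hXs s hs (N + 1)).trans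
      (div_le_div_of_nonneg_left hC (by positivity) (pow_le_pow_right₀ hq1 (Nat.le_succ N)))
    have h2 := Run7.h969.Dz.rate_bd hB0 hq0 h1
    rw [pow_mul_nat, ← hB, abs_mul, abs_mul, abs_of_pos (by positivity : 0 < B ^ N),
      abs_of_nonneg (sq_nonneg (X N s))]
    calc B ^ N * (X N s ^ 2 * |X (N + 1) s|) = B ^ N * |X (N + 1) s| * X N s ^ 2 := by ring
      _ ≤ C * (B / (4 * q)) ^ N * 4 ^ N * X N s ^ 2 :=
          mul_le_mul_of_nonneg_right h2 (sq_nonneg _)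
      _ = C * (B / (4 * q)) ^ N * (4 ^ N * X N s ^ 2) := by ring
      _ ≤ _ := by
          apply mul_le_mul_of_nonneg_left _ (by positivity)
          exact Finset.single_le_sum (f := fun n => (4 : ℝ) ^ n * X n s ^ 2)
            (fun n _ => by positivity) (Finset.self_mem_range_succ N)
  calc |∫ s in (0 : ℝ)..t, (2 : ℝ) ^ (β * N) * (X N s ^ 2 * X (N + 1) s)|
      ≤ ∫ s in (0 : ℝ)..t, |(2 : ℝ) ^ (β * N) * (X N s ^ 2 * X (N + 1) s)| :=
        intervalIntegral.abs_integral_le_integral_abs ht.1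
    _ ≤ ∫ s in (0 : ℝ)..t, C * (B / (4 * q)) ^ N * ∑ n ∈ Finset.range (N + 1),
        4 ^ n * X n s ^ 2 := by
        refine intervalIntegral.integral_mono_on ht.1 (ii_of hc3.abs h0T ht) (ii_of hc4 h0T ht)
          fun s hs => hpt s ⟨hs.1, hs.2.trans ht.2⟩
    _ = C * (B / (4 * q)) ^ N * ∫ s in (0 : ℝ)..t, ∑ n ∈ Finset.range (N + 1),
        4 ^ n * X n s ^ 2 := intervalIntegral.integral_const_mul _ _
    _ ≤ C * (B / (4 * q)) ^ N * D := by
        apply mul_le_mul_of_nonneg_left _ (by positivity)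
        refine le_trans ?_ (hD (N + 1))
        have h5 : 0 ≤ ∫ s in t..T, ∑ n ∈ Finset.range (N + 1), (4 : ℝ) ^ n * X n s ^ 2 :=
          intervalIntegral.integral_nonneg ht.2 fun s _ => Finset.sum_nonneg fun n _ => by positivity
        have h4 := intervalIntegral.integral_add_adjacent_intervals
          (ii_of (sum4_cont hc (N + 1)) h0T ht) (ii_of (sum4_cont hc (N + 1)) ht hTT)
        linarith

lemma rate_lt_one {s : ℝ} (hs : β - 2 < s) : (2 : ℝ) ^ β / (4 * 2 ^ s) < 1 := by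
  have hq0 : (0 : ℝ) < 2 ^ s := Real.rpow_pos_of_pos two_pos _
  rw [div_lt_one (by positivity)]
  have h1 : (4 : ℝ) * 2 ^ s = 2 ^ (2 + s) := by
    rw [Real.rpow_add two_pos]
    norm_num
  rw [h1]
  exact Real.rpow_lt_rpow_of_exponent_lt (by norm_num) (by linarith)

set_option maxHeartbeats 1000000 in
/-- **Uniqueness** among the solutions with the energy inequality. -/
theorem ws_forced {s C D E : ℝ} {δ : ℕ → ℝ} (hν : 0 < ν) (hs0 : 0 < s) (hs : β - 2 < s)
    (hT : 0 ≤ T) (hC : 0 ≤ C) (hX : SolF β ν x f X) (hZ : SolF β ν x f Z)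
    (hf : ∀ n, ContinuousOn (f n) (Icc 0 T))
    (hXs : ∀ t ∈ Icc 0 T, ∀ n : ℕ, |X n t| ≤ C / (2 ^ s) ^ n)
    (hXD : ∀ M : ℕ, ∫ s in (0 : ℝ)..T, ∑ n ∈ Finset.range M, 4 ^ n * X n s ^ 2 ≤ D)
    (hZD : ∀ M : ℕ, ∫ s in (0 : ℝ)..T, ∑ n ∈ Finset.range M, 4 ^ n * Z n s ^ 2 ≤ D)
    (hZe : ∀ N : ℕ, ∀ t ∈ Icc 0 T, ∑ n ∈ Finset.range (N + 1), Z n t ^ 2
      + 2 * ν * ∫ s in (0 : ℝ)..t, ∑ n ∈ Finset.range (N + 1), 4 ^ n * Z n s ^ 2
      ≤ E + 2 * (∫ s in (0 : ℝ)..t, ∑ n ∈ Finset.range (N + 1), f n s * Z n s) + 2 * δ N)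
    (hx : Tendsto (fun N => ∑ n ∈ Finset.range (N + 1), x n ^ 2) atTop (𝓝 E))
    (hδ : Tendsto δ atTop (𝓝 0)) (n : ℕ) : Z n T = X n T := by
  obtain ⟨B, hB⟩ : ∃ B : ℝ, B = 2 ^ β := ⟨_, rfl⟩
  obtain ⟨q, hq⟩ : ∃ q : ℝ, q = 2 ^ s := ⟨_, rfl⟩
  have hB0 : 0 < B := by rw [hB]; exact Real.rpow_pos_of_pos two_pos _
  have hq0 : 0 < q := by rw [hq]; exact Real.rpow_pos_of_pos two_pos _
  have hq1 : 1 < q := by rw [hq]; exact Real.one_lt_rpow (by norm_num) hs0
  have hσ : B / (4 * q) < 1 := by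
    rw [hB, hq]
    exact rate_lt_one hs
  have hσ0 : 0 < B / (4 * q) := by positivity
  rw [← hq] at hXs
  have h0T : (0 : ℝ) ∈ Icc 0 T := ⟨le_rfl, hT⟩
  have hTT : T ∈ Icc 0 T := ⟨hT, le_rfl⟩
  have hcX : ∀ k, ContinuousOn (X k) (Icc 0 T) := fun k => hX.cont k
  have hcZ : ∀ k, ContinuousOn (Z k) (Icc 0 T) := fun k => hZ.cont k
  have hXs1 : ∀ t ∈ Icc 0 T, ∀ n : ℕ, |X (n + 1) t| ≤ C / q ^ n := fun t ht n =>
    (hXs t ht (n + 1)).trans (div_le_div_of_nonneg_left hC (by positivity)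
      (pow_le_pow_right₀ hq1.le (Nat.le_succ n)))
  obtain ⟨K, hK0, hK⟩ := absorb (β := β) hν hs hC
  rw [← hq] at hK
  have hKn : ∀ n : ℕ, (2 : ℝ) ^ (β * n) * (C / q ^ n) ≤ ν / 4 * 4 ^ n + K := by
    intro n
    have h1 : 0 < ν * 4 ^ n := by positivity
    have h2 := hK n
    linarith
  -- the bound for every `N`
  obtain ⟨ε, hε⟩ : ∃ ε : ℕ → ℝ, ε = fun N => (E - ∑ n ∈ Finset.range (N + 1), x n ^ 2) + 2 * δ N
    + 34 * C * (B / (4 * q)) ^ N * D := ⟨_, rfl⟩
  have key : ∀ N : ℕ, ∑ k ∈ Finset.range (N + 1), (X k T - Z k T) ^ 2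
      ≤ ε N * Real.exp (4 * K * T) := by
    intro N
    have hyc : ContinuousOn (fun t => ∑ k ∈ Finset.range (N + 1), (X k t - Z k t) ^ 2) (Icc 0 T) :=
      continuousOn_finsetSum _ fun k _ => ((hcX k).sub (hcZ k)).pow 2
    refine Run7.h969.Dz.gron hyc (by positivity) (fun t ht => ?_) T hTT
    have hsub : Icc 0 t ⊆ Icc 0 T := Icc_subset_Icc_right ht.2
    have hii : ∀ f : ℝ → ℝ, ContinuousOn f (Icc 0 T) → IntervalIntegrable f volume 0 t :=
      fun f hf => ii_of hf h0T ht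
    -- the product
    have hcr : ContinuousOn (fun r => ∑ k ∈ Finset.range (N + 1),
        (X k r * rhs β ν (fun j => Z j r) k + Z k r * rhs β ν (fun j => X j r) k)) (Icc 0 T) :=
      continuousOn_finsetSum _ fun k _ =>
        ((hcX k).mul (rhs_cont hcZ k)).add ((hcZ k).mul (rhs_cont hcX k))
    have hfX := sumf_cont hf hcX (N + 1)
    have hfZ := sumf_cont hf hcZ (N + 1)
    have hJ : (∫ r in (0 : ℝ)..t, ∑ k ∈ Finset.range (N + 1),
        (X k r * rhs β ν (fun j => Z j r) k + Z k r * rhs β ν (fun j => X j r) k))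
        + (∫ r in (0 : ℝ)..t, ∑ k ∈ Finset.range (N + 1), f k r * X k r)
        + (∫ r in (0 : ℝ)..t, ∑ k ∈ Finset.range (N + 1), f k r * Z k r)
        = ∑ k ∈ Finset.range (N + 1), X k t * Z k t - ∑ k ∈ Finset.range (N + 1), x k ^ 2 := by
      have h0 : ∑ k ∈ Finset.range (N + 1), x k ^ 2
          = ∑ k ∈ Finset.range (N + 1), X k 0 * Z k 0 :=
        Finset.sum_congr rfl fun k _ => by rw [hX.init, hZ.init, pow_two]
      rw [h0, ← intervalIntegral.integral_add (hii _ hcr) (hii _ hfX),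
        ← intervalIntegral.integral_add ((hii _ hcr).add (hii _ hfX)) (hii _ hfZ)]
      refine intervalIntegral.integral_eq_sub_of_hasDerivAt_of_le ht.1
        (f := fun r => ∑ k ∈ Finset.range (N + 1), X k r * Z k r) ?_ ?_
        (((hii _ hcr).add (hii _ hfX)).add (hii _ hfZ))
      · exact continuousOn_finsetSum _ fun k _ => ((hcX k).mono hsub).mul ((hcZ k).mono hsub)
      · intro r hr
        have h1 : HasDerivAt (fun r => ∑ k ∈ Finset.range (N + 1), X k r * Z k r)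
            (∑ k ∈ Finset.range (N + 1), ((rhs β ν (fun j => X j r) k + f k r) * Z k r
              + X k r * (rhs β ν (fun j => Z j r) k + f k r))) r :=
          HasDerivAt.fun_sum fun k _ => (hX.at k hr.1).fun_mul (hZ.at k hr.1)
        refine h1.congr_deriv ?_
        rw [← Finset.sum_add_distrib, ← Finset.sum_add_distrib]
        exact Finset.sum_congr rfl fun k _ => by ring
    -- the pointwise bound
    have hpt : ∀ r ∈ Icc 0 t, -2 * ∑ k ∈ Finset.range (N + 1),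
        (X k r * rhs β ν (fun j => Z j r) k + Z k r * rhs β ν (fun j => X j r) k)
        ≤ 2 * ν * ∑ n ∈ Finset.range (N + 1), 4 ^ n * X n r ^ 2
          + 2 * ν * ∑ n ∈ Finset.range (N + 1), 4 ^ n * Z n r ^ 2
          + 4 * K * ∑ k ∈ Finset.range (N + 1), (X k r - Z k r) ^ 2
          + 16 * C * (B / (4 * q)) ^ N * (∑ n ∈ Finset.range (N + 2), 4 ^ n * X n r ^ 2
            + ∑ n ∈ Finset.range (N + 2), 4 ^ n * Z n r ^ 2) := by
      intro r hr
      have hrT : r ∈ Icc 0 T := hsub hr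
      have h1 := Run7.h969.Dz.cross_id β ν (fun j => X j r) (fun j => Z j r) N
      have h2 := Run7.h969.Dz.bulk_le (β := β) (K := K) (x := fun j => X j r)
        (d := fun j => X j r - Z j r) hν hK0
        (fun n => (mul_le_mul_of_nonneg_left (hXs r hrT n)
          (Real.rpow_nonneg two_pos.le _)).trans (hKn n))
        (fun n => (mul_le_mul_of_nonneg_left (hXs1 r hrT n)
          (Real.rpow_nonneg two_pos.le _)).trans (hKn n)) N
      have h3 := Run7.h969.Dz.bdry_le (c := Z N r) (d := Z (N + 1) r) (hXs r hrT N) (hXs1 r hrT N)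
      have h4 : B ^ N * (8 * (C / q ^ N) * (X N r ^ 2 + X (N + 1) r ^ 2 + Z N r ^ 2
          + Z (N + 1) r ^ 2)) ≤ 8 * C * (B / (4 * q)) ^ N
          * (∑ n ∈ Finset.range (N + 2), 4 ^ n * X n r ^ 2
            + ∑ n ∈ Finset.range (N + 2), 4 ^ n * Z n r ^ 2) := by
        have e1 : ∀ Y : ℕ → ℝ → ℝ, (4 : ℝ) ^ N * (Y N r ^ 2 + Y (N + 1) r ^ 2)
            ≤ ∑ n ∈ Finset.range (N + 2), (4 : ℝ) ^ n * Y n r ^ 2 := by
          intro Y
          rw [Finset.sum_range_succ, Finset.sum_range_succ]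
          have b1 : 0 ≤ ∑ n ∈ Finset.range N, (4 : ℝ) ^ n * Y n r ^ 2 :=
            Finset.sum_nonneg fun n _ => by positivity
          have b2 : (4 : ℝ) ^ N * Y (N + 1) r ^ 2 ≤ 4 ^ (N + 1) * Y (N + 1) r ^ 2 :=
            mul_le_mul_of_nonneg_right (pow_le_pow_right₀ (by norm_num) (Nat.le_succ N))
              (sq_nonneg _)
          linarith
        have e2 : B ^ N * (8 * (C / q ^ N) * (X N r ^ 2 + X (N + 1) r ^ 2 + Z N r ^ 2
            + Z (N + 1) r ^ 2)) = 8 * C * (B / (4 * q)) ^ N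
            * ((4 : ℝ) ^ N * (X N r ^ 2 + X (N + 1) r ^ 2)
              + (4 : ℝ) ^ N * (Z N r ^ 2 + Z (N + 1) r ^ 2)) := by
          rw [div_pow, mul_pow]
          field_simp
          ring
        rw [e2]
        exact mul_le_mul_of_nonneg_left (add_le_add (e1 X) (e1 Z)) (by positivity)
      have h5 := mul_le_mul_of_nonneg_left h3 (by positivity : 0 ≤ B ^ N)
      have h6 : (2 : ℝ) ^ (β * N) = B ^ N := by rw [pow_mul_nat, hB]
      rw [h6] at h1
      rw [h1]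
      nlinarith
    -- the integral
    have hI : ∀ (Y : ℕ → ℝ → ℝ), (∀ k, ContinuousOn (Y k) (Icc 0 T)) → ∀ M : ℕ,
        IntervalIntegrable (fun r => ∑ n ∈ Finset.range M, (4 : ℝ) ^ n * Y n r ^ 2) volume 0 t :=
      fun Y hY M => hii _ (sum4_cont hY M)
    have h1 : -2 * ∫ r in (0 : ℝ)..t, ∑ k ∈ Finset.range (N + 1),
        (X k r * rhs β ν (fun j => Z j r) k + Z k r * rhs β ν (fun j => X j r) k)
        ≤ 2 * ν * (∫ r in (0 : ℝ)..t, ∑ n ∈ Finset.range (N + 1), 4 ^ n * X n r ^ 2)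
          + 2 * ν * (∫ r in (0 : ℝ)..t, ∑ n ∈ Finset.range (N + 1), 4 ^ n * Z n r ^ 2)
          + 4 * K * (∫ r in (0 : ℝ)..t, ∑ k ∈ Finset.range (N + 1), (X k r - Z k r) ^ 2)
          + 16 * C * (B / (4 * q)) ^ N
            * ((∫ r in (0 : ℝ)..t, ∑ n ∈ Finset.range (N + 2), 4 ^ n * X n r ^ 2)
            + ∫ r in (0 : ℝ)..t, ∑ n ∈ Finset.range (N + 2), 4 ^ n * Z n r ^ 2) := by
      rw [← intervalIntegral.integral_const_mul, ← intervalIntegral.integral_const_mul,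
        ← intervalIntegral.integral_const_mul, ← intervalIntegral.integral_const_mul,
        ← intervalIntegral.integral_add (hI X hcX _) (hI Z hcZ _),
        ← intervalIntegral.integral_const_mul,
        ← intervalIntegral.integral_add ((hI X hcX _).const_mul _) ((hI Z hcZ _).const_mul _),
        ← intervalIntegral.integral_add (((hI X hcX _).const_mul _).add
          ((hI Z hcZ _).const_mul _)) ((hii _ hyc).const_mul _),
        ← intervalIntegral.integral_add ((((hI X hcX _).const_mul _).add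
          ((hI Z hcZ _).const_mul _)).add ((hii _ hyc).const_mul _))
          (((hI X hcX _).add (hI Z hcZ _)).const_mul _)]
      refine intervalIntegral.integral_mono_on ht.1 ((hii _ hcr).const_mul _)
        (((((hI X hcX _).const_mul _).add
          ((hI Z hcZ _).const_mul _)).add ((hii _ hyc).const_mul _)).add
          (((hI X hcX _).add (hI Z hcZ _)).const_mul _)) hpt
    have h2 : ∀ Y : ℕ → ℝ → ℝ, (∀ k, ContinuousOn (Y k) (Icc 0 T)) →
        (∀ M : ℕ, ∫ s in (0 : ℝ)..T, ∑ n ∈ Finset.range M, 4 ^ n * Y n s ^ 2 ≤ D) →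
        ∫ r in (0 : ℝ)..t, ∑ n ∈ Finset.range (N + 2), 4 ^ n * Y n r ^ 2 ≤ D := by
      intro Y hcY hY
      refine le_trans ?_ (hY (N + 2))
      have h5 : 0 ≤ ∫ s in t..T, ∑ n ∈ Finset.range (N + 2), (4 : ℝ) ^ n * Y n s ^ 2 :=
        intervalIntegral.integral_nonneg ht.2 fun s _ => Finset.sum_nonneg fun n _ => by positivity
      have h4 := intervalIntegral.integral_add_adjacent_intervals
        (ii_of (sum4_cont hcY (N + 2)) h0T ht) (ii_of (sum4_cont hcY (N + 2)) ht hTT)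
      linarith
    have h3 := h2 X hcX hXD
    have h4 := h2 Z hcZ hZD
    have h5 : 16 * C * (B / (4 * q)) ^ N
        * ((∫ r in (0 : ℝ)..t, ∑ n ∈ Finset.range (N + 2), 4 ^ n * X n r ^ 2)
        + ∫ r in (0 : ℝ)..t, ∑ n ∈ Finset.range (N + 2), 4 ^ n * Z n r ^ 2)
        ≤ 16 * C * (B / (4 * q)) ^ N * (2 * D) := by
      apply mul_le_mul_of_nonneg_left _ (by positivity)
      linarith
    have h6 := solF_id hX hf N ht
    have h7 := hZe N t ht
    have h9 := (neg_abs_le _).trans' (neg_le_neg (flux_le (q := q) hq1.le hB hC hcX hXs hXD N ht))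
    have h8 : ∑ k ∈ Finset.range (N + 1), (X k t - Z k t) ^ 2
        = ∑ k ∈ Finset.range (N + 1), X k t ^ 2 + ∑ k ∈ Finset.range (N + 1), Z k t ^ 2
          - 2 * ∑ k ∈ Finset.range (N + 1), X k t * Z k t := by
      rw [Finset.mul_sum, ← Finset.sum_add_distrib, ← Finset.sum_sub_distrib]
      exact Finset.sum_congr rfl fun k _ => by ring
    rw [h8, hε]
    simp only
    linarith
  -- the limit
  have hlim : Tendsto (fun N : ℕ => ε N * Real.exp (4 * K * T)) atTop (𝓝 0) := by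
    have h3 : Tendsto (fun N : ℕ => (B / (4 * q)) ^ N) atTop (𝓝 0) :=
      tendsto_pow_atTop_nhds_zero_of_lt_one hσ0.le hσ
    have h4 := (((hx.const_sub E).add (hδ.const_mul 2)).add
      ((h3.const_mul (34 * C)).mul_const D)).mul_const (Real.exp (4 * K * T))
    rw [sub_self, mul_zero, mul_zero, zero_mul, add_zero, add_zero, zero_mul] at h4
    rw [hε]
    exact h4
  have h1 : (X n T - Z n T) ^ 2 ≤ 0 := by
    refine ge_of_tendsto hlim ?_
    filter_upwards [eventually_ge_atTop n] with N hN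
    refine le_trans ?_ (key N)
    exact Finset.single_le_sum (f := fun k => (X k T - Z k T) ^ 2) (fun k _ => sq_nonneg _)
      (Finset.mem_range.2 (Nat.lt_succ_of_le hN))
  have h2 : X n T - Z n T = 0 := by
    have := le_antisymm h1 (sq_nonneg _)
    exact pow_eq_zero_iff two_ne_zero |>.1 this
  linarith

end Pool.Agent.Run7.h32.Fo
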